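import Mathlib

/-!
Interface for the metric two sided count (MP_927be3_nt, slot 4).
All counting is over vectors of natural numbers below `N`.
-/

namespace Pool.Agent.W5h31.MS

open MeasureTheory

/-- The Gaussian kernel of width `h`. -/
noncomputable def K (h t : ℝ) : ℝ := Real.exp (-(Real.pi * t ^ 2 / h ^ 2)) / h

/-- The additive character `exp (2 pi i t)`. -/
noncomputable def ee (t : ℝ) : ℂ := Complex.exp (2 * Real.pi * t * Complex.I)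

/-- The exponential sum over `0 <= x < N` of `e (t x^k)`. -/
noncomputable def S (k N : ℕ) (t : ℝ) : ℂ := ∑ x ∈ Finset.range N, ee (t * (x : ℝ) ^ k)

/-- The diagonal form. -/
noncomputable def L (k : ℕ) {s : ℕ} (α : Fin s → ℝ) (m : Fin s → ℕ) : ℝ :=
  ∑ i, α i * (m i : ℝ) ^ k

/-- The vectors of natural numbers below `N`. -/
def bx (s N : ℕ) : Finset (Fin s → ℕ) := Fintype.piFinset (fun _ => Finset.range N)

/-- TASK 1 (coarse lower bound). Hint: take `m i <= ε N` freely for `i ≠ 0`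
(so the other terms sum to at most `u/2`), and for `i = 0` the natural number `x` with
`α 0 * x^k <= t < α 0 * (x+1)^k`, `t = u - rest`; then `|L m - u| <= B k N^(k-1)`. -/
def S_low : Prop :=
  ∀ k s : ℕ, 2 ≤ k → k ≤ s → ∀ A B c₂ : ℝ, 0 < A → A ≤ B → 0 < c₂ →
    ∃ c : ℝ, 0 < c ∧ ∃ N₀ : ℕ, ∀ N : ℕ, N₀ ≤ N → ∀ α : Fin s → ℝ,
      (∀ i, A ≤ α i ∧ α i ≤ B) → ∀ u : ℝ, c₂ * (N : ℝ) ^ k ≤ u → u ≤ A / 2 * (N : ℝ) ^ k →
        c * (N : ℝ) ^ (s - k) ≤ ∑ m ∈ bx s N, K ((N : ℝ) ^ (k - 1)) (L k α m - u)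

/-- TASK 2 (coarse upper bound). Hint: if `L m <= u/2` the term is at most
`exp (- pi (c₂ N / 2)^2) / N^(k-1)`. Otherwise some `α i * (m i)^k >= u/(2s)`, so
`m i >= c' N`; for the other coordinates fixed the points `α i * x^k`, `c' N <= x < N`, satisfy
`|p x - p y| >= c'' N^(k-1) |x-y|`, and if `x0` minimises `|p x - t|` then
`|p x - t| >= |p x - p x0| / 2`, so the sum of the Gaussians is bounded by a geometric series. -/
def S_up : Prop :=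
  ∀ k s : ℕ, 2 ≤ k → k ≤ s → ∀ A B c₂ : ℝ, 0 < A → A ≤ B → 0 < c₂ →
    ∃ C : ℝ, 0 < C ∧ ∀ N : ℕ, 1 ≤ N → ∀ α : Fin s → ℝ,
      (∀ i, A ≤ α i ∧ α i ≤ B) → ∀ u : ℝ, c₂ * (N : ℝ) ^ k ≤ u →
        ∑ m ∈ bx s N, K ((N : ℝ) ^ (k - 1)) (L k α m - u) ≤ C * (N : ℝ) ^ (s - k)

/-- TASK 3 (first moment in one coefficient). Hint: `‖S‖ <= (‖S‖^2 / t + t) / 2` with
`t = sqrt N + (1 + log N) M`; expand `‖S (aξ)‖^2` as a double sum, integrate over `a`: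
`‖∫ a in A..B, e (a d)‖ <= min (B - A) (1 / (pi |d|))` with `d = ξ (x^k - y^k)`;
for `x > y`, `x^k - y^k >= (x - y) x^(k-1)`; and for each `x >= 1`
`∑_{j=1}^{x} min 1 (M^k / (j x^(k-1))) <= (1 + log N) M^2 / x` (cases `x <= M`, `x > M`). -/
def S_mean : Prop :=
  ∀ k : ℕ, 2 ≤ k → ∀ A B : ℝ, A < B → ∃ C : ℝ, 0 < C ∧ ∀ N : ℕ, 1 ≤ N → ∀ ξ M : ℝ, 0 < M →
    |ξ| * M ^ k = 1 →
      ∫ a in Set.Icc A B, ‖S k N (a * ξ)‖ ≤ C * (Real.sqrt N + (1 + Real.log N) * M)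

end Pool.Agent.W5h31.MS
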