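import Pool.Agent.W5h31.MS.Defs

/-!
Fourier comparison of Gaussian counts of different widths.
-/

namespace Pool.Agent.W5h31.MS

open MeasureTheory

theorem ee_add (a b : ℝ) : ee (a + b) = ee a * ee b := by
  unfold ee
  rw [← Complex.exp_add]
  congr 1
  push_cast
  ring

theorem norm_ee (a : ℝ) : ‖ee a‖ = 1 := by
  unfold ee
  have : (2 * (Real.pi : ℂ) * (a : ℂ) * Complex.I) = ((2 * Real.pi * a : ℝ) : ℂ) * Complex.I := by
    push_cast; ring
  rw [this, Complex.norm_exp_ofReal_mul_I]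

theorem ee_sum {ι : Type*} (t : Finset ι) (f : ι → ℝ) :
    ee (∑ i ∈ t, f i) = ∏ i ∈ t, ee (f i) := by
  unfold ee
  rw [← Complex.exp_sum]
  congr 1
  push_cast
  rw [Finset.mul_sum, Finset.sum_mul]

theorem continuous_ee : Continuous ee := by
  unfold ee
  fun_prop

theorem K_eq (h : ℝ) (hh : 0 < h) (x : ℝ) :
    ((K h x : ℝ) : ℂ) =
      ∫ ξ : ℝ, ((Real.exp (-(Real.pi * h ^ 2 * ξ ^ 2)) : ℝ) : ℂ) * ee (x * ξ) := by
  have hb : 0 < ((Real.pi * h ^ 2 : ℝ) : ℂ).re := by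
    rw [Complex.ofReal_re]; positivity
  have key := fourierIntegral_gaussian hb ((2 * Real.pi * x : ℝ) : ℂ)
  have e1 : (fun ξ : ℝ => ((Real.exp (-(Real.pi * h ^ 2 * ξ ^ 2)) : ℝ) : ℂ) * ee (x * ξ)) =
      fun ξ : ℝ => Complex.exp (Complex.I * ((2 * Real.pi * x : ℝ) : ℂ) * ξ) *
        Complex.exp (-((Real.pi * h ^ 2 : ℝ) : ℂ) * (ξ : ℂ) ^ 2) := by
    funext ξ
    unfold ee
    rw [Complex.ofReal_exp, ← Complex.exp_add, ← Complex.exp_add]
    congr 1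
    push_cast
    ring
  rw [e1, key]
  have hpi := Real.pi_pos
  have e2 : ((Real.pi : ℂ) / ((Real.pi * h ^ 2 : ℝ) : ℂ)) = (((1 / h) ^ 2 : ℝ) : ℂ) := by
    rw [← Complex.ofReal_div]
    congr 1
    field_simp
  have e3 : ((((1 / h) ^ 2 : ℝ) : ℂ)) ^ (1 / 2 : ℂ) = (((1 / h) : ℝ) : ℂ) := by
    have : (1 / 2 : ℂ) = (((1 / 2 : ℝ)) : ℂ) := by push_cast; ring
    rw [this, ← Complex.ofReal_cpow (by positivity), ← Real.sqrt_eq_rpow, Real.sqrt_sq (by positivity)]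
  rw [e2, e3]
  unfold K
  have e4 : (-(((2 * Real.pi * x : ℝ) : ℂ)) ^ 2 / (4 * ((Real.pi * h ^ 2 : ℝ) : ℂ))) =
      ((-(Real.pi * x ^ 2 / h ^ 2) : ℝ) : ℂ) := by
    rw [← Complex.ofReal_pow, ← Complex.ofReal_neg]
    have : (4 * ((Real.pi * h ^ 2 : ℝ) : ℂ)) = ((4 * (Real.pi * h ^ 2) : ℝ) : ℂ) := by push_cast; ring
    rw [this, ← Complex.ofReal_div]
    congr 1
    field_simp
    ring
  rw [e4, ← Complex.ofReal_exp, ← Complex.ofReal_mul]
  congr 1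
  ring

theorem integrable_gauss (h : ℝ) (hh : 0 < h) :
    Integrable (fun ξ : ℝ => Real.exp (-(Real.pi * h ^ 2 * ξ ^ 2))) := by
  have := integrable_exp_neg_mul_sq (b := Real.pi * h ^ 2) (by positivity)
  refine this.congr (Filter.Eventually.of_forall fun ξ => ?_)
  simp only [neg_mul]

theorem S_continuous (k N : ℕ) : Continuous (S k N) := by
  unfold S
  refine continuous_finsetSum _ fun x _ => ?_
  exact continuous_ee.comp (by fun_prop)

theorem norm_S_le (k N : ℕ) (t : ℝ) : ‖S k N t‖ ≤ N := by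
  unfold S
  refine (norm_sum_le _ _).trans ?_
  simp [norm_ee]

theorem prod_S (k N : ℕ) {s : ℕ} (α : Fin s → ℝ) (u ξ : ℝ) :
    ∑ m ∈ bx s N, ee ((L k α m - u) * ξ) = ee (-u * ξ) * ∏ i, S k N (α i * ξ) := by
  unfold S bx
  rw [Finset.prod_univ_sum, Finset.mul_sum]
  refine Finset.sum_congr rfl fun m _ => ?_
  rw [← ee_sum, ← ee_add]
  congr 1
  unfold L
  rw [sub_mul, Finset.sum_mul]
  have : ∀ i, α i * (m i : ℝ) ^ k * ξ = α i * ξ * (m i : ℝ) ^ k := fun i => by ring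
  simp_rw [this]
  ring

theorem sumK_eq (k N : ℕ) {s : ℕ} (α : Fin s → ℝ) (u h : ℝ) (hh : 0 < h) :
    ((∑ m ∈ bx s N, K h (L k α m - u) : ℝ) : ℂ) =
      ∫ ξ : ℝ, ((Real.exp (-(Real.pi * h ^ 2 * ξ ^ 2)) : ℝ) : ℂ) *
        (ee (-u * ξ) * ∏ i, S k N (α i * ξ)) := by
  rw [Complex.ofReal_sum]
  simp_rw [K_eq h hh]
  rw [← integral_finsetSum]
  · refine integral_congr_ae (Filter.Eventually.of_forall fun ξ => ?_)
    simp only
    rw [← prod_S, Finset.mul_sum]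
  · intro m _
    refine ((integrable_gauss h hh).ofReal (𝕜 := ℂ)).mul_bdd (c := 1) ?_ ?_
    · exact (continuous_ee.comp (by fun_prop)).aestronglyMeasurable
    · exact Filter.Eventually.of_forall fun ξ => by rw [norm_ee]

/-- The weight of the comparison. -/
noncomputable def om (κ H ξ : ℝ) : ℝ :=
  Real.exp (-(Real.pi * κ ^ 2 * ξ ^ 2)) * min 1 (Real.pi * H ^ 2 * ξ ^ 2)

/-- The comparison integral. -/
noncomputable def D (k N : ℕ) {s : ℕ} (κ H : ℝ) (α : Fin s → ℝ) : ℝ :=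
  ∫ ξ : ℝ, om κ H ξ * ∏ i, ‖S k N (α i * ξ)‖

theorem om_nonneg (κ H ξ : ℝ) : 0 ≤ om κ H ξ := by
  unfold om
  have : 0 ≤ min 1 (Real.pi * H ^ 2 * ξ ^ 2) := le_min zero_le_one (by positivity)
  positivity

theorem om_le (κ H ξ : ℝ) : om κ H ξ ≤ Real.exp (-(Real.pi * κ ^ 2 * ξ ^ 2)) := by
  unfold om
  have : min 1 (Real.pi * H ^ 2 * ξ ^ 2) ≤ 1 := min_le_left _ _
  nlinarith [Real.exp_pos (-(Real.pi * κ ^ 2 * ξ ^ 2))]

theorem om_le' (κ H ξ : ℝ) : om κ H ξ ≤ Real.pi * H ^ 2 * ξ ^ 2 := by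
  unfold om
  have h1 : min 1 (Real.pi * H ^ 2 * ξ ^ 2) ≤ Real.pi * H ^ 2 * ξ ^ 2 := min_le_right _ _
  have h0 : 0 ≤ min 1 (Real.pi * H ^ 2 * ξ ^ 2) := le_min zero_le_one (by positivity)
  have h2 : Real.exp (-(Real.pi * κ ^ 2 * ξ ^ 2)) ≤ 1 := by
    rw [Real.exp_le_one_iff]
    have : 0 ≤ Real.pi * κ ^ 2 * ξ ^ 2 := by positivity
    linarith
  nlinarith

theorem om_continuous (κ H : ℝ) : Continuous (om κ H) := by
  unfold om
  fun_prop

theorem om_integrable (κ H : ℝ) (hκ : 0 < κ) : Integrable (om κ H) := by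
  refine (integrable_gauss κ hκ).mono' (om_continuous κ H).aestronglyMeasurable ?_
  refine Filter.Eventually.of_forall fun ξ => ?_
  rw [Real.norm_of_nonneg (om_nonneg _ _ _)]
  exact om_le _ _ _

theorem diff_le (κ h H ξ : ℝ) (hκ : 0 < κ) (h1 : κ ≤ h) (h2 : h ≤ H) :
    |Real.exp (-(Real.pi * h ^ 2 * ξ ^ 2)) - Real.exp (-(Real.pi * H ^ 2 * ξ ^ 2))| ≤
      om κ H ξ := by
  have hh : 0 < h := hκ.trans_le h1
  have hpi := Real.pi_pos
  have a1 : κ ^ 2 ≤ h ^ 2 := by gcongr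
  have a2 : h ^ 2 ≤ H ^ 2 := by gcongr
  have x2 : 0 ≤ ξ ^ 2 := sq_nonneg _
  have b1 : Real.pi * κ ^ 2 * ξ ^ 2 ≤ Real.pi * h ^ 2 * ξ ^ 2 := by gcongr
  have b2 : Real.pi * h ^ 2 * ξ ^ 2 ≤ Real.pi * H ^ 2 * ξ ^ 2 := by gcongr
  have b0 : 0 ≤ Real.pi * κ ^ 2 * ξ ^ 2 := by positivity
  set P := Real.pi * h ^ 2 * ξ ^ 2 with hP
  set Q := Real.pi * H ^ 2 * ξ ^ 2 with hQ
  set R := Real.pi * κ ^ 2 * ξ ^ 2 with hR
  have c1 : Real.exp (-Q) ≤ Real.exp (-P) := Real.exp_le_exp.mpr (by linarith)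
  have c2 : Real.exp (-P) ≤ Real.exp (-R) := Real.exp_le_exp.mpr (by linarith)
  rw [abs_of_nonneg (by linarith)]
  unfold om
  rw [← hR, ← hQ]
  have c3 : Real.exp (-Q) = Real.exp (-P) * Real.exp (-(Q - P)) := by
    rw [← Real.exp_add]; congr 1; ring
  have c4 : 1 - Real.exp (-(Q - P)) ≤ min 1 Q := by
    refine le_min ?_ ?_
    · linarith [Real.exp_pos (-(Q - P))]
    · have := Real.add_one_le_exp (-(Q - P))
      linarith
  have c5 : 0 ≤ 1 - Real.exp (-(Q - P)) := by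
    have : Real.exp (-(Q - P)) ≤ 1 := by
      rw [Real.exp_le_one_iff]; linarith
    linarith
  calc Real.exp (-P) - Real.exp (-Q) = Real.exp (-P) * (1 - Real.exp (-(Q - P))) := by
        rw [c3]; ring
    _ ≤ Real.exp (-R) * min 1 Q := by
        refine mul_le_mul c2 c4 c5 (Real.exp_pos _).le

theorem prodS_continuous (k N : ℕ) {s : ℕ} (α : Fin s → ℝ) :
    Continuous fun ξ : ℝ => ∏ i, ‖S k N (α i * ξ)‖ := by
  refine continuous_finsetProd _ fun i _ => ?_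
  exact ((S_continuous k N).comp (by fun_prop)).norm

theorem prodS_le (k N : ℕ) {s : ℕ} (α : Fin s → ℝ) (ξ : ℝ) :
    ∏ i, ‖S k N (α i * ξ)‖ ≤ (N : ℝ) ^ s := by
  calc ∏ i, ‖S k N (α i * ξ)‖ ≤ ∏ _i : Fin s, (N : ℝ) :=
        Finset.prod_le_prod (fun i _ => norm_nonneg _) (fun i _ => norm_S_le _ _ _)
    _ = (N : ℝ) ^ s := by simp

theorem D_integrable (k N : ℕ) {s : ℕ} (κ H : ℝ) (hκ : 0 < κ) (α : Fin s → ℝ) :
    Integrable fun ξ : ℝ => om κ H ξ * ∏ i, ‖S k N (α i * ξ)‖ := by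
  refine (om_integrable κ H hκ).mul_bdd (c := (N : ℝ) ^ s) ?_ ?_
  · exact (prodS_continuous k N α).aestronglyMeasurable
  · refine Filter.Eventually.of_forall fun ξ => ?_
    rw [Real.norm_of_nonneg (Finset.prod_nonneg fun i _ => norm_nonneg _)]
    exact prodS_le _ _ _ _

/-- The comparison of the Gaussian counts of width `h` and `H`, uniformly in `u`. -/
theorem comp (k N : ℕ) {s : ℕ} (κ h H : ℝ) (hκ : 0 < κ) (h1 : κ ≤ h) (h2 : h ≤ H)
    (α : Fin s → ℝ) (u : ℝ) :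
    |(∑ m ∈ bx s N, K h (L k α m - u)) - ∑ m ∈ bx s N, K H (L k α m - u)| ≤ D k N κ H α := by
  have hh : 0 < h := hκ.trans_le h1
  have hH : 0 < H := hh.trans_le h2
  have e : (((∑ m ∈ bx s N, K h (L k α m - u)) - ∑ m ∈ bx s N, K H (L k α m - u) : ℝ) : ℂ) =
      ∫ ξ : ℝ, ((Real.exp (-(Real.pi * h ^ 2 * ξ ^ 2)) -
        Real.exp (-(Real.pi * H ^ 2 * ξ ^ 2)) : ℝ) : ℂ) *
        (ee (-u * ξ) * ∏ i, S k N (α i * ξ)) := by
    have hi : ∀ g : ℝ, 0 < g → Integrable fun ξ : ℝ =>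
        ((Real.exp (-(Real.pi * g ^ 2 * ξ ^ 2)) : ℝ) : ℂ) *
        (ee (-u * ξ) * ∏ i, S k N (α i * ξ)) := by
      intro g hg
      refine ((integrable_gauss g hg).ofReal (𝕜 := ℂ)).mul_bdd (c := (N : ℝ) ^ s) ?_ ?_
      · refine Continuous.aestronglyMeasurable ?_
        refine (continuous_ee.comp (by fun_prop)).mul (continuous_finsetProd _ fun i _ => ?_)
        exact (S_continuous k N).comp (by fun_prop)
      · refine Filter.Eventually.of_forall fun ξ => ?_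
        rw [norm_mul, norm_ee, one_mul, norm_prod]
        exact prodS_le _ _ _ _
    rw [Complex.ofReal_sub, sumK_eq k N α u h hh, sumK_eq k N α u H hH,
      ← integral_sub (hi h hh) (hi H hH)]
    refine integral_congr_ae (Filter.Eventually.of_forall fun ξ => ?_)
    simp only
    push_cast
    ring
  have e2 : |(∑ m ∈ bx s N, K h (L k α m - u)) - ∑ m ∈ bx s N, K H (L k α m - u)| =
      ‖(((∑ m ∈ bx s N, K h (L k α m - u)) -
        ∑ m ∈ bx s N, K H (L k α m - u) : ℝ) : ℂ)‖ := by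
    rw [Complex.norm_real, Real.norm_eq_abs]
  rw [e2, e]
  unfold D
  refine norm_integral_le_of_norm_le (D_integrable k N κ H hκ α) ?_
  refine Filter.Eventually.of_forall fun ξ => ?_
  rw [norm_mul, norm_mul, norm_ee, one_mul, norm_prod, Complex.norm_real, Real.norm_eq_abs]
  exact mul_le_mul_of_nonneg_right (diff_le κ h H ξ hκ h1 h2)
    (Finset.prod_nonneg fun i _ => norm_nonneg _)

end Pool.Agent.W5h31.MS
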