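import Pool.Agent.W5h31.MS.F1

/-!
The expectation of the comparison integral over a box of coefficients.
-/

namespace Pool.Agent.W5h31.MS

open MeasureTheory Filter Topology

/-- The product measure on the box of coefficients. -/
noncomputable def mu (s : ℕ) (A B : ℝ) : Measure (Fin s → ℝ) :=
  Measure.pi (fun _ => volume.restrict (Set.Icc A B))

/-- The one variable mean. -/
noncomputable def gm (k N : ℕ) (A B ξ : ℝ) : ℝ := ∫ a in Set.Icc A B, ‖S k N (a * ξ)‖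

instance (s : ℕ) (A B : ℝ) : IsFiniteMeasure (mu s A B) := by
  unfold mu; infer_instance

theorem gm_nonneg (k N : ℕ) (A B ξ : ℝ) : 0 ≤ gm k N A B ξ :=
  integral_nonneg fun _ => norm_nonneg _

theorem gm_le (k N : ℕ) (A B ξ : ℝ) (hAB : A ≤ B) : gm k N A B ξ ≤ (B - A) * N := by
  unfold gm
  have h := norm_setIntegral_le_of_norm_le_const (μ := volume) (s := Set.Icc A B)
    (f := fun a => ‖S k N (a * ξ)‖) (C := N)
    (by rw [Real.volume_Icc]; exact ENNReal.ofReal_lt_top)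
    (fun a _ => by rw [norm_norm]; exact norm_S_le _ _ _)
  have h2 : (volume.real (Set.Icc A B)) = B - A := by
    rw [Measure.real, Real.volume_Icc, ENNReal.toReal_ofReal (by linarith)]
  rw [h2] at h
  calc ∫ a in Set.Icc A B, ‖S k N (a * ξ)‖ ≤ ‖∫ a in Set.Icc A B, ‖S k N (a * ξ)‖‖ :=
        Real.le_norm_self _
    _ ≤ N * (B - A) := h
    _ = (B - A) * N := by ring

theorem prod_cont (k N s : ℕ) : Continuous fun p : (Fin s → ℝ) × ℝ => ∏ i, ‖S k N (p.1 i * p.2)‖ := by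
  refine continuous_finsetProd _ fun i _ => ?_
  exact ((S_continuous k N).comp (by fun_prop)).norm

theorem inner_eq (k N s : ℕ) (A B κ H ξ : ℝ) :
    ∫⁻ α, ENNReal.ofReal (om κ H ξ * ∏ i : Fin s, ‖S k N (α i * ξ)‖) ∂(mu s A B) =
      ENNReal.ofReal (om κ H ξ * (gm k N A B ξ) ^ s) := by
  have hc : Continuous fun α : Fin s → ℝ => ∏ i, ‖S k N (α i * ξ)‖ := by
    refine continuous_finsetProd _ fun i _ => ?_
    have h1 : Continuous fun α : Fin s → ℝ => α i * ξ := by fun_prop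
    exact ((S_continuous k N).comp h1).norm
  have hint : Integrable (fun α : Fin s → ℝ => om κ H ξ * ∏ i, ‖S k N (α i * ξ)‖) (mu s A B) := by
    refine Integrable.const_mul ?_ _
    refine (integrable_const ((N : ℝ) ^ s)).mono' hc.aestronglyMeasurable ?_
    refine Eventually.of_forall fun α => ?_
    rw [Real.norm_of_nonneg (Finset.prod_nonneg fun i _ => norm_nonneg _)]
    exact prodS_le _ _ _ _
  rw [← ofReal_integral_eq_lintegral_ofReal hint
    (Eventually.of_forall fun α => mul_nonneg (om_nonneg _ _ _)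
      (Finset.prod_nonneg fun i _ => norm_nonneg _)), integral_const_mul]
  congr 2
  unfold mu gm
  have := integral_fintype_prod_eq_pow (ι := Fin s) (𝕜 := ℝ) (fun a : ℝ => ‖S k N (a * ξ)‖)
    (μ := volume.restrict (Set.Icc A B))
  rw [this, Fintype.card_fin]

/-- The comparison integral as a lower integral. -/
noncomputable def Dl (k N s : ℕ) (κ H : ℝ) (α : Fin s → ℝ) : ENNReal :=
  ∫⁻ ξ : ℝ, ENNReal.ofReal (om κ H ξ * ∏ i, ‖S k N (α i * ξ)‖)

theorem Dl_eq (k N s : ℕ) (κ H : ℝ) (hκ : 0 < κ) (α : Fin s → ℝ) :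
    Dl k N s κ H α = ENNReal.ofReal (D k N κ H α) := by
  unfold Dl D
  rw [← ofReal_integral_eq_lintegral_ofReal (D_integrable k N κ H hκ α)
    (Eventually.of_forall fun ξ => mul_nonneg (om_nonneg _ _ _)
      (Finset.prod_nonneg fun i _ => norm_nonneg _))]

theorem meas_joint (k N s : ℕ) (κ H : ℝ) : Measurable fun p : (Fin s → ℝ) × ℝ =>
    ENNReal.ofReal (om κ H p.2 * ∏ i, ‖S k N (p.1 i * p.2)‖) := by
  refine ENNReal.measurable_ofReal.comp (Continuous.measurable ?_)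
  exact ((om_continuous κ H).comp continuous_snd).mul (prod_cont k N s)

theorem Dl_meas (k N s : ℕ) (κ H : ℝ) : Measurable (Dl k N s κ H) :=
  (meas_joint k N s κ H).lintegral_prod_right'

theorem Dl_int (k N s : ℕ) (κ H A B : ℝ) :
    ∫⁻ α, Dl k N s κ H α ∂(mu s A B) =
      ∫⁻ ξ : ℝ, ENNReal.ofReal (om κ H ξ * (gm k N A B ξ) ^ s) := by
  unfold Dl
  rw [lintegral_lintegral_swap (meas_joint k N s κ H).aemeasurable]
  refine lintegral_congr fun ξ => ?_
  exact inner_eq k N s A B κ H ξ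

theorem lint_lorentz (P x₀ : ℝ) (hP : 0 ≤ P) (hx : 0 < x₀) :
    ∫⁻ ξ : ℝ, ENNReal.ofReal (P / (1 + (ξ / x₀) ^ 2)) = ENNReal.ofReal (P * (Real.pi * x₀)) := by
  have h1 : Integrable fun ξ : ℝ => (1 + ξ ^ 2)⁻¹ := integrable_inv_one_add_sq
  have h2 : Integrable fun ξ : ℝ => (1 + (ξ / x₀) ^ 2)⁻¹ := h1.comp_div hx.ne'
  have h3 : Integrable fun ξ : ℝ => P / (1 + (ξ / x₀) ^ 2) := by
    simpa only [div_eq_mul_inv] using h2.const_mul P
  rw [← ofReal_integral_eq_lintegral_ofReal h3 (Eventually.of_forall fun ξ => by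
    simp only [Pi.zero_apply]; positivity)]
  congr 1
  have h4 : ∫ ξ : ℝ, (1 + (ξ / x₀) ^ 2)⁻¹ = |x₀| * ∫ ξ : ℝ, (1 + ξ ^ 2)⁻¹ := by
    have := Measure.integral_comp_div (fun ξ : ℝ => (1 + ξ ^ 2)⁻¹) x₀
    simpa only [smul_eq_mul] using this
  simp_rw [div_eq_mul_inv P]
  rw [integral_const_mul, h4, integral_univ_inv_one_add_sq, abs_of_pos hx]
  ring

theorem lint_gauss (Q κ : ℝ) (hQ : 0 ≤ Q) (hκ : 0 < κ) :
    ∫⁻ ξ : ℝ, ENNReal.ofReal (Q * Real.exp (-(Real.pi * κ ^ 2 * ξ ^ 2))) =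
      ENNReal.ofReal (Q / κ) := by
  rw [← ofReal_integral_eq_lintegral_ofReal ((integrable_gauss κ hκ).const_mul Q)
    (Eventually.of_forall fun ξ => by simp only [Pi.zero_apply]; positivity)]
  congr 1
  rw [integral_const_mul]
  have h := integral_gaussian (Real.pi * κ ^ 2)
  have e : (fun ξ : ℝ => Real.exp (-(Real.pi * κ ^ 2 * ξ ^ 2))) =
      fun ξ : ℝ => Real.exp (-(Real.pi * κ ^ 2) * ξ ^ 2) := by
    funext ξ; congr 1; ring
  rw [e, h]
  have hpi := Real.pi_pos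
  have e2 : Real.pi / (Real.pi * κ ^ 2) = (1 / κ) ^ 2 := by field_simp
  rw [e2, Real.sqrt_sq (by positivity)]
  ring

/-- The pointwise bound. -/
theorem point_le {k s : ℕ} (hk : 2 ≤ k) (hs : 2 * k ≤ s) {A B C : ℝ} (hAB : A ≤ B) (hC : 0 < C)
    {N : ℕ} (hN : 1 ≤ N) (κ H M₀ : ℝ) (hM₀ : 0 < M₀)
    (hmean : ∀ ξ M : ℝ, 0 < M → |ξ| * M ^ k = 1 →
      gm k N A B ξ ≤ C * (Real.sqrt N + (1 + Real.log N) * M)) (ξ : ℝ) :
    om κ H ξ * (gm k N A B ξ) ^ s ≤
      (2 * (Real.pi * H ^ 2 * (1 / M₀ ^ k) ^ 2 * ((B - A) * N) ^ s) +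
        2 * ((2 * C) ^ s * (1 + Real.log N) ^ s * M₀ ^ s)) / (1 + (ξ / (1 / M₀ ^ k)) ^ 2) +
      (2 * C) ^ s * Real.sqrt N ^ s * Real.exp (-(Real.pi * κ ^ 2 * ξ ^ 2)) := by
  have hg0 := gm_nonneg k N A B ξ
  have hlog : 0 ≤ Real.log N := Real.log_nonneg (by exact_mod_cast hN)
  have hBA : 0 ≤ B - A := by linarith
  set x₀ : ℝ := 1 / M₀ ^ k with hx₀
  have hx : 0 < x₀ := by positivity
  have hden : 0 < 1 + (ξ / x₀) ^ 2 := by positivity
  have hT1 : 0 ≤ Real.pi * H ^ 2 * x₀ ^ 2 * ((B - A) * N) ^ s := by positivity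
  have hT2 : 0 ≤ (2 * C) ^ s * (1 + Real.log N) ^ s * M₀ ^ s := by positivity
  have hT3 : 0 ≤ (2 * C) ^ s * Real.sqrt N ^ s * Real.exp (-(Real.pi * κ ^ 2 * ξ ^ 2)) := by
    positivity
  rw [add_div]
  rcases le_or_gt |ξ| x₀ with hle | hlt
  · -- small frequencies
    have h1 : gm k N A B ξ ^ s ≤ ((B - A) * N) ^ s :=
      pow_le_pow_left₀ hg0 (gm_le k N A B ξ hAB) s
    have h2 : ξ ^ 2 ≤ x₀ ^ 2 := by
      rw [← sq_abs ξ]; exact pow_le_pow_left₀ (abs_nonneg _) hle 2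
    have h3 : om κ H ξ ≤ Real.pi * H ^ 2 * x₀ ^ 2 := by
      refine (om_le' κ H ξ).trans ?_
      have : 0 ≤ Real.pi * H ^ 2 := by positivity
      exact mul_le_mul_of_nonneg_left h2 this
    have h4 : (ξ / x₀) ^ 2 ≤ 1 := by
      rw [div_pow, div_le_one (by positivity)]; exact h2
    have h5 : om κ H ξ * gm k N A B ξ ^ s ≤ Real.pi * H ^ 2 * x₀ ^ 2 * ((B - A) * N) ^ s :=
      mul_le_mul h3 h1 (by positivity) (by positivity)
    have h6 : Real.pi * H ^ 2 * x₀ ^ 2 * ((B - A) * N) ^ s ≤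
        2 * (Real.pi * H ^ 2 * x₀ ^ 2 * ((B - A) * N) ^ s) / (1 + (ξ / x₀) ^ 2) := by
      rw [le_div_iff₀ hden]
      nlinarith
    have h7 : 0 ≤ 2 * ((2 * C) ^ s * (1 + Real.log N) ^ s * M₀ ^ s) / (1 + (ξ / x₀) ^ 2) := by
      positivity
    linarith
  · -- large frequencies
    have hξ0 : 0 < |ξ| := hx.trans hlt
    set M : ℝ := (1 / |ξ|) ^ ((1 : ℝ) / k) with hM
    have hkpos : (0 : ℝ) < k := by exact_mod_cast (by omega : 0 < k)
    have hMpos : 0 < M := Real.rpow_pos_of_pos (by positivity) _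
    have hMk : M ^ k = 1 / |ξ| := by
      rw [hM, ← Real.rpow_natCast, ← Real.rpow_mul (by positivity),
        one_div_mul_cancel hkpos.ne', Real.rpow_one]
    have hMM : M ≤ M₀ := by
      have : M ^ k ≤ M₀ ^ k := by
        rw [hMk]
        rw [div_le_iff₀ hξ0]
        have h8 : x₀ * M₀ ^ k = 1 := by rw [hx₀]; field_simp
        have : 0 < M₀ ^ k := by positivity
        nlinarith
      exact le_of_pow_le_pow_left₀ (by omega) hM₀.le this
    have hb := hmean ξ M hMpos (by rw [hMk]; field_simp)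
    have h1 : gm k N A B ξ ^ s ≤ (C * (Real.sqrt N + (1 + Real.log N) * M)) ^ s :=
      pow_le_pow_left₀ hg0 hb s
    have h2 : (C * (Real.sqrt N + (1 + Real.log N) * M)) ^ s ≤
        (2 * C) ^ s * Real.sqrt N ^ s + (2 * C) ^ s * (1 + Real.log N) ^ s * M ^ s := by
      have hp : 0 ≤ Real.sqrt N := Real.sqrt_nonneg _
      have hr : 0 ≤ (1 + Real.log N) * M := by positivity
      have e1 : (2 * C) ^ s * Real.sqrt N ^ s = (2 * C * Real.sqrt N) ^ s := by
        rw [← mul_pow]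
      have e2 : (2 * C) ^ s * (1 + Real.log N) ^ s * M ^ s =
          (2 * C * ((1 + Real.log N) * M)) ^ s := by
        rw [← mul_pow, ← mul_pow]; ring
      rw [e1, e2]
      rcases le_total (Real.sqrt N) ((1 + Real.log N) * M) with h | h
      · have : (C * (Real.sqrt N + (1 + Real.log N) * M)) ^ s ≤
            (2 * C * ((1 + Real.log N) * M)) ^ s := by
          refine pow_le_pow_left₀ (by positivity) ?_ s
          nlinarith
        have h0 : 0 ≤ (2 * C * Real.sqrt N) ^ s := by positivity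
        linarith
      · have : (C * (Real.sqrt N + (1 + Real.log N) * M)) ^ s ≤
            (2 * C * Real.sqrt N) ^ s := by
          refine pow_le_pow_left₀ (by positivity) ?_ s
          nlinarith
        have h0 : 0 ≤ (2 * C * ((1 + Real.log N) * M)) ^ s := by positivity
        linarith
    have h3 : om κ H ξ ≤ Real.exp (-(Real.pi * κ ^ 2 * ξ ^ 2)) := om_le κ H ξ
    have h3' : Real.exp (-(Real.pi * κ ^ 2 * ξ ^ 2)) ≤ 1 := by
      rw [Real.exp_le_one_iff]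
      have : 0 ≤ Real.pi * κ ^ 2 * ξ ^ 2 := by positivity
      linarith
    -- the power of M
    have h4 : M ^ s ≤ M₀ ^ s * (2 / (1 + (ξ / x₀) ^ 2)) := by
      obtain ⟨e, rfl⟩ : ∃ e, s = 2 * k + e := ⟨s - 2 * k, by omega⟩
      have e1 : M ^ (2 * k + e) = M ^ e * (1 / |ξ|) ^ 2 := by
        rw [pow_add, mul_comm 2 k, pow_mul, hMk]; ring
      have e2 : M₀ ^ (2 * k + e) = M₀ ^ e * (1 / x₀) ^ 2 := by
        rw [pow_add, mul_comm 2 k, pow_mul, hx₀]
        field_simp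
      have e3 : (1 / |ξ|) ^ 2 ≤ (1 / x₀) ^ 2 * (2 / (1 + (ξ / x₀) ^ 2)) := by
        rw [div_pow, div_pow, one_pow, sq_abs, ← mul_div_assoc, le_div_iff₀ hden]
        have hxi2 : 0 < ξ ^ 2 := by rw [← sq_abs]; positivity
        have hle2 : x₀ ^ 2 ≤ ξ ^ 2 := by
          rw [← sq_abs ξ]; exact pow_le_pow_left₀ hx.le hlt.le 2
        rw [div_pow, div_mul_eq_mul_div, one_mul, div_mul_eq_mul_div, one_mul,
          div_le_div_iff₀ hxi2 (by positivity)]
        have : (1 + ξ ^ 2 / x₀ ^ 2) * x₀ ^ 2 = x₀ ^ 2 + ξ ^ 2 := by field_simp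
        rw [this]
        linarith
      rw [e1, e2, mul_assoc]
      exact mul_le_mul (pow_le_pow_left₀ hMpos.le hMM e) e3 (by positivity) (by positivity)
    have h5 : om κ H ξ * gm k N A B ξ ^ s ≤
        om κ H ξ * ((2 * C) ^ s * Real.sqrt N ^ s +
          (2 * C) ^ s * (1 + Real.log N) ^ s * M ^ s) :=
      mul_le_mul_of_nonneg_left (h1.trans h2) (om_nonneg _ _ _)
    have h6 : om κ H ξ * ((2 * C) ^ s * Real.sqrt N ^ s) ≤
        (2 * C) ^ s * Real.sqrt N ^ s * Real.exp (-(Real.pi * κ ^ 2 * ξ ^ 2)) := by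
      rw [mul_comm]
      exact mul_le_mul_of_nonneg_left h3 (by positivity)
    have h7 : om κ H ξ * ((2 * C) ^ s * (1 + Real.log N) ^ s * M ^ s) ≤
        2 * ((2 * C) ^ s * (1 + Real.log N) ^ s * M₀ ^ s) / (1 + (ξ / x₀) ^ 2) := by
      have q1 : om κ H ξ * ((2 * C) ^ s * (1 + Real.log N) ^ s * M ^ s) ≤
          1 * ((2 * C) ^ s * (1 + Real.log N) ^ s * M ^ s) :=
        mul_le_mul_of_nonneg_right (h3.trans h3') (by positivity)
      have q2 : (2 * C) ^ s * (1 + Real.log N) ^ s * M ^ s ≤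
          (2 * C) ^ s * (1 + Real.log N) ^ s * (M₀ ^ s * (2 / (1 + (ξ / x₀) ^ 2))) :=
        mul_le_mul_of_nonneg_left h4 (by positivity)
      have q3 : (2 * C) ^ s * (1 + Real.log N) ^ s * (M₀ ^ s * (2 / (1 + (ξ / x₀) ^ 2))) =
          2 * ((2 * C) ^ s * (1 + Real.log N) ^ s * M₀ ^ s) / (1 + (ξ / x₀) ^ 2) := by ring
      linarith
    have h8 : 0 ≤ 2 * (Real.pi * H ^ 2 * x₀ ^ 2 * ((B - A) * N) ^ s) / (1 + (ξ / x₀) ^ 2) := by
      positivity
    have h9 : om κ H ξ * ((2 * C) ^ s * Real.sqrt N ^ s +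
          (2 * C) ^ s * (1 + Real.log N) ^ s * M ^ s) =
        om κ H ξ * ((2 * C) ^ s * Real.sqrt N ^ s) +
        om κ H ξ * ((2 * C) ^ s * (1 + Real.log N) ^ s * M ^ s) := by ring
    linarith

end Pool.Agent.W5h31.MS
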