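import Pool.Agent.W5h31.MS.F3

/-!
Almost everywhere smallness of the comparison integral along the scales `N = 2^(4kj)`.
-/

namespace Pool.Agent.W5h31.MS

open MeasureTheory Filter Topology

/-- The scales. -/
def NN (k j : ℕ) : ℕ := (2 ^ j) ^ (4 * k)

/-- The smallest width at each scale. -/
noncomputable def kap (k f j : ℕ) : ℝ := 1 / ((2 : ℝ) ^ j) ^ (k * (2 * f + 1))

theorem kap_pos (k f j : ℕ) : 0 < kap k f j := by
  unfold kap; positivity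

theorem NN_cast (k j : ℕ) : ((NN k j : ℕ) : ℝ) = ((2 : ℝ) ^ j) ^ (4 * k) := by
  unfold NN; push_cast; ring

theorem NN_pos (k j : ℕ) : 1 ≤ NN k j := by
  unfold NN; exact Nat.one_le_iff_ne_zero.mpr (by positivity)

theorem one_log (k j : ℕ) (hk : 1 ≤ k) : 1 + Real.log (NN k j) ≤ 4 * k * ((j : ℝ) + 1) := by
  rw [NN_cast, Real.log_pow, Real.log_pow]
  push_cast
  have h2 : Real.log 2 ≤ 1 := by
    have := Real.log_two_lt_d9; linarith
  have hk' : (1 : ℝ) ≤ k := by exact_mod_cast hk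
  have hj : (0 : ℝ) ≤ j := by positivity
  have h3 : (j : ℝ) * Real.log 2 ≤ j := by nlinarith
  have h4 : 4 * (k : ℝ) * ((j : ℝ) * Real.log 2) ≤ 4 * k * j := by
    exact mul_le_mul_of_nonneg_left h3 (by positivity)
  nlinarith

theorem sqrt_NN (k j : ℕ) : Real.sqrt (NN k j) = ((2 : ℝ) ^ j) ^ (2 * k) := by
  rw [NN_cast]
  have : ((2 : ℝ) ^ j) ^ (4 * k) = (((2 : ℝ) ^ j) ^ (2 * k)) ^ 2 := by
    rw [← pow_mul ((2 : ℝ) ^ j)]; congr 1; ring
  rw [this, Real.sqrt_sq (by positivity)]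

theorem comb (a b c d e₁ e₂ e₃ w : ℝ) (h₁ : 2 * a * c ≤ e₁ * w) (h₂ : 2 * b * c ≤ e₂ * w)
    (h₃ : d ≤ e₃ * w) : (2 * a + 2 * b) * c + d ≤ (e₁ + e₂ + e₃) * w := by
  have : (2 * a + 2 * b) * c + d = 2 * a * c + 2 * b * c + d := by ring
  rw [this, add_mul, add_mul]
  linarith

/-- The total of the three contributions. -/
theorem total_le {k f : ℕ} (hk : 2 ≤ k) {A B C : ℝ} (hAB : A ≤ B) (hC : 0 < C) (j : ℕ) :
    (2 * (Real.pi * (((NN k j : ℕ) : ℝ) ^ (k - 1)) ^ 2 *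
        (1 / (((2 : ℝ) ^ j) ^ (4 * k - 2)) ^ k) ^ 2 * ((B - A) * (NN k j : ℕ)) ^ (2 * k + 1 + f)) +
      2 * ((2 * C) ^ (2 * k + 1 + f) * (1 + Real.log (NN k j)) ^ (2 * k + 1 + f) *
        (((2 : ℝ) ^ j) ^ (4 * k - 2)) ^ (2 * k + 1 + f))) *
        (Real.pi * (1 / (((2 : ℝ) ^ j) ^ (4 * k - 2)) ^ k)) +
      (2 * C) ^ (2 * k + 1 + f) * Real.sqrt (NN k j) ^ (2 * k + 1 + f) / kap k f j ≤
    (2 * Real.pi * Real.pi * (B - A) ^ (2 * k + 1 + f) +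
      2 * Real.pi * ((2 * C) ^ (2 * k + 1 + f) * (4 * k) ^ (2 * k + 1 + f)) +
      (2 * C) ^ (2 * k + 1 + f)) *
      (((j : ℝ) + 1) ^ (2 * k + 1 + f) / (2 : ℝ) ^ j * (NN k j : ℝ) ^ (k + 1 + f)) := by
  have hlog := one_log k j (by omega)
  have hlog0 : 0 ≤ 1 + Real.log (NN k j) := by
    have : 0 ≤ Real.log (NN k j) := Real.log_nonneg (by exact_mod_cast NN_pos k j)
    linarith
  have hBA : 0 ≤ B - A := by linarith
  have hpi := Real.pi_pos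
  rw [sqrt_NN, NN_cast]
  unfold kap
  rw [NN_cast] at hlog hlog0
  set q : ℝ := (2 : ℝ) ^ j with hq
  have hq1 : 1 ≤ q := one_le_pow₀ (by norm_num)
  have hq0 : 0 < q := by positivity
  set J : ℝ := ((j : ℝ) + 1) with hJ
  have hJ1 : 1 ≤ J := by
    have : (0 : ℝ) ≤ j := by positivity
    linarith
  obtain ⟨t, rfl⟩ : ∃ t, k = t + 2 := ⟨k - 2, by omega⟩
  have r1 : t + 2 - 1 = t + 1 := by omega
  have r2 : 4 * (t + 2) - 2 = 4 * t + 6 := by omega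
  rw [r1, r2]
  set s : ℕ := 2 * (t + 2) + 1 + f with hs
  set Λ : ℝ := 1 + Real.log (q ^ (4 * (t + 2))) with hΛ
  have hΛs : Λ ^ s ≤ (4 * ((t + 2 : ℕ) : ℝ)) ^ s * J ^ s := by
    rw [← mul_pow]
    exact pow_le_pow_left₀ hlog0 hlog s
  have hJs : 1 ≤ J ^ s := one_le_pow₀ hJ1
  -- first piece
  have p1 : 2 * (Real.pi * ((q ^ (4 * (t + 2))) ^ (t + 1)) ^ 2 *
      (1 / (q ^ (4 * t + 6)) ^ (t + 2)) ^ 2 * ((B - A) * q ^ (4 * (t + 2))) ^ s) *
      (Real.pi * (1 / (q ^ (4 * t + 6)) ^ (t + 2))) ≤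
      2 * Real.pi * Real.pi * (B - A) ^ s * (J ^ s / q * (q ^ (4 * (t + 2))) ^ (t + 2 + 1 + f)) := by
    have e : ((q ^ (4 * (t + 2))) ^ (t + 1)) ^ 2 * (q ^ (4 * (t + 2))) ^ s * q ^ (2 * (t + 2)) =
        (q ^ (4 * (t + 2))) ^ (t + 2 + 1 + f) * ((q ^ (4 * t + 6)) ^ (t + 2)) ^ 3 := by
      rw [hs]
      simp only [← pow_mul, ← pow_add]
      congr 1
      ring
    have e2 : ((q ^ (4 * (t + 2))) ^ (t + 1)) ^ 2 * (q ^ (4 * (t + 2))) ^ s =
        (q ^ (4 * (t + 2))) ^ (t + 2 + 1 + f) * ((q ^ (4 * t + 6)) ^ (t + 2)) ^ 3 /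
          q ^ (2 * (t + 2)) := by
      rw [← e]; field_simp
    have e3 : 2 * (Real.pi * ((q ^ (4 * (t + 2))) ^ (t + 1)) ^ 2 *
      (1 / (q ^ (4 * t + 6)) ^ (t + 2)) ^ 2 * ((B - A) * q ^ (4 * (t + 2))) ^ s) *
      (Real.pi * (1 / (q ^ (4 * t + 6)) ^ (t + 2))) =
      2 * Real.pi * Real.pi * (B - A) ^ s *
        ((((q ^ (4 * (t + 2))) ^ (t + 1)) ^ 2 * (q ^ (4 * (t + 2))) ^ s) /
          ((q ^ (4 * t + 6)) ^ (t + 2)) ^ 3) := by
      rw [mul_pow (B - A)]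
      field_simp
    rw [e3, e2]
    have e4 : (q ^ (4 * (t + 2))) ^ (t + 2 + 1 + f) * ((q ^ (4 * t + 6)) ^ (t + 2)) ^ 3 /
          q ^ (2 * (t + 2)) / ((q ^ (4 * t + 6)) ^ (t + 2)) ^ 3 =
        (q ^ (4 * (t + 2))) ^ (t + 2 + 1 + f) / q ^ (2 * (t + 2)) := by
      field_simp
    rw [e4]
    refine mul_le_mul_of_nonneg_left ?_ (by positivity)
    rw [div_mul_eq_mul_div, div_le_div_iff₀ (by positivity) hq0]
    have h1 : q ≤ q ^ (2 * (t + 2)) := by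
      calc q = q ^ 1 := (pow_one q).symm
        _ ≤ q ^ (2 * (t + 2)) := pow_le_pow_right₀ hq1 (by omega)
    have h2 : 0 < (q ^ (4 * (t + 2))) ^ (t + 2 + 1 + f) := by positivity
    calc (q ^ (4 * (t + 2))) ^ (t + 2 + 1 + f) * q ≤
        (q ^ (4 * (t + 2))) ^ (t + 2 + 1 + f) * q ^ (2 * (t + 2)) :=
          mul_le_mul_of_nonneg_left h1 h2.le
      _ = 1 * ((q ^ (4 * (t + 2))) ^ (t + 2 + 1 + f) * q ^ (2 * (t + 2))) := by ring
      _ ≤ J ^ s * ((q ^ (4 * (t + 2))) ^ (t + 2 + 1 + f) * q ^ (2 * (t + 2))) :=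
          mul_le_mul_of_nonneg_right hJs (by positivity)
      _ = J ^ s * (q ^ (4 * (t + 2))) ^ (t + 2 + 1 + f) * q ^ (2 * (t + 2)) := by ring
  -- second piece
  have p2 : 2 * ((2 * C) ^ s * Λ ^ s * (q ^ (4 * t + 6)) ^ s) *
      (Real.pi * (1 / (q ^ (4 * t + 6)) ^ (t + 2))) ≤
      2 * Real.pi * ((2 * C) ^ s * (4 * ((t + 2 : ℕ) : ℝ)) ^ s) *
        (J ^ s / q * (q ^ (4 * (t + 2))) ^ (t + 2 + 1 + f)) := by
    have e : (q ^ (4 * t + 6)) ^ s * q ^ (2 * (t + 3 + f)) =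
        (q ^ (4 * (t + 2))) ^ (t + 2 + 1 + f) * (q ^ (4 * t + 6)) ^ (t + 2) := by
      rw [hs]
      simp only [← pow_mul, ← pow_add]
      congr 1
      ring
    have e2 : (q ^ (4 * t + 6)) ^ s = (q ^ (4 * (t + 2))) ^ (t + 2 + 1 + f) *
        (q ^ (4 * t + 6)) ^ (t + 2) / q ^ (2 * (t + 3 + f)) := by
      rw [← e]; field_simp
    rw [e2]
    have e3 : 2 * ((2 * C) ^ s * Λ ^ s * ((q ^ (4 * (t + 2))) ^ (t + 2 + 1 + f) *
        (q ^ (4 * t + 6)) ^ (t + 2) / q ^ (2 * (t + 3 + f)))) *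
        (Real.pi * (1 / (q ^ (4 * t + 6)) ^ (t + 2))) =
        2 * Real.pi * (2 * C) ^ s * (Λ ^ s * ((q ^ (4 * (t + 2))) ^ (t + 2 + 1 + f) /
          q ^ (2 * (t + 3 + f)))) := by
      field_simp
    rw [e3]
    have h1 : q ≤ q ^ (2 * (t + 3 + f)) := by
      calc q = q ^ 1 := (pow_one q).symm
        _ ≤ q ^ (2 * (t + 3 + f)) := pow_le_pow_right₀ hq1 (by omega)
    have h2 : (q ^ (4 * (t + 2))) ^ (t + 2 + 1 + f) / q ^ (2 * (t + 3 + f)) ≤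
        (q ^ (4 * (t + 2))) ^ (t + 2 + 1 + f) / q :=
      div_le_div_of_nonneg_left (by positivity) hq0 h1
    calc 2 * Real.pi * (2 * C) ^ s * (Λ ^ s * ((q ^ (4 * (t + 2))) ^ (t + 2 + 1 + f) /
          q ^ (2 * (t + 3 + f)))) ≤
        2 * Real.pi * (2 * C) ^ s * (((4 * ((t + 2 : ℕ) : ℝ)) ^ s * J ^ s) *
          ((q ^ (4 * (t + 2))) ^ (t + 2 + 1 + f) / q)) := by
          refine mul_le_mul_of_nonneg_left ?_ (by positivity)
          exact mul_le_mul hΛs h2 (by positivity) (by positivity)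
      _ = _ := by ring
  -- third piece
  have p3 : (2 * C) ^ s * (q ^ (2 * (t + 2))) ^ s / (1 / q ^ ((t + 2) * (2 * f + 1))) ≤
      (2 * C) ^ s * (J ^ s / q * (q ^ (4 * (t + 2))) ^ (t + 2 + 1 + f)) := by
    have e : (q ^ (2 * (t + 2))) ^ s * q ^ ((t + 2) * (2 * f + 1)) * q ^ (t + 2) =
        (q ^ (4 * (t + 2))) ^ (t + 2 + 1 + f) := by
      rw [hs]
      simp only [← pow_mul, ← pow_add]
      congr 1
      ring
    rw [← e]
    have h1 : q ≤ q ^ (t + 2) := by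
      calc q = q ^ 1 := (pow_one q).symm
        _ ≤ q ^ (t + 2) := pow_le_pow_right₀ hq1 (by omega)
    have e2 : (2 * C) ^ s * (q ^ (2 * (t + 2))) ^ s / (1 / q ^ ((t + 2) * (2 * f + 1))) =
        (2 * C) ^ s * ((q ^ (2 * (t + 2))) ^ s * q ^ ((t + 2) * (2 * f + 1))) := by
      field_simp
    rw [e2]
    refine mul_le_mul_of_nonneg_left ?_ (by positivity)
    set X := (q ^ (2 * (t + 2))) ^ s * q ^ ((t + 2) * (2 * f + 1)) with hX
    have hX0 : 0 < X := by positivity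
    rw [div_mul_eq_mul_div, le_div_iff₀ hq0]
    calc X * q ≤ X * q ^ (t + 2) := mul_le_mul_of_nonneg_left h1 hX0.le
      _ = 1 * (X * q ^ (t + 2)) := by ring
      _ ≤ J ^ s * (X * q ^ (t + 2)) := mul_le_mul_of_nonneg_right hJs (by positivity)
  exact comb _ _ _ _ _ _ _ _ p1 p2 p3

theorem expect_le (hM : S_mean) (k f : ℕ) (hk : 2 ≤ k) (A B : ℝ) (hAB : A < B) :
    ∃ C' : ℝ, 0 ≤ C' ∧ ∀ j : ℕ,
      ∫⁻ α, Dl k (NN k j) (2 * k + 1 + f) (kap k f j) (((NN k j : ℕ) : ℝ) ^ (k - 1)) α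
        ∂(mu (2 * k + 1 + f) A B) ≤
      ENNReal.ofReal (C' * (((j : ℝ) + 1) ^ (2 * k + 1 + f) / (2 : ℝ) ^ j *
        (NN k j : ℝ) ^ (k + 1 + f))) := by
  obtain ⟨C, hC, hmean⟩ := hM k hk A B hAB
  refine ⟨2 * Real.pi * Real.pi * (B - A) ^ (2 * k + 1 + f) +
      2 * Real.pi * ((2 * C) ^ (2 * k + 1 + f) * (4 * k) ^ (2 * k + 1 + f)) +
      (2 * C) ^ (2 * k + 1 + f), ?_, fun j => ?_⟩
  swap
  · rw [Dl_int]
    have hp := point_le (s := 2 * k + 1 + f) hk (by omega) hAB.le hC (NN_pos k j) (kap k f j)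
      (((NN k j : ℕ) : ℝ) ^ (k - 1)) (((2 : ℝ) ^ j) ^ (4 * k - 2)) (by positivity)
      (hmean (NN k j) (NN_pos k j))
    have hlog0 : 0 ≤ 1 + Real.log (NN k j) := by
      have : 0 ≤ Real.log (NN k j) := Real.log_nonneg (by exact_mod_cast NN_pos k j)
      linarith
    have hBA : 0 ≤ B - A := by linarith
    refine (lintegral_mono fun ξ => ENNReal.ofReal_le_ofReal (hp ξ)).trans ?_
    have hP0 : 0 ≤ (2 * (Real.pi * (((NN k j : ℕ) : ℝ) ^ (k - 1)) ^ 2 *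
        (1 / (((2 : ℝ) ^ j) ^ (4 * k - 2)) ^ k) ^ 2 * ((B - A) * (NN k j : ℕ)) ^ (2 * k + 1 + f)) +
      2 * ((2 * C) ^ (2 * k + 1 + f) * (1 + Real.log (NN k j)) ^ (2 * k + 1 + f) *
        (((2 : ℝ) ^ j) ^ (4 * k - 2)) ^ (2 * k + 1 + f))) := by positivity
    have hQ0 : 0 ≤ (2 * C) ^ (2 * k + 1 + f) * Real.sqrt (NN k j) ^ (2 * k + 1 + f) := by
      positivity
    have hsplit : ∀ ξ : ℝ, ENNReal.ofReal
        ((2 * (Real.pi * (((NN k j : ℕ) : ℝ) ^ (k - 1)) ^ 2 *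
          (1 / (((2 : ℝ) ^ j) ^ (4 * k - 2)) ^ k) ^ 2 *
          ((B - A) * (NN k j : ℕ)) ^ (2 * k + 1 + f)) +
        2 * ((2 * C) ^ (2 * k + 1 + f) * (1 + Real.log (NN k j)) ^ (2 * k + 1 + f) *
          (((2 : ℝ) ^ j) ^ (4 * k - 2)) ^ (2 * k + 1 + f))) /
          (1 + (ξ / (1 / (((2 : ℝ) ^ j) ^ (4 * k - 2)) ^ k)) ^ 2) +
        (2 * C) ^ (2 * k + 1 + f) * Real.sqrt (NN k j) ^ (2 * k + 1 + f) *
          Real.exp (-(Real.pi * kap k f j ^ 2 * ξ ^ 2))) =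
        ENNReal.ofReal
        ((2 * (Real.pi * (((NN k j : ℕ) : ℝ) ^ (k - 1)) ^ 2 *
          (1 / (((2 : ℝ) ^ j) ^ (4 * k - 2)) ^ k) ^ 2 *
          ((B - A) * (NN k j : ℕ)) ^ (2 * k + 1 + f)) +
        2 * ((2 * C) ^ (2 * k + 1 + f) * (1 + Real.log (NN k j)) ^ (2 * k + 1 + f) *
          (((2 : ℝ) ^ j) ^ (4 * k - 2)) ^ (2 * k + 1 + f))) /
          (1 + (ξ / (1 / (((2 : ℝ) ^ j) ^ (4 * k - 2)) ^ k)) ^ 2)) +
        ENNReal.ofReal ((2 * C) ^ (2 * k + 1 + f) * Real.sqrt (NN k j) ^ (2 * k + 1 + f) *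
          Real.exp (-(Real.pi * kap k f j ^ 2 * ξ ^ 2))) := by
      intro ξ
      exact ENNReal.ofReal_add (div_nonneg hP0 (by positivity))
        (mul_nonneg hQ0 (Real.exp_pos _).le)
    simp_rw [hsplit]
    rw [lintegral_add_right _ (by fun_prop), lint_lorentz _ _ hP0 (by positivity),
      lint_gauss _ _ hQ0 (kap_pos k f j), ← ENNReal.ofReal_add
        (mul_nonneg hP0 (by positivity)) (div_nonneg hQ0 (kap_pos k f j).le)]
    exact ENNReal.ofReal_le_ofReal (total_le hk hAB.le hC j)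
  · have hBA : 0 ≤ B - A := by linarith
    positivity

theorem summable_scales (s : ℕ) :
    Summable fun j : ℕ => ((j : ℝ) + 1) ^ s / (2 : ℝ) ^ j := by
  have h := summable_pow_mul_geometric_of_norm_lt_one s (r := (1 / 2 : ℝ))
    (by rw [Real.norm_eq_abs, abs_of_pos (by norm_num)]; norm_num)
  have h2 := ((summable_nat_add_iff 1).2 h).mul_left 2
  refine h2.congr fun j => ?_
  push_cast
  rw [pow_succ (1 / 2 : ℝ) j, one_div, inv_pow]
  field_simp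

/-- Almost everywhere the comparison integral is small at all large scales. -/
theorem ae_small (hM : S_mean) (k f : ℕ) (hk : 2 ≤ k) (A B : ℝ) (hAB : A < B) :
    ∀ᵐ α ∂(mu (2 * k + 1 + f) A B),
      Tendsto (fun j => D k (NN k j) (kap k f j) (((NN k j : ℕ) : ℝ) ^ (k - 1)) α /
        (NN k j : ℝ) ^ (k + 1 + f)) atTop (𝓝 0) := by
  obtain ⟨C', hC', hE⟩ := expect_le hM k f hk A B hAB
  set F : ℕ → (Fin (2 * k + 1 + f) → ℝ) → ENNReal := fun j α =>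
    Dl k (NN k j) (2 * k + 1 + f) (kap k f j) (((NN k j : ℕ) : ℝ) ^ (k - 1)) α *
      ENNReal.ofReal (1 / (NN k j : ℝ) ^ (k + 1 + f)) with hF
  have hmeas : ∀ j, Measurable (F j) := fun j => (Dl_meas _ _ _ _ _).mul_const _
  have hNN : ∀ j, 0 < ((NN k j : ℕ) : ℝ) ^ (k + 1 + f) := fun j => by
    have : 0 < NN k j := NN_pos k j
    positivity
  have hint : ∀ j, ∫⁻ α, F j α ∂(mu (2 * k + 1 + f) A B) ≤
      ENNReal.ofReal (C' * (((j : ℝ) + 1) ^ (2 * k + 1 + f) / (2 : ℝ) ^ j)) := by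
    intro j
    rw [hF]
    simp only
    rw [lintegral_mul_const _ (Dl_meas _ _ _ _ _)]
    refine (mul_le_mul_left (hE j) _).trans ?_
    rw [← ENNReal.ofReal_mul (by positivity)]
    refine ENNReal.ofReal_le_ofReal (le_of_eq ?_)
    have := (hNN j).ne'
    field_simp
  have hsum : ∑' j, ∫⁻ α, F j α ∂(mu (2 * k + 1 + f) A B) ≠ ⊤ := by
    refine ne_top_of_le_ne_top ?_ (ENNReal.tsum_le_tsum hint)
    rw [← ENNReal.ofReal_tsum_of_nonneg (fun j => by positivity)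
      ((summable_scales (2 * k + 1 + f)).mul_left C')]
    exact ENNReal.ofReal_ne_top
  have hfin : ∫⁻ α, ∑' j, F j α ∂(mu (2 * k + 1 + f) A B) ≠ ⊤ := by
    rw [lintegral_tsum (fun j => (hmeas j).aemeasurable)]
    exact hsum
  have hae := ae_lt_top (Measurable.tsum hmeas) hfin
  filter_upwards [hae] with α hα
  have ht := ENNReal.tendsto_atTop_zero_of_tsum_ne_top hα.ne
  have ht2 : Tendsto (fun j => (F j α).toReal) atTop (𝓝 0) := by
    have := (ENNReal.tendsto_toReal ENNReal.zero_ne_top).comp ht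
    rw [ENNReal.toReal_zero] at this
    exact this
  refine ht2.congr fun j => ?_
  rw [hF]
  simp only
  rw [Dl_eq _ _ _ _ _ (kap_pos k f j), ENNReal.toReal_mul, ENNReal.toReal_ofReal,
    ENNReal.toReal_ofReal (by have := hNN j; positivity)]
  · ring
  · unfold D
    exact integral_nonneg fun ξ => mul_nonneg (om_nonneg _ _ _)
      (Finset.prod_nonneg fun i _ => norm_nonneg _)

theorem mu_eq (s : ℕ) (A B : ℝ) :
    mu s A B = volume.restrict (Set.pi Set.univ fun _ : Fin s => Set.Icc A B) := by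
  unfold mu
  rw [volume_pi, Measure.restrict_pi_pi]

end Pool.Agent.W5h31.MS
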