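import Mathlib
import Pool.Agent.W5h31.MS.Defs

/-!
Coarse lower bound for the smoothed count (MP_927be3_nt, slot 4, TASK 1).
-/

namespace Pool.Agent.W5h31.MS

open MeasureTheory Finset

lemma pow_succ_sub_le (x : ℝ) (hx : 0 ≤ x) (k : ℕ) :
    (x + 1) ^ (k + 1) - x ^ (k + 1) ≤ (k + 1) * (x + 1) ^ k := by
  induction k with
  | zero => simp
  | succ k ih =>
    have h1 : (x + 1) ^ (k + 1 + 1) - x ^ (k + 1 + 1)
        = (x + 1) * ((x + 1) ^ (k + 1) - x ^ (k + 1)) + x ^ (k + 1) := by ring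
    have h2 : x ^ (k + 1) ≤ (x + 1) ^ (k + 1) := pow_le_pow_left₀ hx (by linarith) _
    have h3 : (x + 1) * ((x + 1) ^ (k + 1) - x ^ (k + 1)) ≤ (x + 1) * ((k + 1) * (x + 1) ^ k) :=
      mul_le_mul_of_nonneg_left ih (by linarith)
    rw [h1]
    push_cast
    calc (x + 1) * ((x + 1) ^ (k + 1) - x ^ (k + 1)) + x ^ (k + 1)
        ≤ (x + 1) * ((k + 1) * (x + 1) ^ k) + (x + 1) ^ (k + 1) := add_le_add h3 h2
      _ = ((k : ℝ) + 1 + 1) * (x + 1) ^ (k + 1) := by ring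

lemma exists_floor (a t : ℝ) (ha : 0 < a) (ht : 0 ≤ t) (k : ℕ) :
    ∃ x : ℕ, a * (x : ℝ) ^ (k + 1) ≤ t ∧ t < a * ((x : ℝ) + 1) ^ (k + 1) := by
  classical
  have hex : ∃ y : ℕ, t < a * ((y : ℝ) + 1) ^ (k + 1) := by
    obtain ⟨y, hy⟩ := exists_nat_gt (t / a)
    refine ⟨y, ?_⟩
    rw [div_lt_iff₀ ha] at hy
    have h1 : (y : ℝ) ≤ ((y : ℝ) + 1) ^ (k + 1) := by
      have h0 : (1 : ℝ) ≤ (y : ℝ) + 1 := by
        have : (0 : ℝ) ≤ y := Nat.cast_nonneg y
        linarith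
      calc (y : ℝ) ≤ (y : ℝ) + 1 := by linarith
        _ ≤ ((y : ℝ) + 1) ^ (k + 1) := le_self_pow₀ h0 (Nat.succ_ne_zero k)
    have h2 : a * (y : ℝ) ≤ a * ((y : ℝ) + 1) ^ (k + 1) := mul_le_mul_of_nonneg_left h1 ha.le
    linarith
  refine ⟨Nat.find hex, ?_, Nat.find_spec hex⟩
  rcases Nat.eq_zero_or_pos (Nat.find hex) with h0 | hpos
  · rw [h0]
    simpa using ht
  · have := Nat.find_min hex (m := Nat.find hex - 1) (by omega)
    rw [not_lt] at this
    have hc : (((Nat.find hex - 1 : ℕ) : ℝ) + 1) = (Nat.find hex : ℝ) := by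
      rw [Nat.cast_sub hpos]
      push_cast
      ring
    rwa [hc] at this

theorem low : S_low := by
  classical
  intro k s hk hs A B c₂ hA hAB hc₂
  obtain ⟨r, rfl⟩ : ∃ r, s = r + 1 := ⟨s - 1, by omega⟩
  obtain ⟨j, rfl⟩ : ∃ j, k = j + 1 := ⟨k - 1, by omega⟩
  have hB : 0 < B := lt_of_lt_of_le hA hAB
  -- the size of the free coordinates
  set ε : ℝ := min 1 (c₂ / (2 * (r + 1) * B)) with hε
  have hr0 : (0 : ℝ) < (r : ℝ) + 1 := by positivity
  have hε0 : 0 < ε := by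
    rw [hε]
    exact lt_min one_pos (by positivity)
  have hε1 : ε ≤ 1 := min_le_left _ _
  have hε2 : (r : ℝ) * (B * ε ^ (j + 1)) ≤ c₂ / 2 := by
    have h1 : ε ^ (j + 1) ≤ ε := pow_le_of_le_one hε0.le hε1 (Nat.succ_ne_zero j)
    have h2 : ε ≤ c₂ / (2 * (r + 1) * B) := min_le_right _ _
    have h3 : ε ^ (j + 1) ≤ c₂ / (2 * (r + 1) * B) := h1.trans h2
    calc (r : ℝ) * (B * ε ^ (j + 1)) ≤ ((r : ℝ) + 1) * (B * (c₂ / (2 * (r + 1) * B))) := by
          apply mul_le_mul (by linarith) _ (by positivity) hr0.le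
          exact mul_le_mul_of_nonneg_left h3 hB.le
      _ = c₂ / 2 := by
          field_simp
  set E0 : ℝ := Real.exp (-(Real.pi * (B * ((j : ℝ) + 1)) ^ 2)) with hE0
  obtain ⟨N₀, hN₀⟩ := exists_nat_gt (2 / ε)
  refine ⟨(ε / 2) ^ r * E0, by positivity, N₀, ?_⟩
  intro N hN α hα u hu1 hu2
  have hNr : 2 / ε < (N : ℝ) := lt_of_lt_of_le hN₀ (by exact_mod_cast hN)
  have hN0 : (0 : ℝ) < N := lt_trans (by positivity) hNr
  have hNe : 2 < ε * N := by
    rw [div_lt_iff₀ hε0] at hNr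
    linarith
  set M : ℕ := ⌊ε * (N : ℝ)⌋₊ with hM
  have hM1 : (M : ℝ) ≤ ε * N := Nat.floor_le (by positivity)
  have hM2 : ε / 2 * N ≤ M := by
    have := Nat.lt_floor_add_one (ε * (N : ℝ))
    rw [← hM] at this
    linarith
  have hMN : M ≤ N := by
    have h1 : (M : ℝ) ≤ N := hM1.trans (by nlinarith)
    exact_mod_cast h1
  set h : ℝ := (N : ℝ) ^ j with hh
  have hhpos : 0 < h := by positivity
  have hj1 : j + 1 - 1 = j := by omega
  -- the good point over every choice of the other coordinates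
  have hgood : ∀ m' : Fin r → ℕ, (∀ i, m' i < M) → ∃ x : ℕ, x < N ∧
      E0 / h ≤ K h (L (j + 1) α (Fin.cons x m') - u) := by
    intro m' hm'
    set R : ℝ := ∑ i : Fin r, α i.succ * (m' i : ℝ) ^ (j + 1) with hR
    have hRle : R ≤ u / 2 := by
      have h1 : R ≤ ∑ _i : Fin r, B * (ε * N) ^ (j + 1) := by
        refine Finset.sum_le_sum fun i _ => ?_
        have hmi : (m' i : ℝ) ≤ ε * N := by
          have : (m' i : ℝ) ≤ M := by exact_mod_cast (hm' i).le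
          exact this.trans hM1
        exact mul_le_mul (hα _).2 (pow_le_pow_left₀ (Nat.cast_nonneg _) hmi _)
          (by positivity) hB.le
      rw [Finset.sum_const, Finset.card_univ, Fintype.card_fin, nsmul_eq_mul] at h1
      calc R ≤ (r : ℝ) * (B * (ε * N) ^ (j + 1)) := h1
        _ = (r : ℝ) * (B * ε ^ (j + 1)) * (N : ℝ) ^ (j + 1) := by rw [mul_pow]; ring
        _ ≤ c₂ / 2 * (N : ℝ) ^ (j + 1) := mul_le_mul_of_nonneg_right hε2 (by positivity)
        _ = (c₂ * (N : ℝ) ^ (j + 1)) / 2 := by ring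
        _ ≤ u / 2 := by linarith
    have hR0 : 0 ≤ R := Finset.sum_nonneg fun i _ =>
      mul_nonneg (hA.le.trans (hα _).1) (by positivity)
    have hu0 : 0 < u := lt_of_lt_of_le (by positivity) hu1
    have ha0 : 0 < α 0 := lt_of_lt_of_le hA (hα 0).1
    obtain ⟨x, hx1, hx2⟩ := exists_floor (α 0) (u - R) ha0 (by linarith) j
    have hxN : x < N := by
      by_contra hcon
      rw [not_lt] at hcon
      have h1 : (N : ℝ) ^ (j + 1) ≤ (x : ℝ) ^ (j + 1) :=
        pow_le_pow_left₀ hN0.le (by exact_mod_cast hcon) _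
      have h2 : A * (N : ℝ) ^ (j + 1) ≤ α 0 * (x : ℝ) ^ (j + 1) :=
        mul_le_mul (hα 0).1 h1 (by positivity) ha0.le
      have h3 : 0 < A * (N : ℝ) ^ (j + 1) := by positivity
      linarith
    refine ⟨x, hxN, ?_⟩
    have hL : L (j + 1) α (Fin.cons x m') - u = α 0 * (x : ℝ) ^ (j + 1) - (u - R) := by
      unfold L
      rw [Fin.sum_univ_succ]
      simp only [Fin.cons_zero, Fin.cons_succ]
      rw [← hR]
      ring
    have hx1N : (x : ℝ) + 1 ≤ N := by exact_mod_cast hxN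
    have habs : |L (j + 1) α (Fin.cons x m') - u| ≤ B * ((j : ℝ) + 1) * h := by
      rw [hL, abs_sub_comm, abs_of_nonneg (by linarith)]
      have h1 := pow_succ_sub_le (x : ℝ) (Nat.cast_nonneg x) j
      have h2 : ((x : ℝ) + 1) ^ j ≤ h := pow_le_pow_left₀ (by positivity) hx1N _
      have h3 : ((j : ℝ) + 1) * ((x : ℝ) + 1) ^ j ≤ ((j : ℝ) + 1) * h :=
        mul_le_mul_of_nonneg_left h2 (by positivity)
      calc u - R - α 0 * (x : ℝ) ^ (j + 1)
          ≤ α 0 * ((x : ℝ) + 1) ^ (j + 1) - α 0 * (x : ℝ) ^ (j + 1) := by linarith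
        _ = α 0 * (((x : ℝ) + 1) ^ (j + 1) - (x : ℝ) ^ (j + 1)) := by ring
        _ ≤ α 0 * (((j : ℝ) + 1) * h) := mul_le_mul_of_nonneg_left (h1.trans h3) ha0.le
        _ ≤ B * (((j : ℝ) + 1) * h) := mul_le_mul_of_nonneg_right (hα 0).2 (by positivity)
        _ = B * ((j : ℝ) + 1) * h := by ring
    unfold K
    refine div_le_div_of_nonneg_right ?_ hhpos.le
    rw [hE0]
    apply Real.exp_le_exp.mpr
    rw [neg_le_neg_iff]
    rw [div_le_iff₀ (by positivity)]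
    have hsq : (L (j + 1) α (Fin.cons x m') - u) ^ 2 ≤ (B * ((j : ℝ) + 1) * h) ^ 2 :=
      sq_le_sq' (by linarith [neg_le_of_abs_le habs]) (le_of_abs_le habs)
    calc Real.pi * (L (j + 1) α (Fin.cons x m') - u) ^ 2
        ≤ Real.pi * (B * ((j : ℝ) + 1) * h) ^ 2 :=
          mul_le_mul_of_nonneg_left hsq Real.pi_pos.le
      _ = Real.pi * (B * ((j : ℝ) + 1)) ^ 2 * h ^ 2 := by ring
  choose! X hX1 hX2 using hgood
  have hKnn : ∀ t : ℝ, 0 ≤ K h t := fun t => by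
    unfold K
    positivity
  set P : Finset (Fin r → ℕ) := Fintype.piFinset (fun _ => range M) with hP
  have hPm : ∀ m' ∈ P, ∀ i, m' i < M := by
    intro m' hm' i
    rw [hP, Fintype.mem_piFinset] at hm'
    exact Finset.mem_range.mp (hm' i)
  have hinj : Function.Injective (fun m' : Fin r → ℕ => (Fin.cons (X m') m' : Fin (r + 1) → ℕ)) := by
    intro m1 m2 h12
    funext i
    have := congrFun h12 i.succ
    simpa using this
  have hsub : P.image (fun m' : Fin r → ℕ => (Fin.cons (X m') m' : Fin (r + 1) → ℕ))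
      ⊆ bx (r + 1) N := by
    intro m hm
    rw [Finset.mem_image] at hm
    obtain ⟨m', hm', rfl⟩ := hm
    unfold bx
    rw [Fintype.mem_piFinset]
    intro i
    refine Fin.cases ?_ (fun i => ?_) i
    · rw [Fin.cons_zero]
      exact Finset.mem_range.mpr (hX1 m' (hPm m' hm'))
    · rw [Fin.cons_succ]
      exact Finset.mem_range.mpr (lt_of_lt_of_le (hPm m' hm' i) hMN)
  have hsum : (P.card : ℝ) * (E0 / h) ≤
      ∑ m ∈ bx (r + 1) N, K h (L (j + 1) α m - u) := by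
    calc (P.card : ℝ) * (E0 / h) = ∑ _m' ∈ P, E0 / h := by
          rw [Finset.sum_const, nsmul_eq_mul]
      _ ≤ ∑ m' ∈ P, K h (L (j + 1) α (Fin.cons (X m') m') - u) :=
          Finset.sum_le_sum fun m' hm' => hX2 m' (hPm m' hm')
      _ = ∑ m ∈ P.image (fun m' : Fin r → ℕ => (Fin.cons (X m') m' : Fin (r + 1) → ℕ)),
            K h (L (j + 1) α m - u) := by
          rw [Finset.sum_image (fun a _ b _ hab => hinj hab)]
      _ ≤ ∑ m ∈ bx (r + 1) N, K h (L (j + 1) α m - u) :=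
          Finset.sum_le_sum_of_subset_of_nonneg hsub fun _ _ _ => hKnn _
  have hcard : (P.card : ℝ) = (M : ℝ) ^ r := by
    rw [hP, Fintype.card_piFinset]
    simp
  rw [hj1, ← hh]
  refine le_trans ?_ hsum
  rw [hcard]
  have hpow : (N : ℝ) ^ (r + 1 - (j + 1)) * h = (N : ℝ) ^ r := by
    rw [hh, ← pow_add]
    congr 1
    omega
  have hMr : (ε / 2) ^ r * (N : ℝ) ^ r ≤ (M : ℝ) ^ r := by
    rw [← mul_pow]
    exact pow_le_pow_left₀ (by positivity) hM2 _
  rw [← mul_div_assoc, le_div_iff₀ hhpos]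
  calc (ε / 2) ^ r * E0 * (N : ℝ) ^ (r + 1 - (j + 1)) * h
      = (ε / 2) ^ r * ((N : ℝ) ^ (r + 1 - (j + 1)) * h) * E0 := by ring
    _ = (ε / 2) ^ r * (N : ℝ) ^ r * E0 := by rw [hpow]
    _ ≤ (M : ℝ) ^ r * E0 := mul_le_mul_of_nonneg_right hMr (Real.exp_pos _).le

end Pool.Agent.W5h31.MS
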