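import Mathlib
import Pool.Agent.W5h31.MS.Defs

/-!
# The first moment of the exponential sum over the coefficient
-/

namespace Pool.Agent.W5h31.MS

open MeasureTheory Finset

theorem ee_re (t : ℝ) : (ee t).re = Real.cos (2 * Real.pi * t) := by
  unfold ee
  rw [show (2 * (Real.pi : ℂ) * t * Complex.I) = ((2 * Real.pi * t : ℝ) : ℂ) * Complex.I by
    push_cast; ring]
  rw [Complex.exp_ofReal_mul_I_re]

theorem ee_mul_conj (s t : ℝ) : ee s * (starRingEnd ℂ) (ee t) = ee (s - t) := by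
  unfold ee
  rw [← Complex.exp_conj, ← Complex.exp_add]
  congr 1
  simp only [map_mul, Complex.conj_ofReal, Complex.conj_I, map_ofNat]
  push_cast
  ring

theorem normSq_S (k N : ℕ) (t : ℝ) : ‖S k N t‖ ^ 2 =
    ∑ x ∈ range N, ∑ y ∈ range N, Real.cos (2 * Real.pi * (t * ((x : ℝ) ^ k - (y : ℝ) ^ k))) := by
  have h1 : S k N t * (starRingEnd ℂ) (S k N t) =
      ∑ x ∈ range N, ∑ y ∈ range N, ee (t * ((x : ℝ) ^ k - (y : ℝ) ^ k)) := by
    unfold S
    rw [map_sum, Finset.sum_mul_sum]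
    refine sum_congr rfl fun x _ => sum_congr rfl fun y _ => ?_
    rw [ee_mul_conj, mul_sub]
  rw [Complex.mul_conj] at h1
  have h2 := congrArg Complex.re h1
  rw [Complex.ofReal_re, Complex.normSq_eq_norm_sq] at h2
  rw [h2, Complex.re_sum]
  refine sum_congr rfl fun x _ => ?_
  rw [Complex.re_sum]
  exact sum_congr rfl fun y _ => ee_re _

/-- the integral of a cosine -/
noncomputable def II (A B d : ℝ) : ℝ := ∫ a in Set.Icc A B, Real.cos (2 * Real.pi * (a * d))

theorem II_le1 {A B : ℝ} (h : A < B) (d : ℝ) : II A B d ≤ B - A := by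
  unfold II
  have h1 : ∫ a in Set.Icc A B, Real.cos (2 * Real.pi * (a * d)) ≤
      ∫ _a in Set.Icc A B, (1 : ℝ) := by
    refine setIntegral_mono ?_ ?_ fun a => Real.cos_le_one _
    · exact (by fun_prop : Continuous fun a : ℝ => Real.cos (2 * Real.pi * (a * d))).integrableOn_Icc
    · exact continuous_const.integrableOn_Icc
  refine h1.trans (le_of_eq ?_)
  rw [setIntegral_const, Measure.real, Real.volume_Icc, ENNReal.toReal_ofReal (by linarith)]
  simp

theorem II_le2 {A B : ℝ} (h : A < B) {d : ℝ} (hd : d ≠ 0) : II A B d ≤ 1 / |d| := by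
  unfold II
  rw [integral_Icc_eq_integral_Ioc, ← intervalIntegral.integral_of_le h.le]
  have hc : 2 * Real.pi * d ≠ 0 := by
    have := Real.pi_pos.ne'
    positivity
  have e1 : ∀ a : ℝ, Real.cos (2 * Real.pi * (a * d)) = Real.cos ((2 * Real.pi * d) * a) := by
    intro a
    congr 1
    ring
  simp_rw [e1]
  rw [intervalIntegral.integral_comp_mul_left (fun x => Real.cos x) hc, integral_cos, smul_eq_mul]
  refine (le_abs_self _).trans ?_
  rw [abs_mul, abs_inv, inv_mul_eq_div, abs_mul, abs_mul, abs_of_pos Real.pi_pos,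
    abs_of_pos (by norm_num : (0 : ℝ) < 2)]
  have h2 : |Real.sin (2 * Real.pi * d * B) - Real.sin (2 * Real.pi * d * A)| ≤ 2 := by
    have h3 := abs_sub (Real.sin (2 * Real.pi * d * B)) (Real.sin (2 * Real.pi * d * A))
    have h4 := Real.abs_sin_le_one (2 * Real.pi * d * B)
    have h5 := Real.abs_sin_le_one (2 * Real.pi * d * A)
    linarith
  have hd' : 0 < |d| := abs_pos.2 hd
  rw [div_le_div_iff₀ (by positivity) hd']
  have h6 : 1 ≤ Real.pi := by linarith [Real.pi_gt_three]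
  nlinarith

/-- the term for `y < x` -/
theorem II_pair {A B : ℝ} (h : A < B) {k : ℕ} (hk : 2 ≤ k) {ξ M : ℝ} (hM : 0 < M)
    (hξ : |ξ| * M ^ k = 1) {x y : ℕ} (hxy : y < x) :
    II A B (ξ * ((x : ℝ) ^ k - (y : ℝ) ^ k)) ≤
      max (B - A) 1 * min 1 (M ^ k / (((x - y : ℕ) : ℝ) * (x : ℝ) ^ (k - 1))) := by
  obtain ⟨j, rfl⟩ : ∃ j, k = j + 1 := ⟨k - 1, by omega⟩
  rw [Nat.add_sub_cancel]
  have hx : (0 : ℝ) < x := by exact_mod_cast (by omega : 0 < x)
  have hy : (0 : ℝ) ≤ y := by positivity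
  have hxy' : (y : ℝ) < x := by exact_mod_cast hxy
  have hsub : ((x - y : ℕ) : ℝ) = (x : ℝ) - y := by
    rw [Nat.cast_sub hxy.le]
  have hdif : ((x : ℝ) - y) * (x : ℝ) ^ j ≤ (x : ℝ) ^ (j + 1) - (y : ℝ) ^ (j + 1) := by
    have h1 : (y : ℝ) ^ j ≤ (x : ℝ) ^ j := pow_le_pow_left₀ hy hxy'.le j
    rw [pow_succ, pow_succ]
    nlinarith
  have hpos : 0 < ((x : ℝ) - y) * (x : ℝ) ^ j := mul_pos (by linarith) (by positivity)
  have hMk : 0 < M ^ (j + 1) := by positivity
  have hξ0 : 0 < |ξ| := by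
    rcases (abs_nonneg ξ).lt_or_eq with h0 | h0
    · exact h0
    · rw [← h0, zero_mul] at hξ
      exact absurd hξ zero_ne_one
  have hξ' : 1 / |ξ| = M ^ (j + 1) := by
    field_simp
    linarith
  have hmax : 0 < max (B - A) 1 := lt_max_of_lt_right one_pos
  rw [mul_min_of_nonneg _ _ hmax.le, mul_one]
  refine le_min ((II_le1 h _).trans (le_max_left _ _)) ?_
  have hD : 0 < (x : ℝ) ^ (j + 1) - (y : ℝ) ^ (j + 1) := hpos.trans_le hdif
  have hne : ξ * ((x : ℝ) ^ (j + 1) - (y : ℝ) ^ (j + 1)) ≠ 0 :=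
    mul_ne_zero (abs_pos.1 hξ0) hD.ne'
  refine (II_le2 h hne).trans ?_
  rw [abs_mul, abs_of_pos hD, ← one_div_mul_one_div, hξ', hsub]
  have h2 : M ^ (j + 1) * (1 / ((x : ℝ) ^ (j + 1) - (y : ℝ) ^ (j + 1))) ≤
      M ^ (j + 1) / (((x : ℝ) - y) * (x : ℝ) ^ j) := by
    rw [mul_one_div]
    exact div_le_div_of_nonneg_left hMk.le hpos hdif
  refine h2.trans (le_mul_of_one_le_left (by positivity) (le_max_right _ _))

theorem harm_real (n : ℕ) : ∑ i ∈ range n, (((i + 1 : ℕ) : ℝ))⁻¹ ≤ 1 + Real.log n := by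
  have h1 := harmonic_le_one_add_log n
  unfold harmonic at h1
  push_cast at h1 ⊢
  exact h1

/-- the sum over `y < x` -/
theorem inner_sum {k : ℕ} (hk : 2 ≤ k) {M : ℝ} (hM : 0 < M) {x N : ℕ} (hx : 1 ≤ x) (hxN : x ≤ N) :
    ∑ y ∈ range x, min 1 (M ^ k / (((x - y : ℕ) : ℝ) * (x : ℝ) ^ (k - 1))) ≤
      (1 + Real.log N) * M ^ 2 * (x : ℝ)⁻¹ := by
  have hx0 : (0 : ℝ) < x := by exact_mod_cast hx
  have hN1 : (1 : ℝ) ≤ N := by exact_mod_cast hx.trans hxN
  have hlog : 0 ≤ Real.log N := Real.log_nonneg hN1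
  rcases le_or_gt (x : ℝ) M with hxM | hxM
  · calc ∑ y ∈ range x, min 1 (M ^ k / (((x - y : ℕ) : ℝ) * (x : ℝ) ^ (k - 1)))
        ≤ ∑ _y ∈ range x, (1 : ℝ) := sum_le_sum fun y _ => min_le_left _ _
      _ = x := by simp
      _ ≤ 1 * M ^ 2 * (x : ℝ)⁻¹ := by
          rw [one_mul, ← div_eq_mul_inv, le_div_iff₀ hx0]
          nlinarith
      _ ≤ _ := by
          have : 0 ≤ M ^ 2 * (x : ℝ)⁻¹ := by positivity
          nlinarith
  · obtain ⟨j, rfl⟩ : ∃ j, k = j + 2 := ⟨k - 2, by omega⟩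
    have e0 : j + 2 - 1 = j + 1 := by omega
    rw [e0]
    have h1 : M ^ (j + 2) / (x : ℝ) ^ (j + 1) ≤ M ^ 2 * (x : ℝ)⁻¹ := by
      rw [← div_eq_mul_inv, div_le_div_iff₀ (by positivity) hx0]
      have h2 : M ^ j ≤ (x : ℝ) ^ j := pow_le_pow_left₀ hM.le hxM.le j
      calc M ^ (j + 2) * x = M ^ 2 * x * M ^ j := by ring
        _ ≤ M ^ 2 * x * (x : ℝ) ^ j := mul_le_mul_of_nonneg_left h2 (by positivity)
        _ = M ^ 2 * (x : ℝ) ^ (j + 1) := by ring
    have h3 : ∑ y ∈ range x, (((x - y : ℕ) : ℝ))⁻¹ ≤ 1 + Real.log N := by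
      have h4 := Finset.sum_range_reflect (fun i : ℕ => (((i + 1 : ℕ) : ℝ))⁻¹) x
      have h5 : ∀ y ∈ range x, (((x - 1 - y + 1 : ℕ) : ℝ))⁻¹ = (((x - y : ℕ) : ℝ))⁻¹ := by
        intro y hy
        rw [mem_range] at hy
        congr 2
        omega
      rw [sum_congr rfl h5] at h4
      rw [h4]
      refine (harm_real x).trans ?_
      have := Real.log_le_log hx0 (by exact_mod_cast hxN : (x : ℝ) ≤ N)
      linarith
    calc ∑ y ∈ range x, min 1 (M ^ (j + 2) / (((x - y : ℕ) : ℝ) * (x : ℝ) ^ (j + 1)))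
        ≤ ∑ y ∈ range x, (M ^ (j + 2) / (x : ℝ) ^ (j + 1)) * (((x - y : ℕ) : ℝ))⁻¹ := by
          refine sum_le_sum fun y _ => (min_le_right _ _).trans (le_of_eq ?_)
          rw [mul_comm (((x - y : ℕ) : ℝ)), ← div_div, div_eq_mul_inv _ (((x - y : ℕ) : ℝ))]
      _ = (M ^ (j + 2) / (x : ℝ) ^ (j + 1)) * ∑ y ∈ range x, (((x - y : ℕ) : ℝ))⁻¹ := by
          rw [Finset.mul_sum]
      _ ≤ (M ^ 2 * (x : ℝ)⁻¹) * (1 + Real.log N) :=
          mul_le_mul h1 h3 (sum_nonneg fun _ _ => by positivity) (by positivity)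
      _ = _ := by ring

/-- the second moment -/
theorem second_moment {k : ℕ} (hk : 2 ≤ k) {A B : ℝ} (h : A < B) {N : ℕ} (hN : 1 ≤ N) {ξ M : ℝ}
    (hM : 0 < M) (hξ : |ξ| * M ^ k = 1) :
    ∫ a in Set.Icc A B, ‖S k N (a * ξ)‖ ^ 2 ≤
      2 * max (B - A) 1 * ((N : ℝ) + ((1 + Real.log N) * M) ^ 2) := by
  set c : ℝ := max (B - A) 1 with hc
  have hc0 : 0 < c := lt_max_of_lt_right one_pos
  have hN1 : (1 : ℝ) ≤ N := by exact_mod_cast hN
  have hlog : 0 ≤ Real.log N := Real.log_nonneg hN1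
  set g : ℕ → ℕ → ℝ := fun x y => c * min 1 (M ^ k / (((x - y : ℕ) : ℝ) * (x : ℝ) ^ (k - 1)))
    with hg
  have h1 : ∫ a in Set.Icc A B, ‖S k N (a * ξ)‖ ^ 2 =
      ∑ x ∈ range N, ∑ y ∈ range N, II A B (ξ * ((x : ℝ) ^ k - (y : ℝ) ^ k)) := by
    simp_rw [normSq_S]
    rw [integral_finset_sum]
    · refine sum_congr rfl fun x _ => ?_
      rw [integral_finset_sum]
      · refine sum_congr rfl fun y _ => ?_
        unfold II
        simp_rw [mul_assoc]
      · intro y _
        exact (by fun_prop : Continuous fun a : ℝ =>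
          Real.cos (2 * Real.pi * (a * ξ * ((x : ℝ) ^ k - (y : ℝ) ^ k)))).integrableOn_Icc
    · intro x _
      exact (by fun_prop : Continuous fun a : ℝ => ∑ y ∈ range N,
        Real.cos (2 * Real.pi * (a * ξ * ((x : ℝ) ^ k - (y : ℝ) ^ k)))).integrableOn_Icc
  have hsymm : ∀ x y : ℕ, II A B (ξ * ((x : ℝ) ^ k - (y : ℝ) ^ k)) =
      II A B (ξ * ((y : ℝ) ^ k - (x : ℝ) ^ k)) := by
    intro x y
    unfold II
    congr 1
    funext a
    rw [← Real.cos_neg]
    congr 1
    ring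
  have h2 : ∀ x y : ℕ, II A B (ξ * ((x : ℝ) ^ k - (y : ℝ) ^ k)) ≤
      (if x = y then c else 0) + (if y < x then g x y else 0) + (if x < y then g y x else 0) := by
    intro x y
    rcases lt_trichotomy x y with hxy | hxy | hxy
    · rw [if_neg hxy.ne, if_neg hxy.le.not_gt, if_pos hxy, zero_add, zero_add, hsymm]
      exact II_pair h hk hM hξ hxy
    · rw [if_pos hxy, hxy, if_neg (lt_irrefl y), add_zero, add_zero]
      exact (II_le1 h _).trans (le_max_left _ _)
    · rw [if_neg hxy.ne', if_pos hxy, if_neg hxy.le.not_gt, zero_add, add_zero]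
      exact II_pair h hk hM hξ hxy
  have hdiag : ∑ x ∈ range N, ∑ y ∈ range N, (if x = y then c else 0) = c * N := by
    have : ∀ x ∈ range N, ∑ y ∈ range N, (if x = y then c else 0) = c := by
      intro x hx
      rw [Finset.sum_ite_eq, if_pos hx]
    rw [sum_congr rfl this]
    simp [mul_comm]
  have hlow : ∑ x ∈ range N, ∑ y ∈ range N, (if y < x then g x y else 0) ≤
      c * ((1 + Real.log N) * M) ^ 2 := by
    have h3 : ∀ x ∈ range N, ∑ y ∈ range N, (if y < x then g x y else 0) ≤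
        c * ((1 + Real.log N) * M ^ 2 * (x : ℝ)⁻¹) := by
      intro x hx
      rw [mem_range] at hx
      have h4 : ∑ y ∈ range N, (if y < x then g x y else 0) = ∑ y ∈ range x, g x y := by
        rw [← Finset.sum_subset (Finset.range_subset_range.2 hx.le)]
        · refine sum_congr rfl fun y hy => ?_
          rw [if_pos (mem_range.1 hy)]
        · intro y _ hy
          rw [if_neg (fun h0 => hy (mem_range.2 h0))]
      rw [h4]
      rcases Nat.eq_zero_or_pos x with hx0 | hx0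
      · rw [hx0]
        simp
      · rw [hg]
        simp only
        rw [← Finset.mul_sum]
        exact mul_le_mul_of_nonneg_left (inner_sum hk hM hx0 hx.le) hc0.le
    refine (sum_le_sum h3).trans ?_
    rw [← Finset.mul_sum, ← Finset.mul_sum]
    refine mul_le_mul_of_nonneg_left ?_ hc0.le
    have h5 : ∑ x ∈ range N, ((x : ℝ))⁻¹ ≤ 1 + Real.log N := by
      obtain ⟨n, rfl⟩ : ∃ n, N = n + 1 := ⟨N - 1, by omega⟩
      rw [Finset.sum_range_succ', Nat.cast_zero, inv_zero, add_zero]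
      refine (harm_real n).trans ?_
      rcases Nat.eq_zero_or_pos n with hn | hn
      · rw [hn]
        simp
      · have := Real.log_le_log (by exact_mod_cast hn : (0 : ℝ) < n)
          (by push_cast; linarith : (n : ℝ) ≤ ((n + 1 : ℕ) : ℝ))
        linarith
    calc (1 + Real.log N) * M ^ 2 * ∑ x ∈ range N, ((x : ℝ))⁻¹
        ≤ (1 + Real.log N) * M ^ 2 * (1 + Real.log N) :=
          mul_le_mul_of_nonneg_left h5 (by positivity)
      _ = _ := by ring
  have hup : ∑ x ∈ range N, ∑ y ∈ range N, (if x < y then g y x else 0) ≤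
      c * ((1 + Real.log N) * M) ^ 2 := by
    rw [Finset.sum_comm]
    exact hlow
  rw [h1]
  calc ∑ x ∈ range N, ∑ y ∈ range N, II A B (ξ * ((x : ℝ) ^ k - (y : ℝ) ^ k))
      ≤ ∑ x ∈ range N, ∑ y ∈ range N, ((if x = y then c else 0) + (if y < x then g x y else 0) +
          (if x < y then g y x else 0)) := sum_le_sum fun x _ => sum_le_sum fun y _ => h2 x y
    _ = (∑ x ∈ range N, ∑ y ∈ range N, (if x = y then c else 0)) +
        (∑ x ∈ range N, ∑ y ∈ range N, (if y < x then g x y else 0)) +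
        ∑ x ∈ range N, ∑ y ∈ range N, (if x < y then g y x else 0) := by
          simp only [Finset.sum_add_distrib]
    _ ≤ c * N + c * ((1 + Real.log N) * M) ^ 2 + c * ((1 + Real.log N) * M) ^ 2 := by
          rw [hdiag]
          linarith
    _ ≤ _ := by
          have : 0 ≤ c * N := by positivity
          nlinarith

theorem continuous_S (k N : ℕ) : Continuous (S k N) := by
  unfold S ee
  fun_prop

/-- **The first moment.** -/
theorem mean : S_mean := by
  intro k hk A B hAB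
  refine ⟨2 * max (B - A) 1, by positivity, fun N hN ξ M hM hξ => ?_⟩
  set c : ℝ := max (B - A) 1 with hc
  have hc0 : 0 < c := lt_max_of_lt_right one_pos
  have hN1 : (1 : ℝ) ≤ N := by exact_mod_cast hN
  have hlog : 0 ≤ Real.log N := Real.log_nonneg hN1
  set t : ℝ := Real.sqrt N + (1 + Real.log N) * M with ht
  have hsq : 1 ≤ Real.sqrt N := Real.one_le_sqrt.2 hN1
  have ht0 : 0 < t := by
    have : 0 ≤ (1 + Real.log N) * M := by positivity
    linarith
  have h2 := second_moment hk hAB hN hM hξ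
  have ht2 : (N : ℝ) + ((1 + Real.log N) * M) ^ 2 ≤ t ^ 2 := by
    have h3 : Real.sqrt N ^ 2 = N := Real.sq_sqrt (by linarith)
    have h4 : 0 ≤ Real.sqrt N * ((1 + Real.log N) * M) := by positivity
    rw [ht]
    nlinarith
  have hcont : Continuous fun a : ℝ => S k N (a * ξ) := (continuous_S k N).comp (by fun_prop)
  have h5 : ∫ a in Set.Icc A B, ‖S k N (a * ξ)‖ ≤
      ∫ a in Set.Icc A B, ((1 / (2 * t)) * ‖S k N (a * ξ)‖ ^ 2 + t / 2) := by
    refine setIntegral_mono ?_ ?_ fun a => ?_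
    · exact hcont.norm.integrableOn_Icc
    · exact (((hcont.norm.pow 2).const_mul _).add continuous_const).integrableOn_Icc
    · have h6 : 0 ≤ (‖S k N (a * ξ)‖ - t) ^ 2 := sq_nonneg _
      have h7 : (1 / (2 * t)) * ‖S k N (a * ξ)‖ ^ 2 + t / 2 - ‖S k N (a * ξ)‖ =
          (1 / (2 * t)) * (‖S k N (a * ξ)‖ - t) ^ 2 := by
        field_simp
        ring
      have h8 : 0 ≤ (1 / (2 * t)) * (‖S k N (a * ξ)‖ - t) ^ 2 := by positivity
      simp only
      linarith
  refine h5.trans ?_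
  rw [integral_add, integral_const_mul, setIntegral_const, Measure.real, Real.volume_Icc,
    ENNReal.toReal_ofReal (by linarith), smul_eq_mul]
  · have h9 : (1 / (2 * t)) * ∫ a in Set.Icc A B, ‖S k N (a * ξ)‖ ^ 2 ≤ c * t := by
      calc (1 / (2 * t)) * ∫ a in Set.Icc A B, ‖S k N (a * ξ)‖ ^ 2
          ≤ (1 / (2 * t)) * (2 * c * t ^ 2) := by
            refine mul_le_mul_of_nonneg_left (h2.trans ?_) (by positivity)
            exact mul_le_mul_of_nonneg_left ht2 (by positivity)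
        _ = c * t := by
            field_simp
    have h10 : B - A ≤ c := le_max_left _ _
    have h11 : (B - A) * (t / 2) ≤ c * t := by nlinarith
    linarith
  · exact ((hcont.norm.pow 2).const_mul _).integrableOn_Icc
  · exact continuous_const.integrableOn_Icc

end Pool.Agent.W5h31.MS
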