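import Pool.Agent.W5h31.MS.Defs

/-!
# TASK 2: the coarse upper bound
-/

set_option autoImplicit false

namespace Pool.Agent.W5h31.MS

open Finset

theorem K_nonneg {h : ℝ} (hh : 0 ≤ h) (t : ℝ) : 0 ≤ K h t := by
  unfold K
  positivity

/-- sums of Gaussians over separated points -/
theorem sep_sum (δ : ℝ) (hδ : 0 < δ) : ∃ C : ℝ, 0 < C ∧ ∀ (X : Finset ℕ) (p : ℕ → ℝ),
    (∀ x ∈ X, ∀ y ∈ X, δ * |(x : ℝ) - y| ≤ |p x - p y|) → ∀ t : ℝ,
      ∑ x ∈ X, Real.exp (-(Real.pi * (p x - t) ^ 2)) ≤ C := by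
  set r : ℝ := Real.exp (-(Real.pi * (δ / 2) ^ 2)) with hr
  have hr0 : 0 < r := Real.exp_pos _
  have hpi := Real.pi_pos
  have hr1 : r < 1 := by
    rw [hr, Real.exp_lt_one_iff]
    have : 0 < Real.pi * (δ / 2) ^ 2 := by positivity
    linarith
  have hsum : Summable (fun n : ℤ => r ^ n.natAbs) := by
    apply Summable.of_nat_of_neg
    · simpa using summable_geometric_of_lt_one hr0.le hr1
    · simpa using summable_geometric_of_lt_one hr0.le hr1
  have hnn : 0 ≤ ∑' n : ℤ, r ^ n.natAbs := tsum_nonneg fun n => by positivity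
  refine ⟨∑' n : ℤ, r ^ n.natAbs + 1, by linarith, ?_⟩
  intro X p hp t
  rcases X.eq_empty_or_nonempty with rfl | hX
  · rw [Finset.sum_empty]
    linarith
  obtain ⟨x0, hx0, hmin⟩ := X.exists_min_image (fun x => |p x - t|) hX
  have key : ∀ x ∈ X, Real.exp (-(Real.pi * (p x - t) ^ 2)) ≤ r ^ ((x : ℤ) - x0).natAbs := by
    intro x hx
    have h1 : |p x - p x0| ≤ 2 * |p x - t| := by
      have h2 := hmin x hx
      have h3 : |p x - p x0| ≤ |p x - t| + |t - p x0| := abs_sub_le _ _ _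
      rw [abs_sub_comm t] at h3
      linarith
    have h2 := hp x hx x0 hx0
    have h3 : δ / 2 * |(x : ℝ) - x0| ≤ |p x - t| := by linarith
    have h4 : (((x : ℤ) - x0).natAbs : ℝ) = |(x : ℝ) - x0| := by
      rw [Nat.cast_natAbs]
      push_cast
      rfl
    have h5 : (((x : ℤ) - x0).natAbs : ℝ) ≤ (((x : ℤ) - x0).natAbs : ℝ) ^ 2 := by
      exact_mod_cast Nat.le_self_pow (by norm_num) _
    rw [hr, ← Real.exp_nat_mul]
    apply Real.exp_le_exp.2
    have h6 : (δ / 2) ^ 2 * (((x : ℤ) - x0).natAbs : ℝ) ≤ (p x - t) ^ 2 := by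
      calc (δ / 2) ^ 2 * (((x : ℤ) - x0).natAbs : ℝ)
          ≤ (δ / 2) ^ 2 * (((x : ℤ) - x0).natAbs : ℝ) ^ 2 :=
            mul_le_mul_of_nonneg_left h5 (by positivity)
        _ = (δ / 2 * |(x : ℝ) - x0|) ^ 2 := by rw [h4]; ring
        _ ≤ |p x - t| ^ 2 := by
            apply pow_le_pow_left₀ (by positivity) h3
        _ = (p x - t) ^ 2 := sq_abs _
    have h7 := mul_le_mul_of_nonneg_left h6 hpi.le
    nlinarith
  calc ∑ x ∈ X, Real.exp (-(Real.pi * (p x - t) ^ 2))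
      ≤ ∑ x ∈ X, r ^ ((x : ℤ) - x0).natAbs := Finset.sum_le_sum key
    _ = ∑ n ∈ X.image (fun x : ℕ => (x : ℤ) - x0), r ^ n.natAbs := by
        rw [Finset.sum_image]
        intro x _ y _ h
        simp only at h
        omega
    _ ≤ ∑' n : ℤ, r ^ n.natAbs := hsum.sum_le_tsum _ (fun n _ => by positivity)
    _ ≤ _ := by linarith

/-- the sum over one coordinate -/
theorem fib_sum (k : ℕ) (hk : 2 ≤ k) (A c' : ℝ) (hA : 0 < A) (hc : 0 < c') : ∃ C : ℝ, 0 < C ∧
    ∀ N : ℕ, 1 ≤ N → ∀ a : ℝ, A ≤ a → ∀ X : Finset ℕ,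
      (∀ x ∈ X, x < N ∧ c' * (N : ℝ) ^ k ≤ (x : ℝ) ^ k) →
      ∀ t : ℝ, ∑ x ∈ X, K ((N : ℝ) ^ (k - 1)) (a * (x : ℝ) ^ k - t) ≤ C / (N : ℝ) ^ (k - 1) := by
  obtain ⟨C, hC, h⟩ := sep_sum (A * c') (by positivity)
  refine ⟨C, hC, ?_⟩
  intro N hN a ha X hX t
  have hN0 : (0 : ℝ) < N := by exact_mod_cast hN
  have hh : (0 : ℝ) < (N : ℝ) ^ (k - 1) := by positivity
  obtain ⟨j, rfl⟩ : ∃ j, k = j + 1 := ⟨k - 1, by omega⟩
  simp only [Nat.add_sub_cancel] at hh ⊢
  have hsep : ∀ x ∈ X, ∀ y ∈ X, (y : ℝ) ≤ x → A * c' * ((x : ℝ) - y) ≤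
      a * (x : ℝ) ^ (j + 1) / (N : ℝ) ^ j - a * (y : ℝ) ^ (j + 1) / (N : ℝ) ^ j := by
    intro x hx y hy hyx
    obtain ⟨hxN, hxc⟩ := hX x hx
    have hx0 : (0 : ℝ) < x := by
      rcases Nat.eq_zero_or_pos x with h0 | h0
      · subst h0
        have : (0 : ℝ) < c' * (N : ℝ) ^ (j + 1) := by positivity
        rw [Nat.cast_zero, zero_pow (by omega)] at hxc
        linarith
      · exact_mod_cast h0
    have hy0 : (0 : ℝ) ≤ y := Nat.cast_nonneg y
    have hxN' : (x : ℝ) ≤ N := by exact_mod_cast hxN.le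
    have h1 : c' * (N : ℝ) ^ j ≤ (x : ℝ) ^ j := by
      by_contra hcon
      push Not at hcon
      have h2 : (x : ℝ) ^ (j + 1) < c' * (N : ℝ) ^ (j + 1) := by
        calc (x : ℝ) ^ (j + 1) = (x : ℝ) ^ j * x := pow_succ _ _
          _ < c' * (N : ℝ) ^ j * x := mul_lt_mul_of_pos_right hcon hx0
          _ ≤ c' * (N : ℝ) ^ j * N := mul_le_mul_of_nonneg_left hxN' (by positivity)
          _ = c' * (N : ℝ) ^ (j + 1) := by ring
      linarith
    have h3 : (y : ℝ) ^ (j + 1) ≤ (x : ℝ) ^ j * y := by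
      rw [pow_succ]
      exact mul_le_mul_of_nonneg_right (pow_le_pow_left₀ hy0 hyx j) hy0
    have h4 : (x : ℝ) ^ j * ((x : ℝ) - y) ≤ (x : ℝ) ^ (j + 1) - (y : ℝ) ^ (j + 1) := by
      rw [pow_succ (x : ℝ)]
      linarith
    have h5 : 0 ≤ (x : ℝ) - y := by linarith
    have h6 : c' * (N : ℝ) ^ j * ((x : ℝ) - y) ≤ (x : ℝ) ^ (j + 1) - (y : ℝ) ^ (j + 1) :=
      (mul_le_mul_of_nonneg_right h1 h5).trans h4
    rw [← sub_div, le_div_iff₀ hh, ← mul_sub]
    have h7 : 0 ≤ (x : ℝ) ^ (j + 1) - (y : ℝ) ^ (j + 1) :=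
      le_trans (by positivity) h6
    calc A * c' * ((x : ℝ) - y) * (N : ℝ) ^ j = A * (c' * (N : ℝ) ^ j * ((x : ℝ) - y)) := by ring
      _ ≤ A * ((x : ℝ) ^ (j + 1) - (y : ℝ) ^ (j + 1)) := mul_le_mul_of_nonneg_left h6 hA.le
      _ ≤ a * ((x : ℝ) ^ (j + 1) - (y : ℝ) ^ (j + 1)) := mul_le_mul_of_nonneg_right ha h7
  have hsep' : ∀ x ∈ X, ∀ y ∈ X, A * c' * |(x : ℝ) - y| ≤
      |a * (x : ℝ) ^ (j + 1) / (N : ℝ) ^ j - a * (y : ℝ) ^ (j + 1) / (N : ℝ) ^ j| := by
    intro x hx y hy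
    rcases le_total (y : ℝ) x with hyx | hxy
    · rw [abs_of_nonneg (by linarith : 0 ≤ (x : ℝ) - y)]
      exact (hsep x hx y hy hyx).trans (le_abs_self _)
    · rw [abs_sub_comm, abs_of_nonneg (by linarith : 0 ≤ (y : ℝ) - x), abs_sub_comm]
      exact (hsep y hy x hx hxy).trans (le_abs_self _)
  have h1 := h X (fun x => a * (x : ℝ) ^ (j + 1) / (N : ℝ) ^ j) hsep' (t / (N : ℝ) ^ j)
  have h2 : ∑ x ∈ X, K ((N : ℝ) ^ j) (a * (x : ℝ) ^ (j + 1) - t) =
      (∑ x ∈ X, Real.exp (-(Real.pi * (a * (x : ℝ) ^ (j + 1) / (N : ℝ) ^ j - t / (N : ℝ) ^ j) ^ 2))) /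
        (N : ℝ) ^ j := by
    rw [Finset.sum_div]
    refine Finset.sum_congr rfl fun x _ => ?_
    unfold K
    congr 3
    rw [← sub_div, div_pow, mul_div_assoc]
  rw [h2]
  exact div_le_div_of_nonneg_right h1 hh.le

theorem card_bx (s N : ℕ) : (bx s N).card = N ^ s := by
  unfold bx
  rw [Fintype.card_piFinset]
  simp

theorem L_update {k s : ℕ} (hk : 2 ≤ k) (α : Fin s → ℝ) (m : Fin s → ℕ) (i : Fin s) :
    L k α m = α i * (m i : ℝ) ^ k + L k α (Function.update m i 0) := by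
  unfold L
  rw [← Finset.add_sum_erase _ _ (Finset.mem_univ i), ← Finset.add_sum_erase (f := fun j => α j *
    ((Function.update m i 0 j : ℕ) : ℝ) ^ k) _ (Finset.mem_univ i)]
  simp only [Function.update_self, Nat.cast_zero]
  rw [zero_pow (by omega), mul_zero, zero_add]
  congr 1
  refine Finset.sum_congr rfl fun j hj => ?_
  rw [Function.update_of_ne (Finset.ne_of_mem_erase hj)]

/-- the sum over the vectors with a large `i`-th coordinate -/
theorem coord_sum {k s : ℕ} (hk : 2 ≤ k) (hks : k ≤ s) {A C c' : ℝ} (hC : 0 < C)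
    (hf : ∀ N : ℕ, 1 ≤ N → ∀ a : ℝ, A ≤ a → ∀ X : Finset ℕ,
      (∀ x ∈ X, x < N ∧ c' * (N : ℝ) ^ k ≤ (x : ℝ) ^ k) →
      ∀ t : ℝ, ∑ x ∈ X, K ((N : ℝ) ^ (k - 1)) (a * (x : ℝ) ^ k - t) ≤ C / (N : ℝ) ^ (k - 1))
    (N : ℕ) (hN : 1 ≤ N) (α : Fin s → ℝ) (i : Fin s) (hα : A ≤ α i) (u : ℝ)
    (P : (Fin s → ℕ) → Prop) [DecidablePred P]
    (hP : ∀ m, P m → c' * (N : ℝ) ^ k ≤ (m i : ℝ) ^ k) :
    ∑ m ∈ (bx s N).filter P, K ((N : ℝ) ^ (k - 1)) (L k α m - u) ≤ C * (N : ℝ) ^ (s - k) := by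
  classical
  have hN0 : (0 : ℝ) < N := by exact_mod_cast hN
  let T : Finset (Fin s → ℕ) := Fintype.piFinset (fun j => if j = i then {0} else Finset.range N)
  have hT : T.card = N ^ (s - 1) := by
    change (Fintype.piFinset (fun j => if j = i then {0} else Finset.range N)).card = _
    rw [Fintype.card_piFinset, ← Finset.mul_prod_erase _ _ (Finset.mem_univ i)]
    rw [if_pos rfl, Finset.card_singleton, one_mul]
    rw [Finset.prod_congr rfl (g := fun _ => N) (fun j hj => by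
      rw [if_neg (Finset.ne_of_mem_erase hj), Finset.card_range])]
    rw [Finset.prod_const, Finset.card_erase_of_mem (Finset.mem_univ i), Finset.card_univ,
      Fintype.card_fin]
  have hmaps : ∀ m ∈ (bx s N).filter P, Function.update m i 0 ∈ T := by
    intro m hm
    rw [Finset.mem_filter] at hm
    have hm1 := hm.1
    unfold bx at hm1
    rw [Fintype.mem_piFinset] at hm1
    change _ ∈ Fintype.piFinset _
    rw [Fintype.mem_piFinset]
    intro j
    by_cases hj : j = i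
    · subst hj
      simp
    · rw [if_neg hj, Function.update_of_ne hj]
      exact hm1 j
  rw [← Finset.sum_fiberwise_of_maps_to hmaps]
  have hfib : ∀ y ∈ T, ∑ m ∈ ((bx s N).filter P).filter (fun m => Function.update m i 0 = y),
      K ((N : ℝ) ^ (k - 1)) (L k α m - u) ≤ C / (N : ℝ) ^ (k - 1) := by
    intro y _
    set F := ((bx s N).filter P).filter (fun m => Function.update m i 0 = y) with hF
    have h1 : ∑ m ∈ F, K ((N : ℝ) ^ (k - 1)) (L k α m - u) =
        ∑ x ∈ F.image (fun m => m i), K ((N : ℝ) ^ (k - 1)) (α i * (x : ℝ) ^ k - (u - L k α y)) := by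
      rw [Finset.sum_image]
      · refine Finset.sum_congr rfl fun m hm => ?_
        rw [hF, Finset.mem_filter] at hm
        rw [L_update hk α m i, hm.2]
        congr 1
        ring
      · intro m hm m' hm' h
        rw [hF, Finset.mem_coe, Finset.mem_filter] at hm hm'
        simp only at h
        have h2 : m = Function.update (Function.update m i 0) i (m i) := by
          rw [Function.update_idem, Function.update_eq_self]
        have h3 : m' = Function.update (Function.update m' i 0) i (m' i) := by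
          rw [Function.update_idem, Function.update_eq_self]
        rw [h2, h3, hm.2, hm'.2, h]
    rw [h1]
    refine hf N hN (α i) hα _ ?_ _
    intro x hx
    rw [Finset.mem_image] at hx
    obtain ⟨m, hm, rfl⟩ := hx
    rw [hF, Finset.mem_filter, Finset.mem_filter] at hm
    have hm1 := hm.1.1
    unfold bx at hm1
    rw [Fintype.mem_piFinset] at hm1
    exact ⟨Finset.mem_range.1 (hm1 i), hP m hm.1.2⟩
  refine (Finset.sum_le_sum hfib).trans ?_
  rw [Finset.sum_const, hT, nsmul_eq_mul]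
  have h1 : (N : ℝ) ^ (s - 1) = (N : ℝ) ^ (s - k) * (N : ℝ) ^ (k - 1) := by
    rw [← pow_add]
    congr 1
    omega
  push_cast
  rw [h1]
  have hh : (0 : ℝ) < (N : ℝ) ^ (k - 1) := by positivity
  apply le_of_eq
  field_simp

theorem up : S_up := by
  classical
  intro k s hk hks A B c₂ hA hAB hc
  have hB : 0 < B := by linarith
  have hs : 0 < s := by omega
  have hs' : (0 : ℝ) < s := by exact_mod_cast hs
  have hpi := Real.pi_pos
  obtain ⟨C3, hC3, hf⟩ := fib_sum k hk A (c₂ / (2 * s * B)) hA (by positivity)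
  set a : ℝ := Real.pi * (c₂ / 2) ^ 2 with ha
  have ha0 : 0 < a := by positivity
  refine ⟨1 / a + s * C3, by positivity, ?_⟩
  intro N hN α hα u hu
  have hN0 : (0 : ℝ) < N := by exact_mod_cast hN
  have hN1 : (1 : ℝ) ≤ N := by exact_mod_cast hN
  have hh : (0 : ℝ) < (N : ℝ) ^ (k - 1) := by positivity
  have hu0 : 0 < u := lt_of_lt_of_le (by positivity) hu
  have hK : ∀ m : Fin s → ℕ, 0 ≤ K ((N : ℝ) ^ (k - 1)) (L k α m - u) := fun m => K_nonneg hh.le _
  have hNk : (N : ℝ) ^ k = N * (N : ℝ) ^ (k - 1) := by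
    rw [← pow_succ']
    congr 1
    omega
  -- the pointwise bound
  have hpt : ∀ m ∈ bx s N, K ((N : ℝ) ^ (k - 1)) (L k α m - u) ≤
      Real.exp (-(a * (N : ℝ) ^ 2)) / (N : ℝ) ^ (k - 1) +
        ∑ i, if u / (2 * s) ≤ α i * (m i : ℝ) ^ k then K ((N : ℝ) ^ (k - 1)) (L k α m - u) else 0 := by
    intro m _
    have hsn : 0 ≤ ∑ i, if u / (2 * s) ≤ α i * (m i : ℝ) ^ k then
        K ((N : ℝ) ^ (k - 1)) (L k α m - u) else 0 := by
      refine Finset.sum_nonneg fun i _ => ?_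
      split_ifs
      · exact hK m
      · exact le_rfl
    have hen : 0 ≤ Real.exp (-(a * (N : ℝ) ^ 2)) / (N : ℝ) ^ (k - 1) := by positivity
    rcases le_or_gt (L k α m) (u / 2) with h1 | h1
    · have h2 : c₂ / 2 * N * (N : ℝ) ^ (k - 1) ≤ u - L k α m := by
        rw [hNk] at hu
        nlinarith
      have h3 : a * (N : ℝ) ^ 2 ≤ Real.pi * (L k α m - u) ^ 2 / ((N : ℝ) ^ (k - 1)) ^ 2 := by
        rw [le_div_iff₀ (by positivity), ha]
        have h4 : (c₂ / 2 * N * (N : ℝ) ^ (k - 1)) ^ 2 ≤ (L k α m - u) ^ 2 := by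
          rw [← neg_sub u, neg_sq]
          exact pow_le_pow_left₀ (by positivity) h2 2
        calc Real.pi * (c₂ / 2) ^ 2 * (N : ℝ) ^ 2 * ((N : ℝ) ^ (k - 1)) ^ 2
            = Real.pi * (c₂ / 2 * N * (N : ℝ) ^ (k - 1)) ^ 2 := by ring
          _ ≤ _ := mul_le_mul_of_nonneg_left h4 hpi.le
      have h5 : K ((N : ℝ) ^ (k - 1)) (L k α m - u) ≤
          Real.exp (-(a * (N : ℝ) ^ 2)) / (N : ℝ) ^ (k - 1) := by
        unfold K
        apply div_le_div_of_nonneg_right _ hh.le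
        apply Real.exp_le_exp.2
        linarith
      linarith
    · obtain ⟨i, hi⟩ : ∃ i, u / (2 * s) ≤ α i * (m i : ℝ) ^ k := by
        by_contra hcon
        push Not at hcon
        have h2 : L k α m ≤ ∑ _i : Fin s, u / (2 * s) :=
          Finset.sum_le_sum fun i _ => (hcon i).le
        rw [Finset.sum_const, Finset.card_univ, Fintype.card_fin, nsmul_eq_mul] at h2
        have h3 : (s : ℝ) * (u / (2 * s)) = u / 2 := by field_simp
        linarith
      have h2 : K ((N : ℝ) ^ (k - 1)) (L k α m - u) ≤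
          ∑ i, if u / (2 * s) ≤ α i * (m i : ℝ) ^ k then
            K ((N : ℝ) ^ (k - 1)) (L k α m - u) else 0 := by
        have h3 := Finset.single_le_sum (f := fun i => if u / (2 * s) ≤ α i * (m i : ℝ) ^ k then
            K ((N : ℝ) ^ (k - 1)) (L k α m - u) else 0) (fun i _ => by
              split_ifs
              · exact hK m
              · exact le_rfl) (Finset.mem_univ i)
        rw [if_pos hi] at h3
        exact h3
      linarith
  refine (Finset.sum_le_sum hpt).trans ?_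
  rw [Finset.sum_add_distrib, Finset.sum_comm, add_mul]
  apply add_le_add
  · rw [Finset.sum_const, card_bx, nsmul_eq_mul]
    have h1 : (N : ℝ) ^ s = (N : ℝ) ^ (s - k) * (N * (N : ℝ) ^ (k - 1)) := by
      rw [← hNk, ← pow_add]
      congr 1
      omega
    push_cast
    rw [h1]
    have h2 : (N : ℝ) * Real.exp (-(a * (N : ℝ) ^ 2)) ≤ 1 / a := by
      rw [Real.exp_neg, le_div_iff₀ ha0, mul_comm (N : ℝ), mul_assoc, inv_mul_le_iff₀ (Real.exp_pos _),
        mul_one]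
      have h3 := Real.add_one_le_exp (a * (N : ℝ) ^ 2)
      have h4 : (N : ℝ) * a ≤ a * (N : ℝ) ^ 2 := by
        rw [mul_comm, sq]
        exact mul_le_mul_of_nonneg_left (le_mul_of_one_le_left hN0.le hN1) ha0.le
      linarith
    calc (N : ℝ) ^ (s - k) * (N * (N : ℝ) ^ (k - 1)) *
          (Real.exp (-(a * (N : ℝ) ^ 2)) / (N : ℝ) ^ (k - 1))
        = (N : ℝ) * Real.exp (-(a * (N : ℝ) ^ 2)) * (N : ℝ) ^ (s - k) := by field_simp
      _ ≤ 1 / a * (N : ℝ) ^ (s - k) := mul_le_mul_of_nonneg_right h2 (by positivity)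
  · have h1 : ∀ i ∈ (Finset.univ : Finset (Fin s)), ∑ m ∈ bx s N,
        (if u / (2 * s) ≤ α i * (m i : ℝ) ^ k then K ((N : ℝ) ^ (k - 1)) (L k α m - u) else 0) ≤
        C3 * (N : ℝ) ^ (s - k) := by
      intro i _
      rw [← Finset.sum_filter]
      refine coord_sum hk hks hC3 hf N hN α i (hα i).1 u _ ?_
      intro m hm
      have h2 : α i * (m i : ℝ) ^ k ≤ B * (m i : ℝ) ^ k :=
        mul_le_mul_of_nonneg_right (hα i).2 (by positivity)
      have h3 : c₂ * (N : ℝ) ^ k / (2 * s) ≤ B * (m i : ℝ) ^ k :=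
        (div_le_div_of_nonneg_right hu (by positivity)).trans (hm.trans h2)
      rw [div_le_iff₀ (by positivity)] at h3
      rw [div_mul_eq_mul_div, div_le_iff₀ (by positivity)]
      linarith
    refine (Finset.sum_le_sum h1).trans ?_
    rw [Finset.sum_const, Finset.card_univ, Fintype.card_fin, nsmul_eq_mul, mul_assoc]

end Pool.Agent.W5h31.MS
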