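import Pool.Agent.W5h31.MS.F4
import Pool.Agent.W5h31.MS.Low
import Pool.Agent.W5h31.MS.Up
import Pool.Agent.W5h31.MS.Mean

/-!
From Gaussian counts to the two sided count.
-/

namespace Pool.Agent.W5h31.MS

open MeasureTheory Filter Topology

/-- The integer points in the shell of thickness `w` about the sphere of radius `r`. -/
def shell {d : ℕ} (k : ℕ) (α : Fin d → ℝ) (r w : ℝ) : Set (Fin d → ℤ) :=
  {m | |(∑ i, α i * |(m i : ℝ)| ^ k) - r ^ k| ≤ w}

/-- The same with coordinates in the natural numbers. -/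
def shellN {d : ℕ} (k : ℕ) (α : Fin d → ℝ) (r w : ℝ) : Set (Fin d → ℕ) :=
  {m | |L k α m - r ^ k| ≤ w}

theorem K_ge {w t : ℝ} (hw : 0 < w) (ht : |t| ≤ w) : Real.exp (-Real.pi) / w ≤ K w t := by
  unfold K
  refine div_le_div_of_nonneg_right (Real.exp_le_exp.mpr ?_) hw.le
  have h1 : t ^ 2 ≤ w ^ 2 := by rw [← sq_abs t]; exact pow_le_pow_left₀ (abs_nonneg _) ht 2
  have hpi := Real.pi_pos
  have h2 : Real.pi * t ^ 2 / w ^ 2 ≤ Real.pi := by
    rw [div_le_iff₀ (by positivity)]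
    exact mul_le_mul_of_nonneg_left h1 hpi.le
  linarith

theorem K_le {h t : ℝ} (hh : 0 < h) : K h t ≤ 1 / h := by
  unfold K
  refine div_le_div_of_nonneg_right ?_ hh.le
  rw [Real.exp_le_one_iff]
  have : 0 ≤ Real.pi * t ^ 2 / h ^ 2 := by positivity
  linarith

theorem K_tail {h t Y : ℝ} (hh : 0 < h) (hY : 1 ≤ Y) (ht : Y * h ≤ |t|) :
    K h t ≤ 2 / Y * K (2 * h) t := by
  unfold K
  have hpi := Real.pi_gt_three
  have hY0 : 0 < Y := by linarith
  have h1 : Y ^ 2 * h ^ 2 ≤ t ^ 2 := by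
    rw [← sq_abs t, ← mul_pow]; exact pow_le_pow_left₀ (by positivity) ht 2
  have h2 : Y ^ 2 ≤ t ^ 2 / h ^ 2 := by rwa [le_div_iff₀ (by positivity)]
  have e1 : -(Real.pi * t ^ 2 / h ^ 2) =
      -(3 / 4 * Real.pi * (t ^ 2 / h ^ 2)) + -(Real.pi * t ^ 2 / (2 * h) ^ 2) := by
    field_simp; ring
  rw [e1, Real.exp_add]
  have h3 : Y ≤ 3 / 4 * Real.pi * (t ^ 2 / h ^ 2) := by nlinarith
  have h4 : Real.exp (-(3 / 4 * Real.pi * (t ^ 2 / h ^ 2))) ≤ 1 / Y := by
    calc Real.exp (-(3 / 4 * Real.pi * (t ^ 2 / h ^ 2))) ≤ Real.exp (-Y) :=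
          Real.exp_le_exp.mpr (by linarith)
      _ = 1 / Real.exp Y := by rw [Real.exp_neg, one_div]
      _ ≤ 1 / Y := by
          refine one_div_le_one_div_of_le hY0 ?_
          have := Real.add_one_le_exp Y
          linarith
  have h5 : Real.exp (-(3 / 4 * Real.pi * (t ^ 2 / h ^ 2))) *
      Real.exp (-(Real.pi * t ^ 2 / (2 * h) ^ 2)) / h ≤
      1 / Y * Real.exp (-(Real.pi * t ^ 2 / (2 * h) ^ 2)) / h := by
    refine div_le_div_of_nonneg_right ?_ hh.le
    exact mul_le_mul_of_nonneg_right h4 (Real.exp_pos _).le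
  refine h5.trans (le_of_eq ?_)
  field_simp

/-- Upper bound for the sharp count from the Gaussian count. -/
theorem count_up {ι : Type*} (F : Finset ι) (g : ι → ℝ) {w : ℝ} (hw : 0 < w) :
    ((F.filter fun m => |g m| ≤ w).card : ℝ) ≤ Real.exp Real.pi * w * ∑ m ∈ F, K w (g m) := by
  have h1 : ((F.filter fun m => |g m| ≤ w).card : ℝ) * (Real.exp (-Real.pi) / w) ≤
      ∑ m ∈ F, K w (g m) := by
    calc ((F.filter fun m => |g m| ≤ w).card : ℝ) * (Real.exp (-Real.pi) / w) =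
        ∑ m ∈ F.filter (fun m => |g m| ≤ w), (Real.exp (-Real.pi) / w) := by
          rw [Finset.sum_const, nsmul_eq_mul]
      _ ≤ ∑ m ∈ F.filter (fun m => |g m| ≤ w), K w (g m) :=
          Finset.sum_le_sum fun m hm => K_ge hw (Finset.mem_filter.mp hm).2
      _ ≤ ∑ m ∈ F, K w (g m) :=
          Finset.sum_le_sum_of_subset_of_nonneg (Finset.filter_subset _ _)
            fun m _ _ => K_nonneg hw.le _
  have h2 : Real.exp Real.pi * w * (((F.filter fun m => |g m| ≤ w).card : ℝ) *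
      (Real.exp (-Real.pi) / w)) = ((F.filter fun m => |g m| ≤ w).card : ℝ) := by
    rw [Real.exp_neg]
    have := Real.exp_pos Real.pi
    field_simp
  rw [← h2]
  exact mul_le_mul_of_nonneg_left h1 (by positivity)

/-- Lower bound for the sharp count from the Gaussian counts. -/
theorem count_low {ι : Type*} (F : Finset ι) (g : ι → ℝ) {w Y : ℝ} (hw : 0 < w) (hY : 1 ≤ Y) :
    w / Y * ((∑ m ∈ F, K (w / Y) (g m)) - 2 / Y * ∑ m ∈ F, K (2 * (w / Y)) (g m)) ≤
      ((F.filter fun m => |g m| ≤ w).card : ℝ) := by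
  have hY0 : 0 < Y := by linarith
  have hh : 0 < w / Y := by positivity
  have h1 : ∑ m ∈ F, K (w / Y) (g m) ≤
      ((F.filter fun m => |g m| ≤ w).card : ℝ) * (1 / (w / Y)) +
        2 / Y * ∑ m ∈ F, K (2 * (w / Y)) (g m) := by
    rw [← Finset.sum_filter_add_sum_filter_not F (fun m => |g m| ≤ w)]
    refine add_le_add ?_ ?_
    · calc ∑ m ∈ F.filter (fun m => |g m| ≤ w), K (w / Y) (g m) ≤
          ∑ m ∈ F.filter (fun m => |g m| ≤ w), (1 / (w / Y)) :=
            Finset.sum_le_sum fun m _ => K_le hh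
        _ = _ := by rw [Finset.sum_const, nsmul_eq_mul]
    · calc ∑ m ∈ F.filter (fun m => ¬ |g m| ≤ w), K (w / Y) (g m) ≤
          ∑ m ∈ F.filter (fun m => ¬ |g m| ≤ w), 2 / Y * K (2 * (w / Y)) (g m) := by
            refine Finset.sum_le_sum fun m hm => K_tail hh hY ?_
            have := (Finset.mem_filter.mp hm).2
            have h2 : Y * (w / Y) = w := by field_simp
            rw [h2]; linarith [not_le.mp this]
        _ ≤ ∑ m ∈ F, 2 / Y * K (2 * (w / Y)) (g m) :=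
            Finset.sum_le_sum_of_subset_of_nonneg (Finset.filter_subset _ _)
              fun m _ _ => mul_nonneg (by positivity) (K_nonneg (by positivity) _)
        _ = _ := by rw [Finset.mul_sum]
  have h3 : w / Y * ((∑ m ∈ F, K (w / Y) (g m)) - 2 / Y * ∑ m ∈ F, K (2 * (w / Y)) (g m)) ≤
      w / Y * (((F.filter fun m => |g m| ≤ w).card : ℝ) * (1 / (w / Y))) :=
    mul_le_mul_of_nonneg_left (by linarith) hh.le
  refine h3.trans (le_of_eq ?_)
  field_simp

theorem NN_ge (k j : ℕ) (hk : 1 ≤ k) : j ≤ NN k j := by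
  unfold NN
  calc j ≤ 2 ^ j := Nat.lt_two_pow_self.le
    _ = (2 ^ j) ^ 1 := (pow_one _).symm
    _ ≤ (2 ^ j) ^ (4 * k) := Nat.pow_le_pow_right (by positivity) (by omega)

theorem NN_succ (k j : ℕ) : ((NN k (j + 1) : ℕ) : ℝ) = (2 : ℝ) ^ (4 * k) * (NN k j : ℕ) := by
  rw [NN_cast, NN_cast, pow_succ, mul_pow]; ring

theorem NN_mono (k : ℕ) {i j : ℕ} (h : i ≤ j) : NN k i ≤ NN k j := by
  unfold NN
  exact Nat.pow_le_pow_left (Nat.pow_le_pow_right (by norm_num) h) _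

/-- Every large radius has a scale. -/
theorem exists_scale {k : ℕ} (hk : 2 ≤ k) {A : ℝ} (hA : 0 < A) (j₀ : ℕ) (r : ℝ)
    (hr : (A + 1) * (NN k j₀ : ℕ) + 1 ≤ r) :
    ∃ j, j₀ ≤ j ∧ A / 2 / ((2 : ℝ) ^ (4 * k)) ^ k * ((NN k j : ℕ) : ℝ) ^ k ≤ r ^ k ∧
      r ^ k ≤ A / 2 * ((NN k j : ℕ) : ℝ) ^ k := by
  classical
  have hN0 : (0 : ℝ) ≤ (NN k j₀ : ℕ) := by positivity
  have hr0 : 0 < r := by nlinarith
  have hex : ∃ j, r ^ k ≤ A / 2 * ((NN k j : ℕ) : ℝ) ^ k := by
    obtain ⟨j, hj⟩ := exists_nat_ge (max r (r ^ k / (A / 2)))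
    refine ⟨j, ?_⟩
    have h1 : (j : ℝ) ≤ (NN k j : ℕ) := by exact_mod_cast NN_ge k j (by omega)
    have h2 : r ^ k / (A / 2) ≤ (NN k j : ℕ) := (le_max_right _ _).trans (hj.trans h1)
    have h3 : (1 : ℝ) ≤ (NN k j : ℕ) := by exact_mod_cast NN_pos k j
    have h4 : ((NN k j : ℕ) : ℝ) ≤ ((NN k j : ℕ) : ℝ) ^ k := le_self_pow₀ h3 (by omega)
    rw [div_le_iff₀ (by positivity)] at h2
    nlinarith
  have hfail : ∀ i, i ≤ j₀ → ¬ r ^ k ≤ A / 2 * ((NN k i : ℕ) : ℝ) ^ k := by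
    intro i hi hcon
    have h1 : ((NN k i : ℕ) : ℝ) ≤ (NN k j₀ : ℕ) := by exact_mod_cast NN_mono k hi
    have h2 : ((NN k i : ℕ) : ℝ) ^ k ≤ ((NN k j₀ : ℕ) : ℝ) ^ k :=
      pow_le_pow_left₀ (by positivity) h1 k
    have h3 : ((A + 1) * (NN k j₀ : ℕ)) ^ k ≤ r ^ k :=
      pow_le_pow_left₀ (by positivity) (by linarith) k
    rw [mul_pow] at h3
    have h4 : A + 1 ≤ (A + 1) ^ k := le_self_pow₀ (by linarith) (by omega)
    have h5 : 0 < ((NN k j₀ : ℕ) : ℝ) ^ k := by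
      have : 0 < NN k j₀ := NN_pos k j₀
      positivity
    nlinarith
  set j₁ := Nat.find hex with hj₁
  have hspec := Nat.find_spec hex
  have hlt : j₀ < j₁ := by
    by_contra hcon
    exact hfail j₁ (not_lt.mp hcon) hspec
  obtain ⟨i, hi⟩ : ∃ i, j₁ = i + 1 := ⟨j₁ - 1, by omega⟩
  refine ⟨j₁, hlt.le, ?_, hspec⟩
  have hi2 : ¬ r ^ k ≤ A / 2 * ((NN k i : ℕ) : ℝ) ^ k := Nat.find_min hex (by omega)
  rw [hi, NN_succ, mul_pow]
  have : A / 2 / ((2 : ℝ) ^ (4 * k)) ^ k * (((2 : ℝ) ^ (4 * k)) ^ k * ((NN k i : ℕ) : ℝ) ^ k) =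
      A / 2 * ((NN k i : ℕ) : ℝ) ^ k := by
    field_simp
  rw [this]
  exact (not_le.mp hi2).le

/-- The integer points against the natural number points. -/
theorem shell_compare {d : ℕ} (k : ℕ) (α : Fin d → ℝ) (r w : ℝ)
    (hfin : (shellN k α r w).Finite) :
    (shell k α r w).Finite ∧ (shellN k α r w).ncard ≤ (shell k α r w).ncard ∧
      (shell k α r w).ncard ≤ 2 ^ d * (shellN k α r w).ncard := by
  classical
  set sg : (Fin d → Bool) × (Fin d → ℕ) → (Fin d → ℤ) :=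
    fun p i => if p.1 i then (p.2 i : ℤ) else -(p.2 i : ℤ) with hsg
  have hsub : shell k α r w ⊆ sg '' ((Set.univ : Set (Fin d → Bool)) ×ˢ shellN k α r w) := by
    intro m hm
    refine ⟨(fun i => decide (0 ≤ m i), fun i => (m i).natAbs), ⟨Set.mem_univ _, ?_⟩, ?_⟩
    · show |L k α (fun i => (m i).natAbs) - r ^ k| ≤ w
      unfold L
      have : ∀ i, (((m i).natAbs : ℕ) : ℝ) = |(m i : ℝ)| := fun i => by
        rw [Nat.cast_natAbs]; push_cast; rfl
      simp_rw [this]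
      exact hm
    · funext i
      rw [hsg]
      simp only [decide_eq_true_eq]
      split_ifs with h
      · exact Int.natAbs_of_nonneg h
      · rw [Int.ofNat_natAbs_of_nonpos (by omega)]; ring
  have hfin2 : ((Set.univ : Set (Fin d → Bool)) ×ˢ shellN k α r w).Finite :=
    Set.finite_univ.prod hfin
  have hfin3 : (shell k α r w).Finite := (hfin2.image sg).subset hsub
  refine ⟨hfin3, ?_, ?_⟩
  · refine Set.ncard_le_ncard_of_injOn (fun m i => (m i : ℤ)) ?_ ?_ hfin3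
    · intro m hm
      show |(∑ i, α i * |(((m i : ℤ)) : ℝ)| ^ k) - r ^ k| ≤ w
      have : ∀ i, |(((m i : ℤ)) : ℝ)| = (m i : ℝ) := fun i => by
        push_cast; exact abs_of_nonneg (by positivity)
      simp_rw [this]
      exact hm
    · intro m _ m' _ h
      funext i
      have h2 : ((m i : ℕ) : ℤ) = ((m' i : ℕ) : ℤ) := congrFun h i
      exact Int.ofNat_inj.mp h2
  · calc (shell k α r w).ncard ≤
        (sg '' ((Set.univ : Set (Fin d → Bool)) ×ˢ shellN k α r w)).ncard :=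
          Set.ncard_le_ncard hsub (hfin2.image sg)
      _ ≤ ((Set.univ : Set (Fin d → Bool)) ×ˢ shellN k α r w).ncard :=
          Set.ncard_image_le hfin2
      _ = 2 ^ d * (shellN k α r w).ncard := by
          rw [Set.ncard_prod, Set.ncard_univ]
          simp

/-- The two sided count for one coefficient vector in a box. -/
theorem main_box (k f s : ℕ) (hs : s = 2 * k + 1 + f) (hk : 2 ≤ k) {A B : ℝ} (hA : 0 < A)
    (hAB : A ≤ B) (α : Fin s → ℝ) (hα : ∀ i, A ≤ α i ∧ α i ≤ B)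
    (hsmall : Tendsto (fun j => D k (NN k j) (kap k f j) (((NN k j : ℕ) : ℝ) ^ (k - 1)) α /
        (NN k j : ℝ) ^ (k + 1 + f)) atTop (𝓝 0)) :
    ∃ c C r₀ : ℝ, 0 < c ∧ 0 < C ∧ ∀ r w : ℝ, r₀ ≤ r → 0 < w → w ≤ 1 →
      1 ≤ w ^ 8 * r ^ (4 * f + 1) →
      (shell k α r w).Finite ∧
      c * (w * r ^ (k + 1 + f)) ≤ ((shell k α r w).ncard : ℝ) ∧
      ((shell k α r w).ncard : ℝ) ≤ C * (w * r ^ (k + 1 + f)) := by
  have hsk : s - k = k + 1 + f := by omega
  set c₂ : ℝ := A / 2 / ((2 : ℝ) ^ (4 * k)) ^ k with hc₂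
  have hc₂0 : 0 < c₂ := by positivity
  obtain ⟨C₂, hC₂, hup⟩ := up k s hk (by omega) A B c₂ hA hAB hc₂0
  obtain ⟨cl, hcl, N₀, hlow⟩ := low k s hk (by omega) A B c₂ hA hAB hc₂0
  rw [hsk] at hup hlow
  set Y : ℝ := 2 + 8 * (C₂ + 1) / cl with hY
  have hY2 : 2 ≤ Y := by
    have : 0 ≤ 8 * (C₂ + 1) / cl := by positivity
    linarith
  have hY0 : 0 < Y := by linarith
  have hYc : 2 / Y * (C₂ + 1) ≤ cl / 4 := by
    have h1 : 8 * (C₂ + 1) / cl ≤ Y := by linarith
    rw [div_mul_eq_mul_div, div_le_iff₀ hY0]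
    rw [div_le_iff₀ hcl] at h1
    nlinarith
  set ε : ℝ := min 1 (cl / 2) with hε
  have hε0 : 0 < ε := lt_min one_pos (by positivity)
  obtain ⟨j₁, hj₁⟩ := eventually_atTop.mp (hsmall.eventually (gt_mem_nhds hε0))
  obtain ⟨n₂, hn₂⟩ := exists_nat_gt (2 / A)
  obtain ⟨n₃, hn₃⟩ := exists_nat_gt (Y ^ 8 * (A + 1) ^ (4 * f + 1))
  set j₀ : ℕ := max (max j₁ N₀) (max n₂ n₃) with hj₀
  refine ⟨1 / Y * (cl / 4) * (1 / (A + 1) ^ (k + 1 + f)),
    2 ^ s * (Real.exp Real.pi * (C₂ + 1)) * (1 / c₂ + 1) ^ (k + 1 + f),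
    (A + 1) * (NN k j₀ : ℕ) + 1, by positivity, by positivity, ?_⟩
  intro r w hr hw hw1 hwr
  obtain ⟨j, hjj, hlo, hhi⟩ := exists_scale hk hA j₀ r hr
  have hN0' : (0 : ℝ) ≤ (NN k j₀ : ℕ) := by positivity
  have hr1 : 1 ≤ r := by nlinarith
  have hr0 : 0 < r := by linarith
  have hjge : (j : ℝ) ≤ (NN k j : ℕ) := by exact_mod_cast NN_ge k j (by omega)
  have hNpos : (1 : ℝ) ≤ (NN k j : ℕ) := by exact_mod_cast NN_pos k j
  set N : ℝ := ((NN k j : ℕ) : ℝ) with hN
  have hNN₀ : N₀ ≤ NN k j := by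
    have h1 : N₀ ≤ j := le_trans (le_trans (le_max_right _ _) (le_max_left _ _)) hjj
    exact h1.trans (NN_ge k j (by omega))
  have hjj₁ : j₁ ≤ j := le_trans (le_trans (le_max_left _ _) (le_max_left _ _)) hjj
  have hn2j : n₂ ≤ j := le_trans (le_trans (le_max_left _ _) (le_max_right _ _)) hjj
  have hn3j : n₃ ≤ j := le_trans (le_trans (le_max_right _ _) (le_max_right _ _)) hjj
  have hN2 : 2 / A < N := by
    have : (n₂ : ℝ) ≤ j := by exact_mod_cast hn2j
    linarith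
  have hN3 : Y ^ 8 * (A + 1) ^ (4 * f + 1) ≤ N := by
    have : (n₃ : ℝ) ≤ j := by exact_mod_cast hn3j
    linarith
  -- comparison of r and N
  have hrN : r ≤ (A + 1) * N := by
    refine le_of_pow_le_pow_left₀ (by omega : k ≠ 0) (by positivity) ?_
    rw [mul_pow]
    have h4 : A + 1 ≤ (A + 1) ^ k := le_self_pow₀ (by linarith) (by omega)
    have h5 : 0 < N ^ k := by positivity
    nlinarith
  have hNr : N ≤ (1 / c₂ + 1) * r := by
    refine le_of_pow_le_pow_left₀ (by omega : k ≠ 0) (by positivity) ?_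
    rw [mul_pow]
    have h4 : 1 / c₂ + 1 ≤ (1 / c₂ + 1) ^ k := by
      refine le_self_pow₀ ?_ (by omega)
      have : 0 < 1 / c₂ := by positivity
      linarith
    have h5 : 0 < r ^ k := by positivity
    have h6 : N ^ k ≤ 1 / c₂ * r ^ k := by
      rw [one_div_mul_eq_div, le_div_iff₀ hc₂0]
      linarith [mul_comm c₂ (N ^ k)]
    nlinarith
  -- the comparison integral
  have hX : 0 < N ^ (k + 1 + f) := by positivity
  have hD : D k (NN k j) (kap k f j) (N ^ (k - 1)) α ≤ ε * N ^ (k + 1 + f) := by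
    have := hj₁ j hjj₁
    rw [div_lt_iff₀ hX] at this
    exact this.le
  have hD1 : D k (NN k j) (kap k f j) (N ^ (k - 1)) α ≤ N ^ (k + 1 + f) := by
    refine hD.trans ?_
    have : ε ≤ 1 := min_le_left _ _
    nlinarith
  have hD2 : D k (NN k j) (kap k f j) (N ^ (k - 1)) α ≤ cl / 2 * N ^ (k + 1 + f) := by
    refine hD.trans ?_
    have : ε ≤ cl / 2 := min_le_right _ _
    exact mul_le_mul_of_nonneg_right this hX.le
  have hH1 : 1 ≤ N ^ (k - 1) := one_le_pow₀ hNpos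
  have hcoarse_up := hup (NN k j) (NN_pos k j) α hα (r ^ k) hlo
  have hcoarse_low := hlow (NN k j) hNN₀ α hα (r ^ k) hlo hhi
  rw [← hN] at hcoarse_up hcoarse_low
  have hUP : ∀ h : ℝ, kap k f j ≤ h → h ≤ 1 →
      ∑ m ∈ bx s (NN k j), K h (L k α m - r ^ k) ≤ (C₂ + 1) * N ^ (k + 1 + f) := by
    intro h h1 h2
    have hc := comp k (NN k j) (kap k f j) h (N ^ (k - 1)) (kap_pos k f j) h1 (h2.trans hH1) α
      (r ^ k)
    have := (abs_le.mp hc).2
    rw [add_mul, one_mul]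
    linarith
  have hLOW : ∀ h : ℝ, kap k f j ≤ h → h ≤ 1 →
      cl / 2 * N ^ (k + 1 + f) ≤ ∑ m ∈ bx s (NN k j), K h (L k α m - r ^ k) := by
    intro h h1 h2
    have hc := comp k (NN k j) (kap k f j) h (N ^ (k - 1)) (kap_pos k f j) h1 (h2.trans hH1) α
      (r ^ k)
    have := (abs_le.mp hc).1
    have e : cl * N ^ (k + 1 + f) = cl / 2 * N ^ (k + 1 + f) + cl / 2 * N ^ (k + 1 + f) := by ring
    linarith
  -- the width
  have hwY : kap k f j ≤ w / Y := by
    refine le_of_pow_le_pow_left₀ (by norm_num : 8 ≠ 0) (by positivity) ?_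
    have hq : N = ((2 : ℝ) ^ j) ^ (4 * k) := NN_cast k j
    have hkap : kap k f j ^ 8 = 1 / (N ^ (4 * f + 1) * N) := by
      unfold kap
      rw [hq]
      generalize (2 : ℝ) ^ j = q
      rw [div_pow, one_pow]
      congr 1
      rw [← pow_mul, ← pow_mul, ← pow_add]
      congr 1
      ring
    rw [hkap, div_pow, div_le_div_iff₀ (by positivity) (by positivity), one_mul]
    have h1 : 1 ≤ w ^ 8 * ((A + 1) * N) ^ (4 * f + 1) := by
      refine hwr.trans ?_
      exact mul_le_mul_of_nonneg_left (pow_le_pow_left₀ hr0.le hrN _) (by positivity)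
    rw [mul_pow] at h1
    calc Y ^ 8 = Y ^ 8 * 1 := (mul_one _).symm
      _ ≤ Y ^ 8 * (w ^ 8 * ((A + 1) ^ (4 * f + 1) * N ^ (4 * f + 1))) :=
          mul_le_mul_of_nonneg_left h1 (by positivity)
      _ = (w ^ 8 * N ^ (4 * f + 1)) * (Y ^ 8 * (A + 1) ^ (4 * f + 1)) := by ring
      _ ≤ (w ^ 8 * N ^ (4 * f + 1)) * N := mul_le_mul_of_nonneg_left hN3 (by positivity)
      _ = w ^ 8 * (N ^ (4 * f + 1) * N) := by ring
  have hwY1 : w / Y ≤ w := div_le_self hw.le (by linarith)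
  have h2wY : 2 * (w / Y) ≤ w := by
    rw [mul_div_assoc', div_le_iff₀ hY0]
    nlinarith
  have hwYpos : 0 < w / Y := by positivity
  -- the finite set
  have hset : shellN k α r w =
      ((bx s (NN k j)).filter fun m => |L k α m - r ^ k| ≤ w : Finset (Fin s → ℕ)) := by
    ext m
    simp only [Finset.coe_filter, Set.mem_ofPred_eq, shellN]
    constructor
    · intro hm
      refine ⟨?_, hm⟩
      unfold bx
      rw [Fintype.mem_piFinset]
      intro i
      rw [Finset.mem_range]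
      by_contra hcon
      push Not at hcon
      have h1 : N ≤ (m i : ℝ) := by rw [hN]; exact_mod_cast hcon
      have h2 : N ^ k ≤ (m i : ℝ) ^ k := pow_le_pow_left₀ (by positivity) h1 k
      have h3 : α i * (m i : ℝ) ^ k ≤ L k α m := by
        unfold L
        exact Finset.single_le_sum (f := fun i => α i * (m i : ℝ) ^ k)
          (fun i' _ => mul_nonneg (hA.le.trans (hα i').1) (by positivity)) (Finset.mem_univ i)
      have h4 : L k α m ≤ r ^ k + w := by linarith [(abs_le.mp hm).2]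
      have h5 : A * N ^ k ≤ α i * (m i : ℝ) ^ k :=
        mul_le_mul (hα i).1 h2 (by positivity) (hA.le.trans (hα i).1)
      have h6 : N ≤ N ^ k := le_self_pow₀ hNpos (by omega)
      have h7 : 2 < N * A := by rwa [div_lt_iff₀ hA] at hN2
      nlinarith
    · exact fun hm => hm.2
  have hfin : (shellN k α r w).Finite := by rw [hset]; exact Finset.finite_toSet _
  have hcard : (shellN k α r w).ncard =
      ((bx s (NN k j)).filter fun m => |L k α m - r ^ k| ≤ w).card := by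
    rw [hset, Set.ncard_coe_finset]
  obtain ⟨g1, g2, g3⟩ := shell_compare k α r w hfin
  have g2' : ((shellN k α r w).ncard : ℝ) ≤ ((shell k α r w).ncard : ℝ) := by exact_mod_cast g2
  have g3' : ((shell k α r w).ncard : ℝ) ≤ 2 ^ s * ((shellN k α r w).ncard : ℝ) := by
    exact_mod_cast g3
  rw [hcard] at g2' g3'
  refine ⟨g1, ?_, ?_⟩
  · -- lower bound
    have h1 := count_low (bx s (NN k j)) (fun m => L k α m - r ^ k) (w := w) (Y := Y) hw
      (by linarith)
    have h2 := hLOW (w / Y) hwY (hwY1.trans hw1)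
    have h3 := hUP (2 * (w / Y)) (by linarith) (h2wY.trans hw1)
    have h4 : 2 / Y * ∑ m ∈ bx s (NN k j), K (2 * (w / Y)) (L k α m - r ^ k) ≤
        cl / 4 * N ^ (k + 1 + f) := by
      calc 2 / Y * ∑ m ∈ bx s (NN k j), K (2 * (w / Y)) (L k α m - r ^ k) ≤
          2 / Y * ((C₂ + 1) * N ^ (k + 1 + f)) := mul_le_mul_of_nonneg_left h3 (by positivity)
        _ = 2 / Y * (C₂ + 1) * N ^ (k + 1 + f) := by ring
        _ ≤ cl / 4 * N ^ (k + 1 + f) := mul_le_mul_of_nonneg_right hYc hX.le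
    have h5 : w / Y * (cl / 4 * N ^ (k + 1 + f)) ≤
        (((bx s (NN k j)).filter fun m => |L k α m - r ^ k| ≤ w).card : ℝ) := by
      refine le_trans (mul_le_mul_of_nonneg_left ?_ hwYpos.le) h1
      have e : cl / 2 * N ^ (k + 1 + f) = cl / 4 * N ^ (k + 1 + f) + cl / 4 * N ^ (k + 1 + f) := by
        ring
      linarith
    have h6 : r ^ (k + 1 + f) ≤ (A + 1) ^ (k + 1 + f) * N ^ (k + 1 + f) := by
      rw [← mul_pow]; exact pow_le_pow_left₀ hr0.le hrN _
    have h7 : 1 / Y * (cl / 4) * (1 / (A + 1) ^ (k + 1 + f)) * (w * r ^ (k + 1 + f)) ≤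
        w / Y * (cl / 4 * N ^ (k + 1 + f)) := by
      calc 1 / Y * (cl / 4) * (1 / (A + 1) ^ (k + 1 + f)) * (w * r ^ (k + 1 + f)) ≤
          1 / Y * (cl / 4) * (1 / (A + 1) ^ (k + 1 + f)) *
            (w * ((A + 1) ^ (k + 1 + f) * N ^ (k + 1 + f))) :=
            mul_le_mul_of_nonneg_left (mul_le_mul_of_nonneg_left h6 hw.le) (by positivity)
        _ = w / Y * (cl / 4 * N ^ (k + 1 + f)) := by field_simp
    linarith
  · -- upper bound
    have h1 := count_up (bx s (NN k j)) (fun m => L k α m - r ^ k) (w := w) hw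
    have h2 := hUP w (hwY.trans hwY1) hw1
    have h3 : (((bx s (NN k j)).filter fun m => |L k α m - r ^ k| ≤ w).card : ℝ) ≤
        Real.exp Real.pi * w * ((C₂ + 1) * N ^ (k + 1 + f)) :=
      h1.trans (mul_le_mul_of_nonneg_left h2 (by positivity))
    have h4 : N ^ (k + 1 + f) ≤ (1 / c₂ + 1) ^ (k + 1 + f) * r ^ (k + 1 + f) := by
      rw [← mul_pow]; exact pow_le_pow_left₀ (by positivity) hNr _
    calc ((shell k α r w).ncard : ℝ) ≤
        2 ^ s * (((bx s (NN k j)).filter fun m => |L k α m - r ^ k| ≤ w).card : ℝ) := g3'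
      _ ≤ 2 ^ s * (Real.exp Real.pi * w * ((C₂ + 1) *
            ((1 / c₂ + 1) ^ (k + 1 + f) * r ^ (k + 1 + f)))) := by
          refine mul_le_mul_of_nonneg_left (h3.trans ?_) (by positivity)
          exact mul_le_mul_of_nonneg_left (mul_le_mul_of_nonneg_left h4 (by positivity))
            (by positivity)
      _ = _ := by ring

/-- For almost all positive coefficient vectors the two sided count holds. -/
theorem main_ae (k f : ℕ) (hk : 2 ≤ k) :
    ∀ᵐ α : Fin (2 * k + 1 + f) → ℝ, (∀ i, 0 < α i) →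
      ∃ c C r₀ : ℝ, 0 < c ∧ 0 < C ∧ ∀ r w : ℝ, r₀ ≤ r → 0 < w → w ≤ 1 →
        1 ≤ w ^ 8 * r ^ (4 * f + 1) →
        (shell k α r w).Finite ∧
        c * (w * r ^ (k + 1 + f)) ≤ ((shell k α r w).ncard : ℝ) ∧
        ((shell k α r w).ncard : ℝ) ≤ C * (w * r ^ (k + 1 + f)) := by
  have hbox : ∀ n : ℕ, ∀ᵐ α : Fin (2 * k + 1 + f) → ℝ,
      α ∈ Set.pi Set.univ (fun _ : Fin (2 * k + 1 + f) =>
        Set.Icc (1 / ((n : ℝ) + 1)) ((n : ℝ) + 2)) →
      Tendsto (fun j => D k (NN k j) (kap k f j) (((NN k j : ℕ) : ℝ) ^ (k - 1)) α /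
        (NN k j : ℝ) ^ (k + 1 + f)) atTop (𝓝 0) := by
    intro n
    have hn : (0 : ℝ) ≤ n := by positivity
    have h1 : 1 / ((n : ℝ) + 1) < (n : ℝ) + 2 := by
      rw [div_lt_iff₀ (by positivity)]
      nlinarith
    have h := ae_small mean k f hk (1 / ((n : ℝ) + 1)) ((n : ℝ) + 2) h1
    rw [mu_eq] at h
    exact (ae_restrict_iff' (MeasurableSet.univ_pi fun _ => measurableSet_Icc)).mp h
  filter_upwards [ae_all_iff.mpr hbox] with α hα hpos
  -- a box containing α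
  obtain ⟨n, hn⟩ : ∃ n : ℕ, ∀ i, 1 / ((n : ℝ) + 1) ≤ α i ∧ α i ≤ (n : ℝ) + 2 := by
    obtain ⟨n, hn⟩ := exists_nat_ge (∑ i, (α i + 1 / α i))
    refine ⟨n, fun i => ?_⟩
    have h1 : α i + 1 / α i ≤ n := by
      refine le_trans ?_ hn
      exact Finset.single_le_sum (f := fun i => α i + 1 / α i)
        (fun i' _ => by have := hpos i'; positivity) (Finset.mem_univ i)
    have h2 := hpos i
    have h3 : 0 < 1 / α i := by positivity
    constructor
    · rw [div_le_iff₀ (by positivity)]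
      have h4 : 1 / α i ≤ n := by linarith
      rw [div_le_iff₀ h2] at h4
      nlinarith
    · linarith
  have hmem : α ∈ Set.pi Set.univ (fun _ : Fin (2 * k + 1 + f) =>
      Set.Icc (1 / ((n : ℝ) + 1)) ((n : ℝ) + 2)) := fun i _ => ⟨(hn i).1, (hn i).2⟩
  refine main_box k f (2 * k + 1 + f) rfl hk (A := 1 / ((n : ℝ) + 1)) (B := (n : ℝ) + 2) (by positivity) ?_ α hn
    (hα n hmem)
  rw [div_le_iff₀ (by positivity)]
  have : (0 : ℝ) ≤ n := by positivity
  nlinarith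

end Pool.Agent.W5h31.MS
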