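import Pool.Agent.W5h31.MS.F3

/-!
The pointwise bound in all dimensions above `k`, and the integral of the majorant.
-/

namespace Pool.Agent.W5h31.MS

open MeasureTheory Filter Topology

/-- The majorant. -/
noncomputable def FF (k : ℕ) (x₀ t : ℝ) : ℝ := (max t x₀) ^ (-(1 + 1 / (k : ℝ)))

theorem FF_pos (k : ℕ) {x₀ : ℝ} (hx : 0 < x₀) (t : ℝ) : 0 < FF k x₀ t :=
  Real.rpow_pos_of_pos (lt_max_of_lt_right hx) _

theorem rpow_key {k : ℕ} (hk : 1 ≤ k) {t : ℝ} (ht : 0 < t) :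
    t ^ (-(1 + 1 / (k : ℝ))) = ((1 / t) ^ (1 / (k : ℝ))) ^ (k + 1) := by
  have hk0 : (0 : ℝ) < k := by exact_mod_cast hk
  rw [← Real.rpow_natCast, ← Real.rpow_mul (by positivity), one_div t, Real.inv_rpow ht.le,
    Real.rpow_neg ht.le]
  congr 2
  push_cast
  field_simp

theorem root_key {k : ℕ} (hk : 1 ≤ k) {M₀ : ℝ} (hM : 0 < M₀) :
    (1 / (1 / M₀ ^ k)) ^ (1 / (k : ℝ)) = M₀ := by
  have hk0 : (0 : ℝ) < k := by exact_mod_cast hk
  rw [one_div_one_div, ← Real.rpow_natCast, ← Real.rpow_mul hM.le, mul_one_div_cancel hk0.ne',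
    Real.rpow_one]

theorem int_FF {k : ℕ} (hk : 1 ≤ k) {x₀ : ℝ} (hx : 0 < x₀) :
    ∫ t in Set.Ioi (0 : ℝ), FF k x₀ t = (k + 1) * x₀ ^ (-(1 / (k : ℝ))) := by
  have hk0 : (0 : ℝ) < k := by exact_mod_cast hk
  have hlt : -(1 + 1 / (k : ℝ)) < -1 := by
    have : 0 < 1 / (k : ℝ) := by positivity
    linarith
  have hU : Set.Ioi (0 : ℝ) = Set.Ioc 0 x₀ ∪ Set.Ioi x₀ := (Set.Ioc_union_Ioi_eq_Ioi hx.le).symm
  have e1 : Set.EqOn (FF k x₀) (fun _ => x₀ ^ (-(1 + 1 / (k : ℝ)))) (Set.Ioc 0 x₀) := by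
    intro t ht
    unfold FF
    rw [max_eq_right ht.2]
  have e2 : Set.EqOn (FF k x₀) (fun t => t ^ (-(1 + 1 / (k : ℝ)))) (Set.Ioi x₀) := by
    intro t ht
    unfold FF
    rw [max_eq_left (le_of_lt ht)]
  have i1 : IntegrableOn (FF k x₀) (Set.Ioc 0 x₀) := by
    refine IntegrableOn.congr_fun ?_ e1.symm measurableSet_Ioc
    exact integrableOn_const (by rw [Real.volume_Ioc]; exact ENNReal.ofReal_ne_top)
  have i2 : IntegrableOn (FF k x₀) (Set.Ioi x₀) := by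
    refine IntegrableOn.congr_fun ?_ e2.symm measurableSet_Ioi
    exact integrableOn_Ioi_rpow_of_lt hlt hx
  rw [hU, setIntegral_union (Set.Ioc_disjoint_Ioi le_rfl) measurableSet_Ioi i1 i2,
    setIntegral_congr_fun measurableSet_Ioc e1, setIntegral_congr_fun measurableSet_Ioi e2,
    integral_Ioi_rpow_of_lt hlt hx, setIntegral_const]
  have hv : volume.real (Set.Ioc 0 x₀) = x₀ := by
    rw [Measure.real, Real.volume_Ioc, ENNReal.toReal_ofReal (by linarith)]; ring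
  rw [hv, smul_eq_mul]
  have e3 : -(1 + 1 / (k : ℝ)) + 1 = -(1 / (k : ℝ)) := by ring
  have e4 : x₀ * x₀ ^ (-(1 + 1 / (k : ℝ))) = x₀ ^ (-(1 / (k : ℝ))) := by
    nth_rw 1 [← Real.rpow_one x₀]
    rw [← Real.rpow_add hx]
    congr 1
    ring
  rw [e3, e4]
  field_simp
  ring

theorem lint_FF {k : ℕ} (hk : 1 ≤ k) {P x₀ : ℝ} (hP : 0 ≤ P) (hx : 0 < x₀) :
    ∫⁻ ξ : ℝ, ENNReal.ofReal (P * FF k x₀ |ξ|) =
      ENNReal.ofReal (P * (2 * (k + 1) * x₀ ^ (-(1 / (k : ℝ))))) := by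
  have hI : ∫ ξ : ℝ, FF k x₀ |ξ| = 2 * ((k + 1) * x₀ ^ (-(1 / (k : ℝ)))) := by
    rw [← int_FF hk hx]
    exact integral_comp_abs
  have hpos : 0 < 2 * (((k : ℝ) + 1) * x₀ ^ (-(1 / (k : ℝ)))) := by
    have := Real.rpow_pos_of_pos hx (-(1 / (k : ℝ)))
    positivity
  have hint : Integrable fun ξ : ℝ => FF k x₀ |ξ| := by
    by_contra hcon
    rw [integral_undef hcon] at hI
    linarith
  rw [← ofReal_integral_eq_lintegral_ofReal (hint.const_mul P)
    (Eventually.of_forall fun ξ => by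
      simp only [Pi.zero_apply]
      exact mul_nonneg hP (FF_pos k hx _).le)]
  rw [integral_const_mul, hI]
  congr 1
  ring

/-- The pointwise bound in dimension above `k`. -/
theorem point_le2 {k s : ℕ} (hk : 2 ≤ k) (hs : k + 1 ≤ s) {A B C : ℝ} (hAB : A ≤ B) (hC : 0 < C)
    {N : ℕ} (hN : 1 ≤ N) (κ H M₀ : ℝ) (hM₀ : 0 < M₀)
    (hmean : ∀ ξ M : ℝ, 0 < M → |ξ| * M ^ k = 1 →
      gm k N A B ξ ≤ C * (Real.sqrt N + (1 + Real.log N) * M)) (ξ : ℝ) :
    om κ H ξ * (gm k N A B ξ) ^ s ≤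
      ((Real.pi * H ^ 2 * (1 / M₀ ^ k) ^ 2 * ((B - A) * N) ^ s) / M₀ ^ (k + 1) +
        (2 * C) ^ s * (1 + Real.log N) ^ s * M₀ ^ (s - (k + 1))) * FF k (1 / M₀ ^ k) |ξ| +
      (2 * C) ^ s * Real.sqrt N ^ s * Real.exp (-(Real.pi * κ ^ 2 * ξ ^ 2)) := by
  have hg0 := gm_nonneg k N A B ξ
  have hlog : 0 ≤ Real.log N := Real.log_nonneg (by exact_mod_cast hN)
  have hBA : 0 ≤ B - A := by linarith
  set x₀ : ℝ := 1 / M₀ ^ k with hx₀
  have hx : 0 < x₀ := by positivity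
  have hFF := FF_pos k hx |ξ|
  have hT1 : 0 ≤ Real.pi * H ^ 2 * x₀ ^ 2 * ((B - A) * N) ^ s := by positivity
  have hT2 : 0 ≤ (2 * C) ^ s * (1 + Real.log N) ^ s * M₀ ^ (s - (k + 1)) := by positivity
  have hT3 : 0 ≤ (2 * C) ^ s * Real.sqrt N ^ s * Real.exp (-(Real.pi * κ ^ 2 * ξ ^ 2)) := by
    positivity
  rw [add_mul]
  rcases le_or_gt |ξ| x₀ with hle | hlt
  · -- small frequencies
    have h1 : gm k N A B ξ ^ s ≤ ((B - A) * N) ^ s :=
      pow_le_pow_left₀ hg0 (gm_le k N A B ξ hAB) s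
    have h2 : ξ ^ 2 ≤ x₀ ^ 2 := by
      rw [← sq_abs ξ]; exact pow_le_pow_left₀ (abs_nonneg _) hle 2
    have h3 : om κ H ξ ≤ Real.pi * H ^ 2 * x₀ ^ 2 := by
      refine (om_le' κ H ξ).trans ?_
      have : 0 ≤ Real.pi * H ^ 2 := by positivity
      exact mul_le_mul_of_nonneg_left h2 this
    have h5 : om κ H ξ * gm k N A B ξ ^ s ≤ Real.pi * H ^ 2 * x₀ ^ 2 * ((B - A) * N) ^ s :=
      mul_le_mul h3 h1 (by positivity) (by positivity)
    have hF : FF k x₀ |ξ| = M₀ ^ (k + 1) := by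
      unfold FF
      rw [max_eq_right hle, rpow_key (by omega) hx, hx₀, root_key (by omega) hM₀]
    have h6 : Real.pi * H ^ 2 * x₀ ^ 2 * ((B - A) * N) ^ s / M₀ ^ (k + 1) * FF k x₀ |ξ| =
        Real.pi * H ^ 2 * x₀ ^ 2 * ((B - A) * N) ^ s := by
      rw [hF]
      have : M₀ ^ (k + 1) ≠ 0 := by positivity
      field_simp
    have h7 : 0 ≤ (2 * C) ^ s * (1 + Real.log N) ^ s * M₀ ^ (s - (k + 1)) * FF k x₀ |ξ| :=
      mul_nonneg hT2 hFF.le
    rw [h6]
    linarith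
  · -- large frequencies
    have hξ0 : 0 < |ξ| := hx.trans hlt
    set M : ℝ := (1 / |ξ|) ^ ((1 : ℝ) / k) with hM
    have hkpos : (0 : ℝ) < k := by exact_mod_cast (by omega : 0 < k)
    have hMpos : 0 < M := Real.rpow_pos_of_pos (by positivity) _
    have hMk : M ^ k = 1 / |ξ| := by
      rw [hM, ← Real.rpow_natCast, ← Real.rpow_mul (by positivity),
        one_div_mul_cancel hkpos.ne', Real.rpow_one]
    have hMM : M ≤ M₀ := by
      have : M ^ k ≤ M₀ ^ k := by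
        rw [hMk]
        rw [div_le_iff₀ hξ0]
        have h8 : x₀ * M₀ ^ k = 1 := by rw [hx₀]; field_simp
        have : 0 < M₀ ^ k := by positivity
        nlinarith
      exact le_of_pow_le_pow_left₀ (by omega) hM₀.le this
    have hF : FF k x₀ |ξ| = M ^ (k + 1) := by
      unfold FF
      rw [max_eq_left hlt.le, rpow_key (by omega) hξ0]
    have hb := hmean ξ M hMpos (by rw [hMk]; field_simp)
    have h1 : gm k N A B ξ ^ s ≤ (C * (Real.sqrt N + (1 + Real.log N) * M)) ^ s :=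
      pow_le_pow_left₀ hg0 hb s
    have h2 : (C * (Real.sqrt N + (1 + Real.log N) * M)) ^ s ≤
        (2 * C) ^ s * Real.sqrt N ^ s + (2 * C) ^ s * (1 + Real.log N) ^ s * M ^ s := by
      have hp : 0 ≤ Real.sqrt N := Real.sqrt_nonneg _
      have hr : 0 ≤ (1 + Real.log N) * M := by positivity
      have e1 : (2 * C) ^ s * Real.sqrt N ^ s = (2 * C * Real.sqrt N) ^ s := by
        rw [← mul_pow]
      have e2 : (2 * C) ^ s * (1 + Real.log N) ^ s * M ^ s =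
          (2 * C * ((1 + Real.log N) * M)) ^ s := by
        rw [← mul_pow, ← mul_pow]; ring
      rw [e1, e2]
      rcases le_total (Real.sqrt N) ((1 + Real.log N) * M) with h | h
      · have : (C * (Real.sqrt N + (1 + Real.log N) * M)) ^ s ≤
            (2 * C * ((1 + Real.log N) * M)) ^ s := by
          refine pow_le_pow_left₀ (by positivity) ?_ s
          nlinarith
        have h0 : 0 ≤ (2 * C * Real.sqrt N) ^ s := by positivity
        linarith
      · have : (C * (Real.sqrt N + (1 + Real.log N) * M)) ^ s ≤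
            (2 * C * Real.sqrt N) ^ s := by
          refine pow_le_pow_left₀ (by positivity) ?_ s
          nlinarith
        have h0 : 0 ≤ (2 * C * ((1 + Real.log N) * M)) ^ s := by positivity
        linarith
    have h3 : om κ H ξ ≤ Real.exp (-(Real.pi * κ ^ 2 * ξ ^ 2)) := om_le κ H ξ
    have h3' : Real.exp (-(Real.pi * κ ^ 2 * ξ ^ 2)) ≤ 1 := by
      rw [Real.exp_le_one_iff]
      have : 0 ≤ Real.pi * κ ^ 2 * ξ ^ 2 := by positivity
      linarith
    have h4 : M ^ s ≤ M₀ ^ (s - (k + 1)) * FF k x₀ |ξ| := by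
      rw [hF]
      have e : M ^ s = M ^ (s - (k + 1)) * M ^ (k + 1) := by
        rw [← pow_add]; congr 1; omega
      rw [e]
      exact mul_le_mul_of_nonneg_right (pow_le_pow_left₀ hMpos.le hMM _) (by positivity)
    have h5 : om κ H ξ * gm k N A B ξ ^ s ≤
        om κ H ξ * ((2 * C) ^ s * Real.sqrt N ^ s +
          (2 * C) ^ s * (1 + Real.log N) ^ s * M ^ s) :=
      mul_le_mul_of_nonneg_left (h1.trans h2) (om_nonneg _ _ _)
    have h6 : om κ H ξ * ((2 * C) ^ s * Real.sqrt N ^ s) ≤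
        (2 * C) ^ s * Real.sqrt N ^ s * Real.exp (-(Real.pi * κ ^ 2 * ξ ^ 2)) := by
      rw [mul_comm]
      exact mul_le_mul_of_nonneg_left h3 (by positivity)
    have h7 : om κ H ξ * ((2 * C) ^ s * (1 + Real.log N) ^ s * M ^ s) ≤
        (2 * C) ^ s * (1 + Real.log N) ^ s * M₀ ^ (s - (k + 1)) * FF k x₀ |ξ| := by
      have q1 : om κ H ξ * ((2 * C) ^ s * (1 + Real.log N) ^ s * M ^ s) ≤
          1 * ((2 * C) ^ s * (1 + Real.log N) ^ s * M ^ s) :=
        mul_le_mul_of_nonneg_right (h3.trans h3') (by positivity)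
      have q2 : (2 * C) ^ s * (1 + Real.log N) ^ s * M ^ s ≤
          (2 * C) ^ s * (1 + Real.log N) ^ s * (M₀ ^ (s - (k + 1)) * FF k x₀ |ξ|) :=
        mul_le_mul_of_nonneg_left h4 (by positivity)
      have q3 : (2 * C) ^ s * (1 + Real.log N) ^ s * (M₀ ^ (s - (k + 1)) * FF k x₀ |ξ|) =
          (2 * C) ^ s * (1 + Real.log N) ^ s * M₀ ^ (s - (k + 1)) * FF k x₀ |ξ| := by ring
      linarith
    have h8 : 0 ≤ Real.pi * H ^ 2 * x₀ ^ 2 * ((B - A) * N) ^ s / M₀ ^ (k + 1) * FF k x₀ |ξ| := by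
      positivity
    have h9 : om κ H ξ * ((2 * C) ^ s * Real.sqrt N ^ s +
          (2 * C) ^ s * (1 + Real.log N) ^ s * M ^ s) =
        om κ H ξ * ((2 * C) ^ s * Real.sqrt N ^ s) +
        om κ H ξ * ((2 * C) ^ s * (1 + Real.log N) ^ s * M ^ s) := by ring
    linarith

end Pool.Agent.W5h31.MS
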