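import Pool.Agent.W5h31.MS.G3
import Pool.Agent.W5h31.MS.F4

/-!
Almost everywhere smallness of the comparison integral along the scales `N = 2^j`, in every
dimension above `k`.
-/

namespace Pool.Agent.W5h31.MS

open MeasureTheory Filter Topology

/-- The smallest width at scale `2^j`. -/
noncomputable def kp (k s : ℕ) (η : ℝ) (j : ℕ) : ℝ :=
  ((2 : ℝ) ^ j) ^ ((k : ℝ) - (s : ℝ) / 2 + η)

/-- The frequency parameter at scale `2^j`. -/
noncomputable def MO (k j : ℕ) : ℝ := ((2 : ℝ) ^ j) ^ (1 - 1 / (2 * (k : ℝ)))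

theorem kp_pos (k s : ℕ) (η : ℝ) (j : ℕ) : 0 < kp k s η j := by
  unfold kp; positivity

theorem MO_pos (k j : ℕ) : 0 < MO k j := by
  unfold MO; positivity

/-- The saving. -/
noncomputable def del (k : ℕ) (η : ℝ) : ℝ := min η (1 / (2 * (k : ℝ)))

theorem piece_a {k n : ℕ} (hk : 2 ≤ k) {η N : ℝ} (hN : 1 ≤ N) :
    ((N ^ (k - 1)) ^ 2 * N ^ (k + n)) / (N ^ (1 - 1 / (2 * (k : ℝ)))) ^ (3 * k) ≤
      N ^ (-(del k η)) * N ^ n := by
  have hN0 : 0 < N := by linarith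
  have hk0 : (0 : ℝ) < k := by exact_mod_cast (by omega : 0 < k)
  have hk2 : (2 : ℝ) ≤ k := by exact_mod_cast hk
  obtain ⟨t, rfl⟩ : ∃ t, k = t + 1 := ⟨k - 1, by omega⟩
  have e0 : t + 1 - 1 = t := by omega
  rw [e0]
  have e1 : (N ^ t) ^ 2 * N ^ (t + 1 + n) = N ^ ((2 * t + (t + 1 + n) : ℕ) : ℝ) := by
    rw [Real.rpow_natCast, ← pow_mul, ← pow_add]
    congr 1; ring
  have e2 : (N ^ (1 - 1 / (2 * ((t + 1 : ℕ) : ℝ)))) ^ (3 * (t + 1)) =
      N ^ (3 * ((t + 1 : ℕ) : ℝ) - 3 / 2) := by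
    rw [← Real.rpow_natCast, ← Real.rpow_mul hN0.le]
    congr 1
    have : ((t + 1 : ℕ) : ℝ) ≠ 0 := hk0.ne'
    push_cast at this ⊢
    field_simp
  have e3 : N ^ (-(del (t + 1) η)) * N ^ n = N ^ (-(del (t + 1) η) + n) := by
    rw [Real.rpow_add hN0, Real.rpow_natCast]
  rw [e1, e2, e3, ← Real.rpow_sub hN0]
  refine Real.rpow_le_rpow_of_exponent_le hN ?_
  have hd : del (t + 1) η ≤ 1 / 2 := by
    refine (min_le_right _ _).trans ?_
    rw [div_le_div_iff₀ (by positivity) (by norm_num)]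
    linarith
  push_cast
  linarith

theorem piece_b {k n : ℕ} (hk : 2 ≤ k) (hn : 1 ≤ n) {η N : ℝ} (hN : 1 ≤ N) :
    (N ^ (1 - 1 / (2 * (k : ℝ)))) ^ n ≤ N ^ (-(del k η)) * N ^ n := by
  have hN0 : 0 < N := by linarith
  have hk0 : (0 : ℝ) < k := by exact_mod_cast (by omega : 0 < k)
  have hn1 : (1 : ℝ) ≤ n := by exact_mod_cast hn
  rw [← Real.rpow_natCast, ← Real.rpow_mul hN0.le, ← Real.rpow_natCast N n, ← Real.rpow_add hN0]
  refine Real.rpow_le_rpow_of_exponent_le hN ?_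
  have hd : del k η ≤ 1 / (2 * (k : ℝ)) := min_le_right _ _
  have h1 : 0 < 1 / (2 * (k : ℝ)) := by positivity
  nlinarith

theorem piece_c {k n : ℕ} {η N : ℝ} (hN : 1 ≤ N) :
    Real.sqrt N ^ (k + n) / N ^ ((k : ℝ) - ((k + n : ℕ) : ℝ) / 2 + η) ≤
      N ^ (-(del k η)) * N ^ n := by
  have hN0 : 0 < N := by linarith
  rw [Real.sqrt_eq_rpow, ← Real.rpow_natCast, ← Real.rpow_mul hN0.le, ← Real.rpow_natCast N n,
    ← Real.rpow_add hN0, ← Real.rpow_sub hN0]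
  refine Real.rpow_le_rpow_of_exponent_le hN ?_
  have hd : del k η ≤ η := min_le_left _ _
  push_cast
  linarith

theorem rho_eq (δ : ℝ) (j : ℕ) : ((2 : ℝ) ^ j) ^ (-δ) = ((2 : ℝ) ^ (-δ)) ^ j := by
  rw [← Real.rpow_natCast, ← Real.rpow_natCast, ← Real.rpow_mul (by norm_num),
    ← Real.rpow_mul (by norm_num), mul_comm]

theorem one_log2 (j : ℕ) : 1 + Real.log ((2 ^ j : ℕ) : ℝ) ≤ (j : ℝ) + 1 := by
  push_cast
  rw [Real.log_pow]
  have h2 : Real.log 2 ≤ 1 := by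
    have := Real.log_two_lt_d9; linarith
  have hj : (0 : ℝ) ≤ j := by positivity
  nlinarith

/-- The total of the three contributions. -/
theorem total_le2 {k n : ℕ} (hk : 2 ≤ k) (hn : 1 ≤ n) {A B C η : ℝ} (hAB : A ≤ B) (hC : 0 < C)
    (j : ℕ) :
    ((Real.pi * (((2 ^ j : ℕ) : ℝ) ^ (k - 1)) ^ 2 * (1 / MO k j ^ k) ^ 2 *
        ((B - A) * ((2 ^ j : ℕ) : ℝ)) ^ (k + n)) / MO k j ^ (k + 1) +
      (2 * C) ^ (k + n) * (1 + Real.log ((2 ^ j : ℕ) : ℝ)) ^ (k + n) *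
        MO k j ^ (k + n - (k + 1))) *
        (2 * (k + 1) * (1 / MO k j ^ k) ^ (-(1 / (k : ℝ)))) +
      (2 * C) ^ (k + n) * Real.sqrt ((2 ^ j : ℕ) : ℝ) ^ (k + n) / kp k (k + n) η j ≤
    (2 * (k + 1) * (Real.pi * (B - A) ^ (k + n)) + 2 * (k + 1) * (2 * C) ^ (k + n) +
      (2 * C) ^ (k + n)) *
      (((j : ℝ) + 1) ^ (k + n) * ((2 : ℝ) ^ (-(del k η))) ^ j * ((2 ^ j : ℕ) : ℝ) ^ n) := by
  have hBA : 0 ≤ B - A := by linarith
  have hpi := Real.pi_pos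
  have hlog := one_log2 j
  have hN1' : (1 : ℝ) ≤ ((2 ^ j : ℕ) : ℝ) := by
    exact_mod_cast Nat.one_le_iff_ne_zero.mpr (by positivity : (2 ^ j : ℕ) ≠ 0)
  have hlog0 : 0 ≤ 1 + Real.log ((2 ^ j : ℕ) : ℝ) := by
    have := Real.log_nonneg hN1'
    linarith
  have hM0 := MO_pos k j
  have hx0 : 0 < 1 / MO k j ^ k := by positivity
  have hroot : (1 / MO k j ^ k) ^ (-(1 / (k : ℝ))) = MO k j := by
    rw [Real.rpow_neg hx0.le, ← Real.inv_rpow hx0.le, ← one_div, root_key (by omega) hM0]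
  rw [hroot]
  have hcast : ((2 ^ j : ℕ) : ℝ) = (2 : ℝ) ^ j := by push_cast; ring
  rw [← rho_eq]
  unfold kp
  have hMdef : MO k j = ((2 : ℝ) ^ j) ^ (1 - 1 / (2 * (k : ℝ))) := rfl
  rw [hcast] at hlog hlog0 hN1' ⊢
  generalize (2 : ℝ) ^ j = N at *
  have hN0 : 0 < N := by linarith
  have pa := piece_a (η := η) (n := n) hk hN1'
  have pb := piece_b (η := η) hk hn hN1'
  have pc := piece_c (k := k) (n := n) (η := η) hN1'
  rw [← hMdef] at pa pb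
  generalize MO k j = M at *
  set Λ : ℝ := 1 + Real.log N with hΛ
  set J : ℝ := (j : ℝ) + 1 with hJ
  have hJ1 : 1 ≤ J := by
    have : (0 : ℝ) ≤ j := by positivity
    linarith
  have hJs : 1 ≤ J ^ (k + n) := one_le_pow₀ hJ1
  have hΛs : Λ ^ (k + n) ≤ J ^ (k + n) := pow_le_pow_left₀ hlog0 hlog _
  set X : ℝ := N ^ (-(del k η)) * N ^ n with hX
  have hX0 : 0 < X := by positivity
  have hXJ : X ≤ J ^ (k + n) * N ^ (-(del k η)) * N ^ n := by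
    have : J ^ (k + n) * N ^ (-(del k η)) * N ^ n = J ^ (k + n) * X := by rw [hX]; ring
    rw [this]
    nlinarith
  have hJX : J ^ (k + n) * N ^ (-(del k η)) * N ^ n = J ^ (k + n) * X := by rw [hX]; ring
  have hXJ' : X ≤ J ^ (k + n) * X := by nlinarith
  rw [hJX]
  -- first piece
  have q1 : Real.pi * (N ^ (k - 1)) ^ 2 * (1 / M ^ k) ^ 2 * ((B - A) * N) ^ (k + n) / M ^ (k + 1) *
      (2 * (k + 1) * M) ≤ 2 * (k + 1) * (Real.pi * (B - A) ^ (k + n)) * (J ^ (k + n) * X) := by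
    have e : Real.pi * (N ^ (k - 1)) ^ 2 * (1 / M ^ k) ^ 2 * ((B - A) * N) ^ (k + n) /
        M ^ (k + 1) * (2 * (k + 1) * M) =
        2 * (k + 1) * (Real.pi * (B - A) ^ (k + n)) *
          (((N ^ (k - 1)) ^ 2 * N ^ (k + n)) / M ^ (3 * k)) := by
      rw [mul_pow (B - A), show 3 * k = k + k + k by ring, pow_add, pow_add, pow_succ M k]
      have hM1 : M ^ k ≠ 0 := by positivity
      field_simp
      ring
    rw [e]
    exact mul_le_mul_of_nonneg_left (pa.trans hXJ') (by positivity)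
  -- second piece
  have q2 : (2 * C) ^ (k + n) * Λ ^ (k + n) * M ^ (k + n - (k + 1)) * (2 * (k + 1) * M) ≤
      2 * (k + 1) * (2 * C) ^ (k + n) * (J ^ (k + n) * X) := by
    have e : M ^ (k + n - (k + 1)) * M = M ^ n := by
      rw [← pow_succ]; congr 1; omega
    have e2 : (2 * C) ^ (k + n) * Λ ^ (k + n) * M ^ (k + n - (k + 1)) * (2 * (k + 1) * M) =
        2 * (k + 1) * (2 * C) ^ (k + n) * (Λ ^ (k + n) * (M ^ (k + n - (k + 1)) * M)) := by ring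
    rw [e2, e]
    refine mul_le_mul_of_nonneg_left ?_ (by positivity)
    exact mul_le_mul hΛs pb (by positivity) (by positivity)
  -- third piece
  have q3 : (2 * C) ^ (k + n) * Real.sqrt N ^ (k + n) /
      N ^ ((k : ℝ) - ((k + n : ℕ) : ℝ) / 2 + η) ≤ (2 * C) ^ (k + n) * (J ^ (k + n) * X) := by
    rw [mul_div_assoc]
    exact mul_le_mul_of_nonneg_left (pc.trans hXJ') (by positivity)
  calc _ = Real.pi * (N ^ (k - 1)) ^ 2 * (1 / M ^ k) ^ 2 * ((B - A) * N) ^ (k + n) / M ^ (k + 1) *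
      (2 * (k + 1) * M) + (2 * C) ^ (k + n) * Λ ^ (k + n) * M ^ (k + n - (k + 1)) *
      (2 * (k + 1) * M) + (2 * C) ^ (k + n) * Real.sqrt N ^ (k + n) /
      N ^ ((k : ℝ) - ((k + n : ℕ) : ℝ) / 2 + η) := by rw [add_mul]
    _ ≤ 2 * (k + 1) * (Real.pi * (B - A) ^ (k + n)) * (J ^ (k + n) * X) +
      2 * (k + 1) * (2 * C) ^ (k + n) * (J ^ (k + n) * X) +
      (2 * C) ^ (k + n) * (J ^ (k + n) * X) := add_le_add (add_le_add q1 q2) q3
    _ = _ := by ring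

theorem expect_le2 (hM : S_mean) (k n : ℕ) (hk : 2 ≤ k) (hn : 1 ≤ n) (A B η : ℝ) (hAB : A < B) :
    ∃ C' : ℝ, 0 ≤ C' ∧ ∀ j : ℕ,
      ∫⁻ α, Dl k (2 ^ j) (k + n) (kp k (k + n) η j) (((2 ^ j : ℕ) : ℝ) ^ (k - 1)) α
        ∂(mu (k + n) A B) ≤
      ENNReal.ofReal (C' * (((j : ℝ) + 1) ^ (k + n) * ((2 : ℝ) ^ (-(del k η))) ^ j *
        ((2 ^ j : ℕ) : ℝ) ^ n)) := by
  obtain ⟨C, hC, hmean⟩ := hM k hk A B hAB
  have hBA : 0 ≤ B - A := by linarith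
  refine ⟨2 * (k + 1) * (Real.pi * (B - A) ^ (k + n)) + 2 * (k + 1) * (2 * C) ^ (k + n) +
      (2 * C) ^ (k + n), by positivity, fun j => ?_⟩
  have hN1 : 1 ≤ 2 ^ j := Nat.one_le_iff_ne_zero.mpr (by positivity)
  rw [Dl_int]
  have hM0 := MO_pos k j
  have hp := point_le2 (s := k + n) hk (by omega) hAB.le hC hN1 (kp k (k + n) η j)
    (((2 ^ j : ℕ) : ℝ) ^ (k - 1)) (MO k j) hM0 (hmean (2 ^ j) hN1)
  have hlog0 : 0 ≤ 1 + Real.log ((2 ^ j : ℕ) : ℝ) := by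
    have : 0 ≤ Real.log ((2 ^ j : ℕ) : ℝ) := Real.log_nonneg (by exact_mod_cast hN1)
    linarith
  refine (lintegral_mono fun ξ => ENNReal.ofReal_le_ofReal (hp ξ)).trans ?_
  have hx0 : 0 < 1 / MO k j ^ k := by positivity
  have hP0 : 0 ≤ ((Real.pi * (((2 ^ j : ℕ) : ℝ) ^ (k - 1)) ^ 2 * (1 / MO k j ^ k) ^ 2 *
        ((B - A) * ((2 ^ j : ℕ) : ℝ)) ^ (k + n)) / MO k j ^ (k + 1) +
      (2 * C) ^ (k + n) * (1 + Real.log ((2 ^ j : ℕ) : ℝ)) ^ (k + n) *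
        MO k j ^ (k + n - (k + 1))) := by positivity
  have hQ0 : 0 ≤ (2 * C) ^ (k + n) * Real.sqrt ((2 ^ j : ℕ) : ℝ) ^ (k + n) := by
    positivity
  have ht := total_le2 (η := η) hk hn hAB.le hC j
  generalize ((Real.pi * (((2 ^ j : ℕ) : ℝ) ^ (k - 1)) ^ 2 * (1 / MO k j ^ k) ^ 2 *
        ((B - A) * ((2 ^ j : ℕ) : ℝ)) ^ (k + n)) / MO k j ^ (k + 1) +
      (2 * C) ^ (k + n) * (1 + Real.log ((2 ^ j : ℕ) : ℝ)) ^ (k + n) *
        MO k j ^ (k + n - (k + 1))) = P at *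
  generalize (2 * C) ^ (k + n) * Real.sqrt ((2 ^ j : ℕ) : ℝ) ^ (k + n) = Q at *
  have hsplit : ∀ ξ : ℝ, ENNReal.ofReal (P * FF k (1 / MO k j ^ k) |ξ| +
      Q * Real.exp (-(Real.pi * kp k (k + n) η j ^ 2 * ξ ^ 2))) =
      ENNReal.ofReal (P * FF k (1 / MO k j ^ k) |ξ|) +
      ENNReal.ofReal (Q * Real.exp (-(Real.pi * kp k (k + n) η j ^ 2 * ξ ^ 2))) := fun ξ =>
    ENNReal.ofReal_add (mul_nonneg hP0 (FF_pos k hx0 _).le) (mul_nonneg hQ0 (Real.exp_pos _).le)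
  simp_rw [hsplit]
  have hkp := kp_pos k (k + n) η j
  have hrp : 0 < (1 / MO k j ^ k) ^ (-(1 / (k : ℝ))) := Real.rpow_pos_of_pos hx0 _
  rw [lintegral_add_right _ (by fun_prop), lint_FF (by omega) hP0 hx0,
    lint_gauss _ _ hQ0 hkp, ← ENNReal.ofReal_add
      (mul_nonneg hP0 (by positivity)) (div_nonneg hQ0 hkp.le)]
  exact ENNReal.ofReal_le_ofReal ht

theorem summable_scales2 (s : ℕ) {ρ : ℝ} (h0 : 0 < ρ) (h1 : ρ < 1) :
    Summable fun j : ℕ => ((j : ℝ) + 1) ^ s * ρ ^ j := by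
  have h := summable_pow_mul_geometric_of_norm_lt_one s (r := ρ)
    (by rw [Real.norm_eq_abs, abs_of_pos h0]; exact h1)
  have h2 := ((summable_nat_add_iff 1).2 h).mul_left (1 / ρ)
  refine h2.congr fun j => ?_
  push_cast
  rw [pow_succ ρ j]
  field_simp

/-- Almost everywhere the comparison integral is small at all large scales. -/
theorem ae_small2 (hM : S_mean) (k n : ℕ) (hk : 2 ≤ k) (hn : 1 ≤ n) (A B η : ℝ) (hAB : A < B)
    (hη : 0 < η) :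
    ∀ᵐ α ∂(mu (k + n) A B),
      Tendsto (fun j => D k (2 ^ j) (kp k (k + n) η j) (((2 ^ j : ℕ) : ℝ) ^ (k - 1)) α /
        ((2 ^ j : ℕ) : ℝ) ^ n) atTop (𝓝 0) := by
  obtain ⟨C', hC', hE⟩ := expect_le2 hM k n hk hn A B η hAB
  have hk0 : (0 : ℝ) < k := by exact_mod_cast (by omega : 0 < k)
  have hdel : 0 < del k η := lt_min hη (by positivity)
  have hρ0 : 0 < (2 : ℝ) ^ (-(del k η)) := by positivity
  have hρ1 : (2 : ℝ) ^ (-(del k η)) < 1 :=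
    Real.rpow_lt_one_of_one_lt_of_neg (by norm_num) (by linarith)
  set F : ℕ → (Fin (k + n) → ℝ) → ENNReal := fun j α =>
    Dl k (2 ^ j) (k + n) (kp k (k + n) η j) (((2 ^ j : ℕ) : ℝ) ^ (k - 1)) α *
      ENNReal.ofReal (1 / ((2 ^ j : ℕ) : ℝ) ^ n) with hF
  have hmeas : ∀ j, Measurable (F j) := fun j => (Dl_meas _ _ _ _ _).mul_const _
  have hNN : ∀ j, 0 < ((2 ^ j : ℕ) : ℝ) ^ n := fun j => by positivity
  have hint : ∀ j, ∫⁻ α, F j α ∂(mu (k + n) A B) ≤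
      ENNReal.ofReal (C' * (((j : ℝ) + 1) ^ (k + n) * ((2 : ℝ) ^ (-(del k η))) ^ j)) := by
    intro j
    rw [hF]
    simp only
    rw [lintegral_mul_const _ (Dl_meas _ _ _ _ _)]
    refine (mul_le_mul_left (hE j) _).trans ?_
    rw [← ENNReal.ofReal_mul (by positivity)]
    refine ENNReal.ofReal_le_ofReal (le_of_eq ?_)
    have := (hNN j).ne'
    field_simp
  have hsum : ∑' j, ∫⁻ α, F j α ∂(mu (k + n) A B) ≠ ⊤ := by
    refine ne_top_of_le_ne_top ?_ (ENNReal.tsum_le_tsum hint)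
    rw [← ENNReal.ofReal_tsum_of_nonneg (fun j => by positivity)
      ((summable_scales2 (k + n) hρ0 hρ1).mul_left C')]
    exact ENNReal.ofReal_ne_top
  have hfin : ∫⁻ α, ∑' j, F j α ∂(mu (k + n) A B) ≠ ⊤ := by
    rw [lintegral_tsum (fun j => (hmeas j).aemeasurable)]
    exact hsum
  have hae := ae_lt_top (Measurable.tsum hmeas) hfin
  filter_upwards [hae] with α hα
  have ht := ENNReal.tendsto_atTop_zero_of_tsum_ne_top hα.ne
  have ht2 : Tendsto (fun j => (F j α).toReal) atTop (𝓝 0) := by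
    have := (ENNReal.tendsto_toReal ENNReal.zero_ne_top).comp ht
    rw [ENNReal.toReal_zero] at this
    exact this
  refine ht2.congr fun j => ?_
  rw [hF]
  simp only
  rw [Dl_eq _ _ _ _ _ (kp_pos k (k + n) η j), ENNReal.toReal_mul, ENNReal.toReal_ofReal,
    ENNReal.toReal_ofReal (by have := hNN j; positivity)]
  · ring
  · unfold D
    exact integral_nonneg fun ξ => mul_nonneg (om_nonneg _ _ _)
      (Finset.prod_nonneg fun i _ => norm_nonneg _)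

end Pool.Agent.W5h31.MS
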