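import Pool.Agent.W5h31.MS.G4
import Pool.Agent.W5h31.MS.F5

/-!
The two sided count in every dimension above `k`, for all windows down to
`r^(k - d/2 + ε)`.
-/

namespace Pool.Agent.W5h31.MS

open MeasureTheory Filter Topology

/-- Every large radius has a scale. -/
theorem exists_scale2 {k : ℕ} (hk : 2 ≤ k) {A : ℝ} (hA : 0 < A) (j₀ : ℕ) (r : ℝ)
    (hr : (A + 1) * ((2 ^ j₀ : ℕ) : ℝ) + 1 ≤ r) :
    ∃ j, j₀ ≤ j ∧ A / 2 / (2 : ℝ) ^ k * ((2 ^ j : ℕ) : ℝ) ^ k ≤ r ^ k ∧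
      r ^ k ≤ A / 2 * ((2 ^ j : ℕ) : ℝ) ^ k := by
  classical
  have hN0 : (0 : ℝ) ≤ ((2 ^ j₀ : ℕ) : ℝ) := by positivity
  have hr0 : 0 < r := by nlinarith
  have hex : ∃ j, r ^ k ≤ A / 2 * ((2 ^ j : ℕ) : ℝ) ^ k := by
    obtain ⟨j, hj⟩ := exists_nat_ge (max r (r ^ k / (A / 2)))
    refine ⟨j, ?_⟩
    have h1 : (j : ℝ) ≤ ((2 ^ j : ℕ) : ℝ) := by exact_mod_cast Nat.lt_two_pow_self.le
    have h2 : r ^ k / (A / 2) ≤ ((2 ^ j : ℕ) : ℝ) := (le_max_right _ _).trans (hj.trans h1)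
    have h3 : (1 : ℝ) ≤ ((2 ^ j : ℕ) : ℝ) := by
      exact_mod_cast Nat.one_le_iff_ne_zero.mpr (by positivity : (2 ^ j : ℕ) ≠ 0)
    have h4 : ((2 ^ j : ℕ) : ℝ) ≤ ((2 ^ j : ℕ) : ℝ) ^ k := le_self_pow₀ h3 (by omega)
    rw [div_le_iff₀ (by positivity)] at h2
    nlinarith
  have hfail : ∀ i, i ≤ j₀ → ¬ r ^ k ≤ A / 2 * ((2 ^ i : ℕ) : ℝ) ^ k := by
    intro i hi hcon
    have h1 : ((2 ^ i : ℕ) : ℝ) ≤ ((2 ^ j₀ : ℕ) : ℝ) := by
      exact_mod_cast Nat.pow_le_pow_right (by norm_num) hi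
    have h2 : ((2 ^ i : ℕ) : ℝ) ^ k ≤ ((2 ^ j₀ : ℕ) : ℝ) ^ k :=
      pow_le_pow_left₀ (by positivity) h1 k
    have h3 : ((A + 1) * ((2 ^ j₀ : ℕ) : ℝ)) ^ k ≤ r ^ k :=
      pow_le_pow_left₀ (by positivity) (by linarith) k
    rw [mul_pow] at h3
    have h4 : A + 1 ≤ (A + 1) ^ k := le_self_pow₀ (by linarith) (by omega)
    have h5 : 0 < ((2 ^ j₀ : ℕ) : ℝ) ^ k := by positivity
    nlinarith
  set j₁ := Nat.find hex with hj₁
  have hspec := Nat.find_spec hex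
  have hlt : j₀ < j₁ := by
    by_contra hcon
    exact hfail j₁ (not_lt.mp hcon) hspec
  obtain ⟨i, hi⟩ : ∃ i, j₁ = i + 1 := ⟨j₁ - 1, by omega⟩
  refine ⟨j₁, hlt.le, ?_, hspec⟩
  have hi2 : ¬ r ^ k ≤ A / 2 * ((2 ^ i : ℕ) : ℝ) ^ k := Nat.find_min hex (by omega)
  have hsucc : ((2 ^ (i + 1) : ℕ) : ℝ) = 2 * ((2 ^ i : ℕ) : ℝ) := by push_cast; ring
  rw [hi, hsucc, mul_pow]
  have : A / 2 / (2 : ℝ) ^ k * ((2 : ℝ) ^ k * ((2 ^ i : ℕ) : ℝ) ^ k) =
      A / 2 * ((2 ^ i : ℕ) : ℝ) ^ k := by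
    field_simp
  rw [this]
  exact (not_le.mp hi2).le

/-- Comparison of real powers of comparable numbers. -/
theorem rpow_compare {N r D₁ D₂ t : ℝ} (hN : 0 < N) (hr : 0 < r) (hD₁ : 0 < D₁) (hD₂ : 0 < D₂)
    (h1 : N ≤ D₁ * r) (h2 : r ≤ D₂ * N) :
    N ^ t ≤ max (D₁ ^ t) (D₂ ^ (-t)) * r ^ t := by
  have hrt : 0 < r ^ t := Real.rpow_pos_of_pos hr t
  rcases le_or_gt 0 t with ht | ht
  · calc N ^ t ≤ (D₁ * r) ^ t := Real.rpow_le_rpow hN.le h1 ht
      _ = D₁ ^ t * r ^ t := Real.mul_rpow hD₁.le hr.le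
      _ ≤ _ := mul_le_mul_of_nonneg_right (le_max_left _ _) hrt.le
  · have h3 : r / D₂ ≤ N := by rw [div_le_iff₀ hD₂]; linarith
    calc N ^ t ≤ (r / D₂) ^ t :=
          Real.rpow_le_rpow_of_nonpos (by positivity) h3 ht.le
      _ = D₂ ^ (-t) * r ^ t := by
          rw [Real.div_rpow hr.le hD₂.le, Real.rpow_neg hD₂.le]
          ring
      _ ≤ _ := mul_le_mul_of_nonneg_right (le_max_right _ _) hrt.le

/-- The two sided count for one coefficient vector in a box. -/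
theorem main_box2 (k n s : ℕ) (hs : s = k + n) (hk : 2 ≤ k) {A B : ℝ}
    (hA : 0 < A) (hAB : A ≤ B) (α : Fin s → ℝ) (hα : ∀ i, A ≤ α i ∧ α i ≤ B) :
    ∃ c C δ : ℝ, 0 < c ∧ 0 < C ∧ 0 < δ ∧ ∀ ε η : ℝ, η < ε →
      Tendsto (fun j => D k (2 ^ j) (kp k s η j) (((2 ^ j : ℕ) : ℝ) ^ (k - 1)) α /
        ((2 ^ j : ℕ) : ℝ) ^ n) atTop (𝓝 0) →
      ∃ r₀ : ℝ, ∀ r w : ℝ, r₀ ≤ r → r ^ ((k : ℝ) - (s : ℝ) / 2 + ε) ≤ w →
        w ≤ δ * r ^ (k - 1) →
        (shell k α r w).Finite ∧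
        c * (w * r ^ n) ≤ ((shell k α r w).ncard : ℝ) ∧
        ((shell k α r w).ncard : ℝ) ≤ C * (w * r ^ n) := by
  have hsk : s - k = n := by omega
  set c₂ : ℝ := A / 2 / (2 : ℝ) ^ k with hc₂
  have hc₂0 : 0 < c₂ := by positivity
  obtain ⟨C₂, hC₂, hup⟩ := up k s hk (by omega) A B c₂ hA hAB hc₂0
  obtain ⟨cl, hcl, N₀, hlow⟩ := low k s hk (by omega) A B c₂ hA hAB hc₂0
  rw [hsk] at hup hlow
  set Y : ℝ := 2 + 8 * (C₂ + 1) / cl with hY
  have hY2 : 2 ≤ Y := by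
    have : 0 ≤ 8 * (C₂ + 1) / cl := by positivity
    linarith
  have hY0 : 0 < Y := by linarith
  have hYc : 2 / Y * (C₂ + 1) ≤ cl / 4 := by
    have h1 : 8 * (C₂ + 1) / cl ≤ Y := by linarith
    rw [div_mul_eq_mul_div, div_le_iff₀ hY0]
    rw [div_le_iff₀ hcl] at h1
    nlinarith
  set ε₀ : ℝ := min 1 (cl / 2) with hε₀
  have hε0 : 0 < ε₀ := lt_min one_pos (by positivity)
  refine ⟨1 / Y * (cl / 4) * (1 / (A + 1) ^ n),
    2 ^ s * (Real.exp Real.pi * (C₂ + 1)) * (1 / c₂ + 1) ^ n, 1 / (A + 1) ^ (k - 1),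
    by positivity, by positivity, by positivity, ?_⟩
  intro ε η hηε hsmall
  obtain ⟨j₁, hj₁⟩ := eventually_atTop.mp (hsmall.eventually (gt_mem_nhds hε0))
  obtain ⟨n₂, hn₂⟩ := exists_nat_gt (4 / A)
  set t : ℝ := (k : ℝ) - (s : ℝ) / 2 + η with ht
  set D₃ : ℝ := max ((1 / c₂ + 1) ^ t) ((A + 1) ^ (-t)) with hD₃
  have hD₃0 : 0 < D₃ := lt_max_of_lt_left (by positivity)
  obtain ⟨r₁, hr₁⟩ := eventually_atTop.mp
    ((tendsto_rpow_atTop (sub_pos.mpr hηε)).eventually_ge_atTop (Y * D₃))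
  set j₀ : ℕ := max (max j₁ N₀) n₂ with hj₀
  refine ⟨max r₁ ((A + 1) * ((2 ^ j₀ : ℕ) : ℝ) + 1), ?_⟩
  intro r w hr' hwlow hwup
  have hr : (A + 1) * ((2 ^ j₀ : ℕ) : ℝ) + 1 ≤ r := (le_max_right _ _).trans hr'
  have hrr₁ : r₁ ≤ r := (le_max_left _ _).trans hr'
  obtain ⟨j, hjj, hlo, hhi⟩ := exists_scale2 hk hA j₀ r hr
  have hN0' : (0 : ℝ) ≤ ((2 ^ j₀ : ℕ) : ℝ) := by positivity
  have hr1 : 1 ≤ r := by nlinarith
  have hr0 : 0 < r := by linarith
  have hw : 0 < w := lt_of_lt_of_le (Real.rpow_pos_of_pos hr0 _) hwlow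
  have hjge : (j : ℝ) ≤ ((2 ^ j : ℕ) : ℝ) := by exact_mod_cast Nat.lt_two_pow_self.le
  have hNpos' : 1 ≤ 2 ^ j := Nat.one_le_iff_ne_zero.mpr (by positivity)
  have hNpos : (1 : ℝ) ≤ ((2 ^ j : ℕ) : ℝ) := by exact_mod_cast hNpos'
  have hkpj : kp k s η j = ((2 ^ j : ℕ) : ℝ) ^ t := by
    unfold kp
    rw [ht]
    congr 1
    push_cast
    ring
  set N : ℝ := ((2 ^ j : ℕ) : ℝ) with hN
  have hNN₀ : N₀ ≤ 2 ^ j := by
    have h1 : N₀ ≤ j := le_trans (le_trans (le_max_right _ _) (le_max_left _ _)) hjj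
    exact h1.trans Nat.lt_two_pow_self.le
  have hjj₁ : j₁ ≤ j := le_trans (le_trans (le_max_left _ _) (le_max_left _ _)) hjj
  have hn2j : n₂ ≤ j := le_trans (le_max_right _ _) hjj
  have hN2 : 4 / A < N := by
    have : (n₂ : ℝ) ≤ j := by exact_mod_cast hn2j
    linarith
  have hNpos0 : 0 < N := by linarith
  -- comparison of r and N
  have hrN : r ≤ (A + 1) * N := by
    refine le_of_pow_le_pow_left₀ (by omega : k ≠ 0) (by positivity) ?_
    rw [mul_pow]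
    have h4 : A + 1 ≤ (A + 1) ^ k := le_self_pow₀ (by linarith) (by omega)
    have h5 : 0 < N ^ k := by positivity
    nlinarith
  have hNr : N ≤ (1 / c₂ + 1) * r := by
    refine le_of_pow_le_pow_left₀ (by omega : k ≠ 0) (by positivity) ?_
    rw [mul_pow]
    have h4 : 1 / c₂ + 1 ≤ (1 / c₂ + 1) ^ k := by
      refine le_self_pow₀ ?_ (by omega)
      have : 0 < 1 / c₂ := by positivity
      linarith
    have h5 : 0 < r ^ k := by positivity
    have h6 : N ^ k ≤ 1 / c₂ * r ^ k := by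
      rw [one_div_mul_eq_div, le_div_iff₀ hc₂0]
      linarith [mul_comm c₂ (N ^ k)]
    nlinarith
  -- the comparison integral
  have hX : 0 < N ^ n := by positivity
  have hD : D k (2 ^ j) (kp k s η j) (N ^ (k - 1)) α ≤ ε₀ * N ^ n := by
    have := hj₁ j hjj₁
    rw [div_lt_iff₀ hX] at this
    exact this.le
  have hD1 : D k (2 ^ j) (kp k s η j) (N ^ (k - 1)) α ≤ N ^ n := by
    refine hD.trans ?_
    have : ε₀ ≤ 1 := min_le_left _ _
    nlinarith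
  have hD2 : D k (2 ^ j) (kp k s η j) (N ^ (k - 1)) α ≤ cl / 2 * N ^ n := by
    refine hD.trans ?_
    have : ε₀ ≤ cl / 2 := min_le_right _ _
    exact mul_le_mul_of_nonneg_right this hX.le
  have hcoarse_up := hup (2 ^ j) hNpos' α hα (r ^ k) hlo
  have hcoarse_low := hlow (2 ^ j) hNN₀ α hα (r ^ k) hlo hhi
  rw [← hN] at hcoarse_up hcoarse_low
  have hUP : ∀ h : ℝ, kp k s η j ≤ h → h ≤ N ^ (k - 1) →
      ∑ m ∈ bx s (2 ^ j), K h (L k α m - r ^ k) ≤ (C₂ + 1) * N ^ n := by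
    intro h h1 h2
    have hc := comp k (2 ^ j) (kp k s η j) h (N ^ (k - 1)) (kp_pos k s η j) h1 h2 α (r ^ k)
    have := (abs_le.mp hc).2
    rw [add_mul, one_mul]
    linarith
  have hLOW : ∀ h : ℝ, kp k s η j ≤ h → h ≤ N ^ (k - 1) →
      cl / 2 * N ^ n ≤ ∑ m ∈ bx s (2 ^ j), K h (L k α m - r ^ k) := by
    intro h h1 h2
    have hc := comp k (2 ^ j) (kp k s η j) h (N ^ (k - 1)) (kp_pos k s η j) h1 h2 α (r ^ k)
    have := (abs_le.mp hc).1
    have e : cl * N ^ n = cl / 2 * N ^ n + cl / 2 * N ^ n := by ring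
    linarith
  -- the width
  have hwH : w ≤ N ^ (k - 1) := by
    refine hwup.trans ?_
    have h1 : r ^ (k - 1) ≤ (A + 1) ^ (k - 1) * N ^ (k - 1) := by
      rw [← mul_pow]; exact pow_le_pow_left₀ hr0.le hrN _
    have h2 : 1 / (A + 1) ^ (k - 1) * ((A + 1) ^ (k - 1) * N ^ (k - 1)) = N ^ (k - 1) := by
      field_simp
    calc 1 / (A + 1) ^ (k - 1) * r ^ (k - 1) ≤
        1 / (A + 1) ^ (k - 1) * ((A + 1) ^ (k - 1) * N ^ (k - 1)) :=
          mul_le_mul_of_nonneg_left h1 (by positivity)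
      _ = N ^ (k - 1) := h2
  have hwY : kp k s η j ≤ w / Y := by
    rw [le_div_iff₀ hY0, hkpj]
    have h1 := rpow_compare (t := t) hNpos0 hr0 (by positivity : 0 < 1 / c₂ + 1)
      (by positivity : 0 < A + 1) hNr hrN
    rw [← hD₃] at h1
    have h2 : Y * D₃ ≤ r ^ (ε - η) := hr₁ r hrr₁
    have hrt : 0 < r ^ t := Real.rpow_pos_of_pos hr0 t
    calc N ^ t * Y ≤ D₃ * r ^ t * Y := mul_le_mul_of_nonneg_right h1 hY0.le
      _ = Y * D₃ * r ^ t := by ring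
      _ ≤ r ^ (ε - η) * r ^ t := mul_le_mul_of_nonneg_right h2 hrt.le
      _ = r ^ ((k : ℝ) - (s : ℝ) / 2 + ε) := by
          rw [← Real.rpow_add hr0]
          congr 1
          rw [ht]
          ring
      _ ≤ w := hwlow
  have hwY1 : w / Y ≤ w := div_le_self hw.le (by linarith)
  have h2wY : 2 * (w / Y) ≤ w := by
    rw [mul_div_assoc', div_le_iff₀ hY0]
    nlinarith
  have hwYpos : 0 < w / Y := by positivity
  -- the finite set
  have hset : shellN k α r w =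
      ((bx s (2 ^ j)).filter fun m => |L k α m - r ^ k| ≤ w : Finset (Fin s → ℕ)) := by
    ext m
    simp only [Finset.coe_filter, Set.mem_ofPred_eq, shellN]
    constructor
    · intro hm
      refine ⟨?_, hm⟩
      unfold bx
      rw [Fintype.mem_piFinset]
      intro i
      rw [Finset.mem_range]
      by_contra hcon
      push Not at hcon
      have h1 : N ≤ (m i : ℝ) := by rw [hN]; exact_mod_cast hcon
      have h2 : N ^ k ≤ (m i : ℝ) ^ k := pow_le_pow_left₀ (by positivity) h1 k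
      have h3 : α i * (m i : ℝ) ^ k ≤ L k α m := by
        unfold L
        exact Finset.single_le_sum (f := fun i => α i * (m i : ℝ) ^ k)
          (fun i' _ => mul_nonneg (hA.le.trans (hα i').1) (by positivity)) (Finset.mem_univ i)
      have h4 : L k α m ≤ r ^ k + w := by linarith [(abs_le.mp hm).2]
      have h5 : A * N ^ k ≤ α i * (m i : ℝ) ^ k :=
        mul_le_mul (hα i).1 h2 (by positivity) (hA.le.trans (hα i).1)
      have h6 : N ^ k = N ^ (k - 1) * N := by rw [← pow_succ]; congr 1; omega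
      have h7 : 4 < N * A := by rwa [div_lt_iff₀ hA] at hN2
      have h8 : 0 < N ^ (k - 1) := by positivity
      have h9 : 4 * N ^ (k - 1) < A * N ^ k := by
        rw [h6]; nlinarith
      linarith
    · exact fun hm => hm.2
  have hfin : (shellN k α r w).Finite := by rw [hset]; exact Finset.finite_toSet _
  have hcard : (shellN k α r w).ncard =
      ((bx s (2 ^ j)).filter fun m => |L k α m - r ^ k| ≤ w).card := by
    rw [hset, Set.ncard_coe_finset]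
  obtain ⟨g1, g2, g3⟩ := shell_compare k α r w hfin
  have g2' : ((shellN k α r w).ncard : ℝ) ≤ ((shell k α r w).ncard : ℝ) := by exact_mod_cast g2
  have g3' : ((shell k α r w).ncard : ℝ) ≤ 2 ^ s * ((shellN k α r w).ncard : ℝ) := by
    exact_mod_cast g3
  rw [hcard] at g2' g3'
  refine ⟨g1, ?_, ?_⟩
  · -- lower bound
    have h1 := count_low (bx s (2 ^ j)) (fun m => L k α m - r ^ k) (w := w) (Y := Y) hw
      (by linarith)
    have h2 := hLOW (w / Y) hwY (hwY1.trans hwH)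
    have h3 := hUP (2 * (w / Y)) (by linarith) (h2wY.trans hwH)
    have h4 : 2 / Y * ∑ m ∈ bx s (2 ^ j), K (2 * (w / Y)) (L k α m - r ^ k) ≤
        cl / 4 * N ^ n := by
      calc 2 / Y * ∑ m ∈ bx s (2 ^ j), K (2 * (w / Y)) (L k α m - r ^ k) ≤
          2 / Y * ((C₂ + 1) * N ^ n) := mul_le_mul_of_nonneg_left h3 (by positivity)
        _ = 2 / Y * (C₂ + 1) * N ^ n := by ring
        _ ≤ cl / 4 * N ^ n := mul_le_mul_of_nonneg_right hYc hX.le
    have h5 : w / Y * (cl / 4 * N ^ n) ≤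
        (((bx s (2 ^ j)).filter fun m => |L k α m - r ^ k| ≤ w).card : ℝ) := by
      refine le_trans (mul_le_mul_of_nonneg_left ?_ hwYpos.le) h1
      have e : cl / 2 * N ^ n = cl / 4 * N ^ n + cl / 4 * N ^ n := by
        ring
      linarith
    have h6 : r ^ n ≤ (A + 1) ^ n * N ^ n := by
      rw [← mul_pow]; exact pow_le_pow_left₀ hr0.le hrN _
    have h7 : 1 / Y * (cl / 4) * (1 / (A + 1) ^ n) * (w * r ^ n) ≤
        w / Y * (cl / 4 * N ^ n) := by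
      calc 1 / Y * (cl / 4) * (1 / (A + 1) ^ n) * (w * r ^ n) ≤
          1 / Y * (cl / 4) * (1 / (A + 1) ^ n) *
            (w * ((A + 1) ^ n * N ^ n)) :=
            mul_le_mul_of_nonneg_left (mul_le_mul_of_nonneg_left h6 hw.le) (by positivity)
        _ = w / Y * (cl / 4 * N ^ n) := by field_simp
    linarith
  · -- upper bound
    have h1 := count_up (bx s (2 ^ j)) (fun m => L k α m - r ^ k) (w := w) hw
    have h2 := hUP w (hwY.trans hwY1) hwH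
    have h3 : (((bx s (2 ^ j)).filter fun m => |L k α m - r ^ k| ≤ w).card : ℝ) ≤
        Real.exp Real.pi * w * ((C₂ + 1) * N ^ n) :=
      h1.trans (mul_le_mul_of_nonneg_left h2 (by positivity))
    have h4 : N ^ n ≤ (1 / c₂ + 1) ^ n * r ^ n := by
      rw [← mul_pow]; exact pow_le_pow_left₀ (by positivity) hNr _
    calc ((shell k α r w).ncard : ℝ) ≤
        2 ^ s * (((bx s (2 ^ j)).filter fun m => |L k α m - r ^ k| ≤ w).card : ℝ) := g3'
      _ ≤ 2 ^ s * (Real.exp Real.pi * w * ((C₂ + 1) *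
            ((1 / c₂ + 1) ^ n * r ^ n))) := by
          refine mul_le_mul_of_nonneg_left (h3.trans ?_) (by positivity)
          exact mul_le_mul_of_nonneg_left (mul_le_mul_of_nonneg_left h4 (by positivity))
            (by positivity)
      _ = _ := by ring

/-- For almost all positive coefficient vectors the two sided count holds. -/
theorem main_ae2 (k n : ℕ) (hk : 2 ≤ k) (hn : 1 ≤ n) :
    ∀ᵐ α : Fin (k + n) → ℝ, (∀ i, 0 < α i) →
      ∃ c C δ : ℝ, 0 < c ∧ 0 < C ∧ 0 < δ ∧ ∀ ε : ℝ, 0 < ε →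
        ∃ r₀ : ℝ, ∀ r w : ℝ, r₀ ≤ r → r ^ ((k : ℝ) - ((k + n : ℕ) : ℝ) / 2 + ε) ≤ w →
          w ≤ δ * r ^ (k - 1) →
          (shell k α r w).Finite ∧
          c * (w * r ^ n) ≤ ((shell k α r w).ncard : ℝ) ∧
          ((shell k α r w).ncard : ℝ) ≤ C * (w * r ^ n) := by
  have hbox : ∀ p i : ℕ, ∀ᵐ α : Fin (k + n) → ℝ,
      α ∈ Set.pi Set.univ (fun _ : Fin (k + n) =>
        Set.Icc (1 / ((p : ℝ) + 1)) ((p : ℝ) + 2)) →
      Tendsto (fun j => D k (2 ^ j) (kp k (k + n) (1 / ((i : ℝ) + 1)) j)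
        (((2 ^ j : ℕ) : ℝ) ^ (k - 1)) α / ((2 ^ j : ℕ) : ℝ) ^ n) atTop (𝓝 0) := by
    intro p i
    have hp : (0 : ℝ) ≤ p := by positivity
    have h1 : 1 / ((p : ℝ) + 1) < (p : ℝ) + 2 := by
      rw [div_lt_iff₀ (by positivity)]
      nlinarith
    have h := ae_small2 mean k n hk hn (1 / ((p : ℝ) + 1)) ((p : ℝ) + 2) (1 / ((i : ℝ) + 1)) h1
      (by positivity)
    rw [mu_eq] at h
    exact (ae_restrict_iff' (MeasurableSet.univ_pi fun _ => measurableSet_Icc)).mp h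
  filter_upwards [ae_all_iff.mpr fun p => ae_all_iff.mpr (hbox p)] with α hα hpos
  -- a box containing α
  obtain ⟨p, hp⟩ : ∃ p : ℕ, ∀ i, 1 / ((p : ℝ) + 1) ≤ α i ∧ α i ≤ (p : ℝ) + 2 := by
    obtain ⟨p, hp⟩ := exists_nat_ge (∑ i, (α i + 1 / α i))
    refine ⟨p, fun i => ?_⟩
    have h1 : α i + 1 / α i ≤ p := by
      refine le_trans ?_ hp
      exact Finset.single_le_sum (f := fun i => α i + 1 / α i)
        (fun i' _ => by have := hpos i'; positivity) (Finset.mem_univ i)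
    have h2 := hpos i
    have h3 : 0 < 1 / α i := by positivity
    constructor
    · rw [div_le_iff₀ (by positivity)]
      have h4 : 1 / α i ≤ p := by linarith
      rw [div_le_iff₀ h2] at h4
      nlinarith
    · linarith
  have hmem : α ∈ Set.pi Set.univ (fun _ : Fin (k + n) =>
      Set.Icc (1 / ((p : ℝ) + 1)) ((p : ℝ) + 2)) := fun i _ => ⟨(hp i).1, (hp i).2⟩
  have hAB : 1 / ((p : ℝ) + 1) ≤ (p : ℝ) + 2 := by
    rw [div_le_iff₀ (by positivity)]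
    have : (0 : ℝ) ≤ p := by positivity
    nlinarith
  obtain ⟨c, C, δ, h1, h2, h3, h4⟩ := main_box2 k n (k + n) rfl hk (A := 1 / ((p : ℝ) + 1))
    (B := (p : ℝ) + 2) (by positivity) hAB α hp
  refine ⟨c, C, δ, h1, h2, h3, fun ε hε => ?_⟩
  obtain ⟨i, hi⟩ := exists_nat_one_div_lt hε
  exact h4 ε (1 / ((i : ℝ) + 1)) hi (hα p i hmem)

end Pool.Agent.W5h31.MS
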